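import Pool.Agent.P8H32.FN.Lip3

set_option autoImplicit false
set_option synthInstance.maxHeartbeats 400000
set_option synthInstance.maxSize 2048

namespace Pool.Agent.P8H32.FN

open MeasureTheory
open scoped ENNReal

variable {d c : ℕ}

/-- the grid points -/
noncomputable def dec (B δ : ℝ) {M : ℕ} (q : Fin M) : ℝ := -B + (q : ℕ) * δ

lemma exists_dec {B δ : ℝ} (hδ : 0 < δ) {M : ℕ} (hM : 2 * B / δ < M) {x : ℝ} (hx : |x| ≤ B) :
    ∃ q : Fin M, |x - dec B δ q| ≤ δ ∧ |dec B δ q| ≤ B := by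
  obtain ⟨h1, h2⟩ := abs_le.1 hx
  have h3 : 0 ≤ (x + B) / δ := div_nonneg (by linarith) hδ.le
  have h4 : (x + B) / δ ≤ 2 * B / δ := div_le_div_of_nonneg_right (by linarith) hδ.le
  have h5 : ⌊(x + B) / δ⌋₊ < M := by
    rw [Nat.floor_lt h3]
    linarith
  have h6 := Nat.floor_le h3
  have h7 := Nat.lt_floor_add_one ((x + B) / δ)
  rw [le_div_iff₀ hδ] at h6
  rw [div_lt_iff₀ hδ] at h7
  have h8 : (0 : ℝ) ≤ (⌊(x + B) / δ⌋₊ : ℝ) * δ := by positivity
  refine ⟨⟨_, h5⟩, ?_, ?_⟩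
  · rw [dec, abs_le]
    constructor
    · simp only
      linarith
    · simp only
      linarith
  · rw [dec, abs_le]
    constructor
    · simp only
      linarith
    · simp only
      linarith

/-- the grid of parameters -/
abbrev Code (d κ c L M : ℕ) : Type :=
  ((Fin c → Fin M) × (Fin c → Fin d → Fin M) × (Fin c → Fin M) × (Fin c → Fin M) × Fin M) ×
  ((Fin L → Fin c → Fin c → Fin M) × (Fin L → Fin c → Fin M)) ×
  ((Fin L → box d κ → Fin c → Fin c → Fin M) × (Fin L → box d κ → Fin c → Fin c → Fin M))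

open scoped Classical in
/-- the parameters of a grid point -/
noncomputable def toParam {κ L M : ℕ} (B δ : ℝ) (q : Code d κ c L M) : Param d c where
  RU i := dec B δ (q.1.1 i)
  RX i j := dec B δ (q.1.2.1 i j)
  R0 i := dec B δ (q.1.2.2.1 i)
  QV i := dec B δ (q.1.2.2.2.1 i)
  Q0 := dec B δ q.1.2.2.2.2
  W l i j := if h : l < L then dec B δ (q.2.1.1 ⟨l, h⟩ i j) else 0
  b l i := if h : l < L then dec B δ (q.2.1.2 ⟨l, h⟩ i) else 0
  P l k i j := if h : l < L ∧ k ∈ box d κ then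
    ⟨dec B δ (q.2.2.1 ⟨l, h.1⟩ ⟨k, h.2⟩ i j), dec B δ (q.2.2.2 ⟨l, h.1⟩ ⟨k, h.2⟩ i j)⟩ else 0

lemma exists_code {κ L M : ℕ} {B δ : ℝ} (hδ : 0 < δ) (hM : 2 * B / δ < M)
    {θ : Param d c} (hθ : Bounded κ L B θ) :
    ∃ q : Code d κ c L M, Bounded κ L B (toParam B δ q) ∧ Close κ L δ θ (toParam B δ q) := by
  choose a1 b1 c1 using fun i => exists_dec hδ hM (hθ.RU i)
  choose a2 b2 c2 using fun i j => exists_dec hδ hM (hθ.RX i j)
  choose a3 b3 c3 using fun i => exists_dec hδ hM (hθ.R0 i)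
  choose a4 b4 c4 using fun i => exists_dec hδ hM (hθ.QV i)
  obtain ⟨a5, b5, c5⟩ := exists_dec hδ hM hθ.Q0
  choose a6 b6 c6 using fun (l : Fin L) i j => exists_dec hδ hM (hθ.W l.1 l.2 i j)
  choose a7 b7 c7 using fun (l : Fin L) i => exists_dec hδ hM (hθ.b l.1 l.2 i)
  choose a8 b8 c8 using fun (l : Fin L) (k : box d κ) i j =>
    exists_dec hδ hM (hθ.Pre l.1 l.2 k.1 k.2 i j)
  choose a9 b9 c9 using fun (l : Fin L) (k : box d κ) i j =>
    exists_dec hδ hM (hθ.Pim l.1 l.2 k.1 k.2 i j)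
  refine ⟨((a1, a2, a3, a4, a5), (a6, a7), (a8, a9)), ?_, ?_⟩
  · refine ⟨c1, c2, c3, c4, c5, ?_, ?_, ?_, ?_⟩
    · intro l hl i j
      simp only [toParam, dif_pos hl]
      exact c6 ⟨l, hl⟩ i j
    · intro l hl i
      simp only [toParam, dif_pos hl]
      exact c7 ⟨l, hl⟩ i
    · intro l hl k hk i j
      simp only [toParam, dif_pos (⟨hl, hk⟩ : l < L ∧ k ∈ box d κ)]
      exact c8 ⟨l, hl⟩ ⟨k, hk⟩ i j
    · intro l hl k hk i j
      simp only [toParam, dif_pos (⟨hl, hk⟩ : l < L ∧ k ∈ box d κ)]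
      exact c9 ⟨l, hl⟩ ⟨k, hk⟩ i j
  · refine ⟨b1, b2, b3, b4, b5, ?_, ?_, ?_, ?_⟩
    · intro l hl i j
      simp only [toParam, dif_pos hl]
      exact b6 ⟨l, hl⟩ i j
    · intro l hl i
      simp only [toParam, dif_pos hl]
      exact b7 ⟨l, hl⟩ i
    · intro l hl k hk i j
      simp only [toParam, dif_pos (⟨hl, hk⟩ : l < L ∧ k ∈ box d κ)]
      exact b8 ⟨l, hl⟩ ⟨k, hk⟩ i j
    · intro l hl k hk i j
      simp only [toParam, dif_pos (⟨hl, hk⟩ : l < L ∧ k ∈ box d κ)]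
      exact b9 ⟨l, hl⟩ ⟨k, hk⟩ i j

lemma card_code (κ L M : ℕ) : Fintype.card (Code d κ c L M) =
    M ^ (c + c * d + c + c + 1 + (L * c * c + L * c) + 2 * (L * (box d κ).card * c * c)) := by
  simp only [Code, Fintype.card_prod, Fintype.card_fun, Fintype.card_fin, Fintype.card_coe]
  simp only [← pow_mul, ← pow_add, ← pow_succ]
  congr 1
  ring

lemma card_box_le (d κ : ℕ) : (box d κ).card ≤ 2 ^ d * κ ^ d := by
  rw [box, Fintype.card_piFinset, ← mul_pow]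
  simp only [Int.card_Ioo, Finset.prod_const, Finset.card_univ, Fintype.card_fin]
  apply Nat.pow_le_pow_left
  omega

lemma expo_le {κ L m : ℕ} (hm : 1 ≤ m) (hκ : κ ^ d ≤ m) (hc : c ≤ m) (hL : L ≤ m) :
    c + c * d + c + c + 1 + (L * c * c + L * c) + 2 * (L * (box d κ).card * c * c) ≤
      (d + 6 + 2 * 2 ^ d) * m ^ 4 := by
  have hN : (box d κ).card ≤ 2 ^ d * m := (card_box_le d κ).trans (Nat.mul_le_mul_left _ hκ)
  have h1 : m ≤ m ^ 4 := Nat.le_self_pow (by norm_num) m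
  have h2 : m * m ≤ m ^ 4 := by
    calc m * m = m ^ 2 := by ring
      _ ≤ m ^ 4 := Nat.pow_le_pow_right hm (by norm_num)
  have h3 : m * m * m ≤ m ^ 4 := by
    calc m * m * m = m ^ 3 := by ring
      _ ≤ m ^ 4 := Nat.pow_le_pow_right hm (by norm_num)
  have e1 : c ≤ m ^ 4 := hc.trans h1
  have e2 : c * d ≤ m ^ 4 * d := Nat.mul_le_mul_right _ e1
  have e3 : L * c * c ≤ m ^ 4 := (Nat.mul_le_mul (Nat.mul_le_mul hL hc) hc).trans h3
  have e4 : L * c ≤ m ^ 4 := (Nat.mul_le_mul hL hc).trans h2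
  have e5 : L * (box d κ).card * c * c ≤ 2 ^ d * m ^ 4 := by
    calc L * (box d κ).card * c * c ≤ m * (2 ^ d * m) * m * m :=
          Nat.mul_le_mul (Nat.mul_le_mul (Nat.mul_le_mul hL hN) hc) hc
      _ = 2 ^ d * m ^ 4 := by ring
  have e6 : 1 ≤ m ^ 4 := hm.trans h1
  nlinarith

/-- the bound for the growth factors of all networks of size `m` -/
noncomputable def bT (d m : ℕ) : ℝ :=
  (m : ℝ) * (2 * Real.exp m) * (2 * (2 ^ d * m) + 1) * (d + 1)

lemma gT_le_bT {κ m : ℕ} (hκ : κ ^ d ≤ m) (hc : c ≤ m) :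
    gT d c κ (2 * Real.exp m) ≤ bT d m := by
  have hN : ((box d κ).card : ℝ) ≤ 2 ^ d * m := by
    exact_mod_cast (card_box_le d κ).trans (Nat.mul_le_mul_left _ hκ)
  have hc' : (c : ℝ) ≤ m := by exact_mod_cast hc
  unfold gT bT
  gcongr

lemma bT_le {m : ℕ} (hm : 1 ≤ m) :
    4 * bT d m ≤ Real.exp ((Real.log (24 * 2 ^ d * (d + 1)) + 3) * m) := by
  have hm1 : (1 : ℝ) ≤ m := by exact_mod_cast hm
  have h1 : (m : ℝ) ≤ Real.exp m := by
    have := Real.add_one_le_exp (m : ℝ)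
    linarith
  have h2 : (0 : ℝ) < 24 * 2 ^ d * (d + 1) := by positivity
  have h24 : (1 : ℝ) ≤ 24 * 2 ^ d * (d + 1) := by
    have e1 : (1 : ℝ) ≤ 2 ^ d := one_le_pow₀ (by norm_num)
    have e2 : (1 : ℝ) ≤ (d : ℝ) + 1 := by
      have : (0 : ℝ) ≤ d := by positivity
      linarith
    nlinarith
  have h3 : 2 * (2 ^ d * (m : ℝ)) + 1 ≤ 3 * 2 ^ d * Real.exp m := by
    have e1 : (1 : ℝ) ≤ 2 ^ d * m := by
      have : (1 : ℝ) ≤ 2 ^ d := one_le_pow₀ (by norm_num)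
      nlinarith
    calc 2 * (2 ^ d * (m : ℝ)) + 1 ≤ 3 * (2 ^ d * m) := by linarith
      _ ≤ 3 * (2 ^ d * Real.exp m) := by gcongr
      _ = _ := by ring
  have hl : 0 ≤ Real.log (24 * 2 ^ d * (d + 1)) := Real.log_nonneg h24
  calc 4 * bT d m = 4 * ((m : ℝ) * (2 * Real.exp m) * (2 * (2 ^ d * m) + 1) * (d + 1)) := rfl
    _ ≤ 4 * (Real.exp m * (2 * Real.exp m) * (3 * 2 ^ d * Real.exp m) * (d + 1)) := by gcongr
    _ = 24 * 2 ^ d * (d + 1) * Real.exp (3 * m) := by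
        rw [show (3 : ℝ) * m = m + m + m by ring, Real.exp_add, Real.exp_add]
        ring
    _ = Real.exp (Real.log (24 * 2 ^ d * (d + 1)) + 3 * m) := by
        rw [Real.exp_add, Real.exp_log h2]
    _ ≤ _ := by
        apply Real.exp_le_exp.2
        nlinarith

end Pool.Agent.P8H32.FN
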