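import Pool.Agent.P8H32.FN.Cover

set_option autoImplicit false
set_option synthInstance.maxHeartbeats 400000
set_option synthInstance.maxSize 2048

namespace Pool.Agent.P8H32.FN

open MeasureTheory
open scoped ENNReal

variable {d : ℕ}

/-- scaling the output -/
noncomputable def scaleQ {c : ℕ} (t : ℝ) (θ : Param d c) : Param d c :=
  { θ with QV := fun i => t * θ.QV i, Q0 := t * θ.Q0 }

lemma state_scaleQ {c : ℕ} (κ : ℕ) (t : ℝ) (θ : Param d c) (u : (Fin d → ℝ) → ℝ) :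
    ∀ l, state κ (scaleQ t θ) u l = state κ θ u l
  | 0 => rfl
  | l + 1 => by
    have ih := state_scaleQ κ t θ u l
    funext x i
    simp only [state, ih]
    rfl

lemma out_scaleQ {c : ℕ} (κ L : ℕ) (t : ℝ) (θ : Param d c) (u : (Fin d → ℝ) → ℝ) (x : Fin d → ℝ) :
    out κ L (scaleQ t θ) u x = t * out κ L θ u x := by
  simp only [out, state_scaleQ]
  simp only [scaleQ, mul_add, Finset.mul_sum, mul_assoc]

lemma ofReal_natCast_rpow {m : ℕ} (hm : 1 ≤ m) (α : ℝ) :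
    (m : ℝ≥0∞) ^ α = ENNReal.ofReal ((m : ℝ) ^ α) := by
  rw [← ENNReal.ofReal_natCast, ENNReal.ofReal_rpow_of_pos (by exact_mod_cast hm)]

lemma nrm_coe (u : L2 d) : nrm (u : (Fin d → ℝ) → ℝ) = ‖u‖ := (Lp.norm_def u).symm

lemma ball_approx {K : Set (L2 d)} {α : ℝ} {f : C(K, L2 d)} (hf : f ∈ Ball K α) {m : ℕ}
    (hm : 1 ≤ m) : ∃ (κ c L : ℕ) (θ : Param d c), 0 < κ ∧ 0 < c ∧ 0 < L ∧ κ ^ d ≤ m ∧ c ≤ m ∧
      L ≤ m ∧ Bounded κ L (2 * Real.exp m) θ ∧
      ∀ u : K, eLpNorm (fun x => f u x - out κ L θ (u : L2 d) x) 2 (cube d) ≤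
        ENNReal.ofReal (4 * (m : ℝ) ^ (-α)) := by
  have h1 : (⨅ (t : ℝ) (_ : 0 < t ∧ Gam α (t⁻¹ • f) ≤ 1), ENNReal.ofReal t) <
      ENNReal.ofReal 2 := lt_of_le_of_lt hf (by norm_num)
  obtain ⟨t, ht⟩ := iInf_lt_iff.1 h1
  obtain ⟨⟨ht0, hG⟩, ht2⟩ := iInf_lt_iff.1 ht
  have ht2 : t < 2 := (ENNReal.ofReal_lt_ofReal_iff (by norm_num)).1 ht2
  have h2 : (m : ℝ≥0∞) ^ α * err (t⁻¹ • f) m ≤ 1 := by
    refine le_trans ?_ ((le_max_right _ _).trans hG)
    exact le_iSup₂ (f := fun (m : ℕ) (_ : 1 ≤ m) => (m : ℝ≥0∞) ^ α * err (t⁻¹ • f) m) m hm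
  have hm0 : (0 : ℝ) < m := by exact_mod_cast hm
  have hpos : 0 < (m : ℝ) ^ α := Real.rpow_pos_of_pos hm0 α
  have hneg : (m : ℝ) ^ (-α) = ((m : ℝ) ^ α)⁻¹ := Real.rpow_neg hm0.le α
  have hpos' : 0 < (m : ℝ) ^ (-α) := Real.rpow_pos_of_pos hm0 _
  have h3 : err (t⁻¹ • f) m ≤ ENNReal.ofReal ((m : ℝ) ^ (-α)) := by
    rw [ofReal_natCast_rpow hm, mul_comm] at h2
    have := (ENNReal.le_div_iff_mul_le (Or.inl (by simpa using hpos))
      (Or.inl ENNReal.ofReal_ne_top)).2 h2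
    rw [hneg, ENNReal.ofReal_inv_of_pos hpos]
    rwa [one_div] at this
  have h4 : err (t⁻¹ • f) m < ENNReal.ofReal (2 * (m : ℝ) ^ (-α)) :=
    lt_of_le_of_lt h3 ((ENNReal.ofReal_lt_ofReal_iff (by positivity)).2 (by linarith))
  obtain ⟨Ψ, h5⟩ := iInf_lt_iff.1 h4
  obtain ⟨⟨κ, c, L, θ, hκ, hc, hL, hκm, hcm, hLm, hB, _, rfl⟩, h6⟩ := iInf_lt_iff.1 h5
  refine ⟨κ, c, L, scaleQ t θ, hκ, hc, hL, hκm, hcm, hLm, ?_, ?_⟩
  · have he : 0 < Real.exp m := Real.exp_pos _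
    have hw : ∀ x : ℝ, |x| ≤ Real.exp m → |x| ≤ 2 * Real.exp m := fun x hx => by linarith
    refine ⟨fun i => hw _ (hB.RU i), fun i j => hw _ (hB.RX i j), fun i => hw _ (hB.R0 i), ?_, ?_,
      fun l hl i j => hw _ (hB.W l hl i j), fun l hl i => hw _ (hB.b l hl i),
      fun l hl k hk i j => hw _ (hB.Pre l hl k hk i j),
      fun l hl k hk i j => hw _ (hB.Pim l hl k hk i j)⟩
    · intro i
      simp only [scaleQ, abs_mul, abs_of_pos ht0]
      exact mul_le_mul ht2.le (hB.QV i) (abs_nonneg _) (by norm_num)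
    · simp only [scaleQ, abs_mul, abs_of_pos ht0]
      exact mul_le_mul ht2.le hB.Q0 (abs_nonneg _) (by norm_num)
  · intro u
    have h7 : eLpNorm (fun x => (t⁻¹ • f) u x - out κ L θ (u : L2 d) x) 2 (cube d) ≤
        ENNReal.ofReal (2 * (m : ℝ) ^ (-α)) :=
      (le_iSup (fun u : K => eLpNorm (fun x => (t⁻¹ • f) u x - out κ L θ (u : L2 d) x) 2
        (cube d)) u).trans h6.le
    have h8 : eLpNorm (fun x => f u x - out κ L (scaleQ t θ) (u : L2 d) x) 2 (cube d) =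
        ENNReal.ofReal t * eLpNorm (fun x => (t⁻¹ • f) u x - out κ L θ (u : L2 d) x) 2 (cube d) := by
      have e1 : (fun x => f u x - out κ L (scaleQ t θ) (u : L2 d) x) =ᵐ[cube d]
          t • (fun x => (t⁻¹ • f) u x - out κ L θ (u : L2 d) x) := by
        have e2 := Lp.coeFn_smul t⁻¹ (f u)
        filter_upwards [e2] with x hx
        have e3 : (t⁻¹ • f) u = t⁻¹ • f u := rfl
        simp only [Pi.smul_apply, smul_eq_mul, out_scaleQ]
        rw [e3, hx, Pi.smul_apply, smul_eq_mul]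
        field_simp
      rw [eLpNorm_congr_ae e1, eLpNorm_const_smul, Real.enorm_eq_ofReal ht0.le]
    rw [h8]
    calc ENNReal.ofReal t * _ ≤ ENNReal.ofReal 2 * ENNReal.ofReal (2 * (m : ℝ) ^ (-α)) := by
          gcongr
      _ = ENNReal.ofReal (4 * (m : ℝ) ^ (-α)) := by
          rw [← ENNReal.ofReal_mul (by norm_num)]
          congr 1
          ring

/-- the mesh -/
noncomputable def mesh (d : ℕ) (R α : ℝ) (m : ℕ) : ℝ :=
  (m : ℝ) ^ (-α) / ((4 * bT d m) ^ (m + 2) * (1 + R))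

/-- the number of grid points for each parameter -/
noncomputable def gridN (d : ℕ) (R α : ℝ) (m : ℕ) : ℕ :=
  ⌊2 * (2 * Real.exp m) / mesh d R α m⌋₊ + 1

lemma bT_pos {m : ℕ} (hm : 1 ≤ m) : 1 ≤ 4 * bT d m := by
  have hm1 : (1 : ℝ) ≤ m := by exact_mod_cast hm
  have h1 : (1 : ℝ) ≤ Real.exp m := Real.one_le_exp (by linarith)
  have h3 : (1 : ℝ) ≤ 2 * (2 ^ d * m) + 1 := by
    have : (0 : ℝ) ≤ 2 ^ d * m := by positivity
    linarith
  have h4 : (1 : ℝ) ≤ (d : ℝ) + 1 := by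
    have : (0 : ℝ) ≤ d := by positivity
    linarith
  have : 1 ≤ bT d m := by
    unfold bT
    exact one_le_mul_of_one_le_of_one_le (one_le_mul_of_one_le_of_one_le
      (one_le_mul_of_one_le_of_one_le hm1 (by linarith)) h3) h4
  linarith

lemma mesh_pos {R α : ℝ} (hR : 0 ≤ R) {m : ℕ} (hm : 1 ≤ m) : 0 < mesh d R α m := by
  have hm0 : (0 : ℝ) < m := by exact_mod_cast hm
  have h1 : 0 < 4 * bT d m := lt_of_lt_of_le one_pos (bT_pos hm)
  have h2 : 0 < (m : ℝ) ^ (-α) := Real.rpow_pos_of_pos hm0 _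
  unfold mesh
  positivity

lemma near_code {R α : ℝ} (hR : 0 ≤ R) {m : ℕ} (hm : 1 ≤ m) {κ c L : ℕ} (hc : 0 < c)
    (hκm : κ ^ d ≤ m) (hcm : c ≤ m) (hLm : L ≤ m) {θ : Param d c}
    (hθ : Bounded κ L (2 * Real.exp m) θ) :
    ∃ q : Code d κ c L (gridN d R α m), ∀ u : L2 d, ‖u‖ ≤ R →
      eLpNorm (fun x => out κ L θ u x -
        out κ L (toParam (2 * Real.exp m) (mesh d R α m) q) u x) 2 (cube d) ≤
        ENNReal.ofReal ((m : ℝ) ^ (-α)) := by
  have hδ := mesh_pos (d := d) (α := α) hR hm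
  have hM : 2 * (2 * Real.exp m) / mesh d R α m < gridN d R α m := by
    unfold gridN
    push_cast
    exact Nat.lt_floor_add_one _
  obtain ⟨q, hq1, hq2⟩ := exists_code hδ hM hθ
  refine ⟨q, fun u hu => ?_⟩
  have hB : 1 ≤ 2 * Real.exp m := by
    have : 1 ≤ Real.exp m := Real.one_le_exp (by positivity)
    linarith
  refine (out_close hc hB hδ.le hθ hq1 hq2 (Lp.memLp u)).trans (ENNReal.ofReal_le_ofReal ?_)
  rw [nrm_coe]
  have h1 : 0 < 4 * bT d m := lt_of_lt_of_le one_pos (bT_pos hm)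
  have h2 : (4 * gT d c κ (2 * Real.exp m)) ^ (L + 2) ≤ (4 * bT d m) ^ (m + 2) := by
    have h3 := gT_le_bT (d := d) hκm hcm
    have h4 := one_le_gT (d := d) (κ := κ) hc hB
    calc (4 * gT d c κ (2 * Real.exp m)) ^ (L + 2) ≤ (4 * bT d m) ^ (L + 2) :=
          pow_le_pow_left₀ (by linarith) (by linarith) _
      _ ≤ (4 * bT d m) ^ (m + 2) := pow_le_pow_right₀ (bT_pos hm) (by omega)
  calc mesh d R α m * (4 * gT d c κ (2 * Real.exp m)) ^ (L + 2) * (1 + ‖u‖) ≤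
      mesh d R α m * (4 * bT d m) ^ (m + 2) * (1 + R) := by gcongr
    _ = (m : ℝ) ^ (-α) := by
      unfold mesh
      have h5 : 0 < (4 * bT d m) ^ (m + 2) := by positivity
      have h6 : (0 : ℝ) < 1 + R := by linarith
      field_simp

lemma gridN_le {R α : ℝ} (hR : 0 ≤ R) (hα : 0 < α) : ∃ C : ℝ, 0 < C ∧ ∀ m : ℕ, 1 ≤ m →
    (gridN d R α m : ℝ) ≤ Real.exp (C * m ^ 2) := by
  set c0 : ℝ := Real.log (24 * 2 ^ d * (d + 1)) with hc0
  have h24 : (1 : ℝ) ≤ 24 * 2 ^ d * (d + 1) := by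
    have e1 : (1 : ℝ) ≤ 2 ^ d := one_le_pow₀ (by norm_num)
    have e2 : (1 : ℝ) ≤ (d : ℝ) + 1 := by
      have : (0 : ℝ) ≤ d := by positivity
      linarith
    nlinarith
  have hc00 : 0 ≤ c0 := Real.log_nonneg h24
  have hR5 : 0 < 5 * (1 + R) := by linarith
  have hlR : 0 ≤ Real.log (5 * (1 + R)) := Real.log_nonneg (by linarith)
  refine ⟨Real.log (5 * (1 + R)) + 1 + α + 3 * (c0 + 3), by positivity, fun m hm => ?_⟩
  have hm1 : (1 : ℝ) ≤ m := by exact_mod_cast hm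
  have hm0 : (0 : ℝ) < m := by linarith
  have hbT := bT_le (d := d) hm
  rw [← hc0] at hbT
  have hb0 : 0 < 4 * bT d m := lt_of_lt_of_le one_pos (bT_pos hm)
  have h1 : (4 * bT d m) ^ (m + 2) ≤ Real.exp (3 * (c0 + 3) * m ^ 2) := by
    calc (4 * bT d m) ^ (m + 2) ≤ (Real.exp ((c0 + 3) * m)) ^ (m + 2) :=
          pow_le_pow_left₀ hb0.le hbT _
      _ = Real.exp ((m + 2 : ℕ) * ((c0 + 3) * m)) := by rw [← Real.exp_nat_mul]
      _ ≤ _ := by
        apply Real.exp_le_exp.2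
        push_cast
        have : (m : ℝ) + 2 ≤ 3 * m := by linarith
        have h5 : 0 ≤ (c0 + 3) * m := by positivity
        nlinarith
  have h2 : (m : ℝ) ^ α ≤ Real.exp (α * m) := by
    rw [Real.rpow_def_of_pos hm0]
    apply Real.exp_le_exp.2
    have : Real.log m ≤ m := (Real.log_le_sub_one_of_pos hm0).trans (by linarith)
    nlinarith
  have h3 : 2 * (2 * Real.exp m) / mesh d R α m =
      4 * (1 + R) * (Real.exp m * (m : ℝ) ^ α * (4 * bT d m) ^ (m + 2)) := by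
    unfold mesh
    rw [Real.rpow_neg hm0.le]
    have h5 : 0 < (4 * bT d m) ^ (m + 2) := by positivity
    have h6 : 0 < (m : ℝ) ^ α := Real.rpow_pos_of_pos hm0 _
    field_simp
    ring
  have h4 : Real.exp m * (m : ℝ) ^ α * (4 * bT d m) ^ (m + 2) ≤
      Real.exp ((1 + α + 3 * (c0 + 3)) * m ^ 2) := by
    calc Real.exp m * (m : ℝ) ^ α * (4 * bT d m) ^ (m + 2) ≤
        Real.exp m * Real.exp (α * m) * Real.exp (3 * (c0 + 3) * m ^ 2) := by gcongr
      _ = Real.exp (m + α * m + 3 * (c0 + 3) * m ^ 2) := by rw [Real.exp_add, Real.exp_add]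
      _ ≤ _ := by
        apply Real.exp_le_exp.2
        have h9 : (m : ℝ) ≤ (m : ℝ) ^ 2 := by nlinarith
        have h10 : α * m ≤ α * (m : ℝ) ^ 2 := mul_le_mul_of_nonneg_left h9 hα.le
        linarith
  have h7 : (1 : ℝ) ≤ Real.exp ((1 + α + 3 * (c0 + 3)) * m ^ 2) := Real.one_le_exp (by positivity)
  have h8 : 0 ≤ 2 * (2 * Real.exp m) / mesh d R α m :=
    div_nonneg (by positivity) (mesh_pos hR hm).le
  calc (gridN d R α m : ℝ) = ⌊2 * (2 * Real.exp m) / mesh d R α m⌋₊ + 1 := by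
        unfold gridN; push_cast; rfl
    _ ≤ 2 * (2 * Real.exp m) / mesh d R α m + 1 := by
        have := Nat.floor_le h8
        linarith
    _ ≤ 4 * (1 + R) * Real.exp ((1 + α + 3 * (c0 + 3)) * m ^ 2) +
        (1 + R) * Real.exp ((1 + α + 3 * (c0 + 3)) * m ^ 2) := by
        rw [h3]
        have e1 : 4 * (1 + R) * (Real.exp m * (m : ℝ) ^ α * (4 * bT d m) ^ (m + 2)) ≤
            4 * (1 + R) * Real.exp ((1 + α + 3 * (c0 + 3)) * m ^ 2) :=
          mul_le_mul_of_nonneg_left h4 (by linarith)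
        have e2 : (1 : ℝ) ≤ (1 + R) * Real.exp ((1 + α + 3 * (c0 + 3)) * m ^ 2) := by nlinarith
        linarith
    _ = Real.exp (Real.log (5 * (1 + R))) * Real.exp ((1 + α + 3 * (c0 + 3)) * m ^ 2) := by
        rw [Real.exp_log hR5]; ring
    _ = Real.exp (Real.log (5 * (1 + R)) + (1 + α + 3 * (c0 + 3)) * m ^ 2) := by
        rw [Real.exp_add]
    _ ≤ _ := by
        apply Real.exp_le_exp.2
        have : (1 : ℝ) ≤ (m : ℝ) ^ 2 := one_le_pow₀ hm1
        nlinarith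

/-- the index type of the covering -/
abbrev Idx (d : ℕ) (m M : ℕ) : Type :=
  Σ a : Fin (m + 1) × Fin (m + 1) × Fin (m + 1), Code d a.1 a.2.1 a.2.2 M

end Pool.Agent.P8H32.FN
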