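import Pool.Agent.P8H32.FN.Cover2

set_option autoImplicit false
set_option synthInstance.maxHeartbeats 400000
set_option synthInstance.maxSize 2048

namespace Pool.Agent.P8H32.FN

open MeasureTheory
open scoped ENNReal

variable {d : ℕ}

/-- the code space, only for admissible architectures -/
def Adm (d m : ℕ) (a : Fin (m + 1) × Fin (m + 1) × Fin (m + 1)) : Prop := (a.1 : ℕ) ^ d ≤ m

lemma card_idx_le {m M : ℕ} (hm : 1 ≤ m) (hM : 1 ≤ M)
    (a : Fin (m + 1) × Fin (m + 1) × Fin (m + 1)) (ha : (a.1 : ℕ) ^ d ≤ m) :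
    Fintype.card (Code d a.1 a.2.1 a.2.2 M) ≤ M ^ ((d + 6 + 2 * 2 ^ d) * m ^ 4) := by
  rw [card_code]
  exact Nat.pow_le_pow_right hM (expo_le hm ha (by omega) (by omega))

/-- **Covering numbers.** -/
theorem cover (hd : 0 < d) {K : Set (L2 d)} {R : ℝ} (hR : 0 ≤ R) (hK : ∀ u ∈ K, ‖u‖ ≤ R)
    {α : ℝ} (hα : 0 < α) : ∃ C : ℝ, 0 < C ∧ ∀ m : ℕ, 1 ≤ m → ∃ F : Finset C(K, L2 d),
      (F.card : ℝ) ≤ Real.exp (C * m ^ 6) ∧
      ∀ f ∈ Ball K α, ∃ g ∈ F, ∀ u : K, ‖f u - g u‖ ≤ 10 * (m : ℝ) ^ (-α) := by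
  classical
  obtain ⟨C3, hC3, hgr⟩ := gridN_le (d := d) hR hα
  set E : ℕ := d + 6 + 2 * 2 ^ d with hE
  refine ⟨3 + C3 * E, by positivity, fun m hm => ?_⟩
  have hm1 : (1 : ℝ) ≤ m := by exact_mod_cast hm
  have hm0 : (0 : ℝ) < m := by linarith
  set M := gridN d R α m with hM
  have hM1 : 1 ≤ M := by rw [hM, gridN]; omega
  -- the relation of nearness
  let Near : (Σ a : {a : Fin (m + 1) × Fin (m + 1) × Fin (m + 1) // (a.1 : ℕ) ^ d ≤ m},
      Code d a.1.1 a.1.2.1 a.1.2.2 M) → C(K, L2 d) → Prop := fun q f =>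
    ∀ u : K, eLpNorm (fun x => f u x -
      out q.1.1.1 q.1.1.2.2 (toParam (2 * Real.exp m) (mesh d R α m) q.2) (u : L2 d) x) 2
        (cube d) ≤ ENNReal.ofReal (5 * (m : ℝ) ^ (-α))
  let rep : (Σ a : {a : Fin (m + 1) × Fin (m + 1) × Fin (m + 1) // (a.1 : ℕ) ^ d ≤ m},
      Code d a.1.1 a.1.2.1 a.1.2.2 M) → C(K, L2 d) := fun q =>
    if h : ∃ f, Near q f then h.choose else 0
  refine ⟨Finset.univ.image rep, ?_, ?_⟩
  · have h1 : (Finset.univ.image rep).card ≤ (m + 1) ^ 3 * M ^ (E * m ^ 4) := by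
      refine Finset.card_image_le.trans ?_
      rw [Finset.card_univ, Fintype.card_sigma]
      refine (Finset.sum_le_card_nsmul _ _ (M ^ (E * m ^ 4)) ?_).trans ?_
      · rintro ⟨a, ha⟩ _
        exact card_idx_le hm hM1 a ha
      · rw [smul_eq_mul]
        apply Nat.mul_le_mul_right
        rw [Finset.card_univ]
        refine (Fintype.card_subtype_le _).trans ?_
        simp only [Fintype.card_prod, Fintype.card_fin]
        apply le_of_eq
        ring
    have h2 : ((m : ℝ) + 1) ^ 3 ≤ Real.exp (3 * m) := by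
      have : (m : ℝ) + 1 ≤ Real.exp m := Real.add_one_le_exp _
      calc ((m : ℝ) + 1) ^ 3 ≤ (Real.exp m) ^ 3 := pow_le_pow_left₀ (by linarith) this 3
        _ = Real.exp (3 * m) := by rw [← Real.exp_nat_mul]; norm_num
    have h3 : (M : ℝ) ^ (E * m ^ 4) ≤ Real.exp (C3 * E * m ^ 6) := by
      calc (M : ℝ) ^ (E * m ^ 4) ≤ (Real.exp (C3 * m ^ 2)) ^ (E * m ^ 4) :=
            pow_le_pow_left₀ (by positivity) (hgr m hm) _
        _ = Real.exp (((E * m ^ 4 : ℕ) : ℝ) * (C3 * m ^ 2)) := by rw [← Real.exp_nat_mul]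
        _ = _ := by
          congr 1
          push_cast
          ring
    calc ((Finset.univ.image rep).card : ℝ) ≤ (((m + 1) ^ 3 * M ^ (E * m ^ 4) : ℕ) : ℝ) := by
          exact_mod_cast h1
      _ = ((m : ℝ) + 1) ^ 3 * (M : ℝ) ^ (E * m ^ 4) := by push_cast; ring
      _ ≤ Real.exp (3 * m) * Real.exp (C3 * E * m ^ 6) := by gcongr
      _ = Real.exp (3 * m + C3 * E * m ^ 6) := by rw [Real.exp_add]
      _ ≤ _ := by
        apply Real.exp_le_exp.2
        have : (m : ℝ) ≤ (m : ℝ) ^ 6 := le_self_pow₀ hm1 (by norm_num)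
        nlinarith
  · intro f hf
    obtain ⟨κ, c, L, θ, hκ, hc, hL, hκm, hcm, hLm, hB, happ⟩ := ball_approx hf hm
    obtain ⟨q, hq⟩ := near_code (α := α) hR hm hc hκm hcm hLm hB
    have hκm' : κ ≤ m := (Nat.le_self_pow hd.ne' κ).trans hκm
    let a : {a : Fin (m + 1) × Fin (m + 1) × Fin (m + 1) // (a.1 : ℕ) ^ d ≤ m} :=
      ⟨(⟨κ, by omega⟩, ⟨c, by omega⟩, ⟨L, by omega⟩), hκm⟩
    let Q : (Σ a : {a : Fin (m + 1) × Fin (m + 1) × Fin (m + 1) // (a.1 : ℕ) ^ d ≤ m},
      Code d a.1.1 a.1.2.1 a.1.2.2 M) := ⟨a, q⟩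
    have hN : Near Q f := by
      intro u
      have h1 := happ u
      have h2 := hq (u : L2 d) (hK _ u.2)
      have e1 : (fun x => f u x - out κ L (toParam (2 * Real.exp m) (mesh d R α m) q)
          (u : L2 d) x) = (fun x => f u x - out κ L θ (u : L2 d) x) +
          (fun x => out κ L θ (u : L2 d) x -
            out κ L (toParam (2 * Real.exp m) (mesh d R α m) q) (u : L2 d) x) := by
        funext x
        simp
      have hout : ∀ {c' : ℕ} (κ' L' : ℕ) (θ' : Param d c'),
          AEStronglyMeasurable (fun x => out κ' L' θ' (u : L2 d) x) (cube d) := by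
        intro c' κ' L' θ'
        unfold out
        refine AEStronglyMeasurable.add ?_ aestronglyMeasurable_const
        refine Finset.aestronglyMeasurable_fun_sum _ fun i _ => ?_
        exact ((memLp_state κ' θ' (Lp.memLp (u : L2 d)) L' i).1).const_mul _
      show eLpNorm (fun x => f u x - out κ L (toParam (2 * Real.exp m) (mesh d R α m) q)
          (u : L2 d) x) 2 (cube d) ≤ _
      rw [e1]
      refine (eLpNorm_add_le ((Lp.aestronglyMeasurable (f u)).sub (hout κ L θ))
        ((hout κ L θ).sub (hout κ L _)) (by norm_num)).trans ?_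
      refine (add_le_add h1 h2).trans ?_
      rw [← ENNReal.ofReal_add (by positivity) (by positivity)]
      apply ENNReal.ofReal_le_ofReal
      linarith
    have hex : ∃ f, Near Q f := ⟨f, hN⟩
    have hrep : Near Q (rep Q) := by
      have : rep Q = hex.choose := dif_pos hex
      rw [this]
      exact hex.choose_spec
    refine ⟨rep Q, Finset.mem_image_of_mem _ (Finset.mem_univ _), fun u => ?_⟩
    have hA := hN u
    have hBq := hrep u
    set Ψ : (Fin d → ℝ) → ℝ := fun x => out κ L (toParam (2 * Real.exp m) (mesh d R α m) q)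
      (u : L2 d) x with hΨ
    have hout : AEStronglyMeasurable Ψ (cube d) := by
      rw [hΨ]
      unfold out
      refine AEStronglyMeasurable.add ?_ aestronglyMeasurable_const
      refine Finset.aestronglyMeasurable_fun_sum _ fun i _ => ?_
      exact ((memLp_state κ _ (Lp.memLp (u : L2 d)) L i).1).const_mul _
    have e2 : eLpNorm (fun x => f u x - rep Q u x) 2 (cube d) ≤
        ENNReal.ofReal (10 * (m : ℝ) ^ (-α)) := by
      have e3 : (fun x => f u x - rep Q u x) = (fun x => f u x - Ψ x) -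
          (fun x => rep Q u x - Ψ x) := by
        funext x
        simp
      rw [e3]
      refine (eLpNorm_sub_le ((Lp.aestronglyMeasurable (f u)).sub hout)
        ((Lp.aestronglyMeasurable (rep Q u)).sub hout) (by norm_num)).trans ?_
      refine (add_le_add hA hBq).trans ?_
      rw [← ENNReal.ofReal_add (by positivity) (by positivity)]
      apply ENNReal.ofReal_le_ofReal
      linarith
    have e4 : ‖f u - rep Q u‖ = (eLpNorm (fun x => f u x - rep Q u x) 2 (cube d)).toReal := by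
      rw [Lp.norm_def]
      congr 1
      apply eLpNorm_congr_ae
      filter_upwards [Lp.coeFn_sub (f u) (rep Q u)] with x hx
      rw [hx]
      rfl
    rw [e4]
    exact ENNReal.toReal_le_of_le_ofReal (by positivity) e2

end Pool.Agent.P8H32.FN
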