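import Mathlib

set_option autoImplicit false

/-!
# Fourier neural operators, approximation classes, sampling widths
-/

namespace Pool.Agent.P8H32.FN

open MeasureTheory
open scoped ENNReal

/-- Lebesgue measure on the open unit cube. -/
noncomputable def cube (d : ℕ) : Measure (Fin d → ℝ) :=
  volume.restrict (Set.univ.pi fun _ => Set.Ioo (0 : ℝ) 1)

/-- The real Hilbert space of square integrable functions on the unit cube. -/
abbrev L2 (d : ℕ) : Type := Lp ℝ 2 (cube d)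

noncomputable instance (d : ℕ) : MeasurableSpace (L2 d) := borel _

instance (d : ℕ) : BorelSpace (L2 d) := ⟨rfl⟩

/-- The character `exp (2 π i k·x)`. -/
noncomputable def chr {d : ℕ} (k : Fin d → ℤ) (x : Fin d → ℝ) : ℂ :=
  Complex.exp (2 * Real.pi * Complex.I * ∑ j, (k j : ℂ) * (x j : ℂ))

/-- The Fourier coefficient of index `k` of a function on the unit cube. -/
noncomputable def fcoeff {d : ℕ} (k : Fin d → ℤ) (g : (Fin d → ℝ) → ℝ) : ℂ :=
  ∫ y, (g y : ℂ) * chr (-k) y ∂(cube d)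

/-- The frequencies `k` all of whose coordinates are less than `κ` in absolute value. -/
noncomputable def box (d κ : ℕ) : Finset (Fin d → ℤ) :=
  Fintype.piFinset fun _ => Finset.Ioo (-(κ : ℤ)) (κ : ℤ)

/-- The component `i` of the value at `x` of the function with the Fourier series `P(k) v^(k)`,
where `P(k) = 0` for `k` outside of `box d κ`. -/
noncomputable def mult {d c : ℕ} (κ : ℕ) (P : (Fin d → ℤ) → Fin c → Fin c → ℂ)
    (v : (Fin d → ℝ) → Fin c → ℝ) (x : Fin d → ℝ) (i : Fin c) : ℂ :=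
  ∑ k ∈ box d κ, (∑ j, P k i j * fcoeff k (fun y => v y j)) * chr k x

/-- The parameters of a network with `c` channels: the affine maps `R` and `Q`, and for the layer
number `l + 1` the matrix `W l`, the vector `b l` and the matrices `P l k`. -/
structure Param (d c : ℕ) where
  RU : Fin c → ℝ
  RX : Fin c → Fin d → ℝ
  R0 : Fin c → ℝ
  QV : Fin c → ℝ
  Q0 : ℝ
  W : ℕ → Fin c → Fin c → ℝ
  b : ℕ → Fin c → ℝ
  P : ℕ → (Fin d → ℤ) → Fin c → Fin c → ℂ

/-- The functions `v_0, v_1, …` for the input `u`; the Fourier cutoff is `κ`. -/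
noncomputable def state {d c : ℕ} (κ : ℕ) (θ : Param d c) (u : (Fin d → ℝ) → ℝ) :
    ℕ → (Fin d → ℝ) → Fin c → ℝ
  | 0 => fun x i => θ.RU i * u x + ∑ j, θ.RX i j * x j + θ.R0 i
  | l + 1 => fun x i => max 0 (∑ j, θ.W l i j * state κ θ u l x j + θ.b l i +
      (mult κ (θ.P l) (state κ θ u l) x i).re)

/-- The output `Q (v_L (x))`. -/
noncomputable def out {d c : ℕ} (κ L : ℕ) (θ : Param d c) (u : (Fin d → ℝ) → ℝ)
    (x : Fin d → ℝ) : ℝ :=
  ∑ i, θ.QV i * state κ θ u L x i + θ.Q0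

/-- All the coordinates of the parameters of a network with cutoff `κ` and depth `L` are at most `B`
in absolute value. -/
structure Bounded {d c : ℕ} (κ L : ℕ) (B : ℝ) (θ : Param d c) : Prop where
  RU : ∀ i, |θ.RU i| ≤ B
  RX : ∀ i j, |θ.RX i j| ≤ B
  R0 : ∀ i, |θ.R0 i| ≤ B
  QV : ∀ i, |θ.QV i| ≤ B
  Q0 : |θ.Q0| ≤ B
  W : ∀ l < L, ∀ i j, |θ.W l i j| ≤ B
  b : ∀ l < L, ∀ i, |θ.b l i| ≤ B
  Pre : ∀ l < L, ∀ k ∈ box d κ, ∀ i j, |(θ.P l k i j).re| ≤ B
  Pim : ∀ l < L, ∀ k ∈ box d κ, ∀ i j, |(θ.P l k i j).im| ≤ B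

/-- `P (-k)` is the complex conjugate of `P k`. -/
def Hermitian {d c : ℕ} (L : ℕ) (θ : Param d c) : Prop :=
  ∀ l < L, ∀ k i j, θ.P l (-k) i j = (starRingEnd ℂ) (θ.P l k i j)

/-- The Fourier neural operators of size `m`: cutoff `κ`, `κ ^ d ≤ m`, at most `m` channels, depth at
most `m`, and all coordinates of the parameters at most `exp m` in absolute value. -/
def Nets (d m : ℕ) : Set (L2 d → (Fin d → ℝ) → ℝ) :=
  {Ψ | ∃ (κ c L : ℕ) (θ : Param d c), 0 < κ ∧ 0 < c ∧ 0 < L ∧ κ ^ d ≤ m ∧ c ≤ m ∧ L ≤ m ∧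
    Bounded κ L (Real.exp m) θ ∧ Hermitian L θ ∧ Ψ = fun u : L2 d => out κ L θ ⇑u}

section classes

variable {d : ℕ} {K : Set (L2 d)}

/-- The distance of `f` to the networks of size `m` in `C(K, L2)`. -/
noncomputable def err (f : C(K, L2 d)) (m : ℕ) : ℝ≥0∞ :=
  ⨅ Ψ ∈ Nets d m, ⨆ u : K, eLpNorm (fun x => f u x - Ψ u x) 2 (cube d)

/-- The functional `Γ^α`. -/
noncomputable def Gam (α : ℝ) (f : C(K, L2 d)) : ℝ≥0∞ :=
  max (⨆ u : K, ‖f u‖ₑ) (⨆ m : ℕ, ⨆ _ : 1 ≤ m, (m : ℝ≥0∞) ^ α * err f m)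

/-- The function `u ↦ t f(u)`. -/
noncomputable abbrev scale (t : ℝ) (f : C(K, L2 d)) : C(K, L2 d) := t • f

/-- The unit ball `K^α(K)`. -/
noncomputable def Ball (K : Set (L2 d)) (α : ℝ) : Set C(K, L2 d) :=
  {G | ⨅ (t : ℝ) (_ : 0 < t ∧ Gam α (scale t⁻¹ G) ≤ 1), ENNReal.ofReal t ≤ 1}

open scoped Classical in
/-- `f` as a function on the whole space, equal to zero outside of `K`. -/
noncomputable def ext (f : C(K, L2 d)) (u : L2 d) : L2 d :=
  if h : u ∈ K then f ⟨u, h⟩ else 0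

/-- The space `X = L²_ρ`. -/
abbrev LX (ρ : Measure (L2 d)) : Type := Lp (L2 d) 2 ρ

/-- An element of `X` as a function. -/
noncomputable abbrev fnX (ρ : Measure (L2 d)) (g : LX ρ) : L2 d → L2 d := ⇑g

/-- The distance of two functions in `X`. -/
noncomputable abbrev distX (ρ : Measure (L2 d)) (f g : L2 d → L2 d) : ℝ≥0∞ :=
  eLpNorm (fun u => f u - g u) 2 ρ

/-- The sampling width `s_n(F)` in `X`. -/
noncomputable def width (ρ : Measure (L2 d)) (F : Set C(K, L2 d)) (n : ℕ) : ℝ≥0∞ :=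
  ⨅ (p : Fin n → K) (D : (Fin n → L2 d) → LX ρ),
    ⨆ f ∈ F, distX ρ (ext f) (fnX ρ (D fun i => f (p i)))

/-- The optimal rate: the supremum of the `β ≥ 0` such that `n ^ β s_n(F)` is bounded. -/
noncomputable def rate (ρ : Measure (L2 d)) (F : Set C(K, L2 d)) : EReal :=
  ⨆ β ∈ {β : ℝ | 0 ≤ β ∧ ∃ C : ℝ, ∀ n : ℕ, (n : ℝ≥0∞) ^ β * width ρ F n ≤ ENNReal.ofReal C},
    (β : EReal)

end classes

/-- The value `⟨C v, v⟩` for the covariance operator `C` of `ρ`. -/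
noncomputable abbrev covForm {d : ℕ} (ρ : Measure (L2 d)) (v : L2 d) : ℝ :=
  ∫ u, (inner ℝ (u - ∫ w, w ∂ρ) v) ^ 2 ∂ρ

/-- The assumptions on `K` and `ρ`. -/
structure Setting {d : ℕ} (K : Set (L2 d)) (ρ : Measure (L2 d)) : Prop where
  compact : IsCompact K
  convex : Convex ℝ K
  infinite : ∀ S : Submodule ℝ (L2 d), FiniteDimensional ℝ S → ¬ K ⊆ S
  prob : IsProbabilityMeasure ρ
  supp : ρ Kᶜ = 0
  cov : ∀ v : L2 d, v ≠ 0 → 0 < covForm ρ v

/-- On some interval `[a, b]` the law of the mean value of `u` has a density bounded from below: the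
probability that the mean value lies in a subinterval is at least a constant times its length. -/
def MeanDensity {d : ℕ} (ρ : Measure (L2 d)) : Prop :=
  ∃ a b c : ℝ, a < b ∧ 0 < c ∧ ∀ s t : ℝ, a ≤ s → s ≤ t → t ≤ b →
    ENNReal.ofReal (c * (t - s)) ≤ ρ {u | s ≤ ∫ x, u x ∂(cube d) ∧ ∫ x, u x ∂(cube d) ≤ t}

end Pool.Agent.P8H32.FN
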