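import Pool.Agent.P8H32.FN.Low

set_option autoImplicit false

/-!
# An example of a compact convex set and a measure
-/

namespace Pool.Agent.P8H32.FN

open MeasureTheory
open scoped ENNReal

lemma coeff_zero {b : ℕ → ℝ} (hb : Summable fun k => |b k|)
    (h : ∀ t ∈ Set.Ioc (0 : ℝ) 1, ∑' k, b k * t ^ k = 0) (k : ℕ) : b k = 0 := by
  induction k using Nat.strong_induction_on with
  | _ k ih =>
    set S : ℝ := ∑' i, |b (i + (k + 1))| with hS
    have hs : Summable fun i => |b (i + (k + 1))| := (summable_nat_add_iff (k + 1)).2 hb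
    have key : ∀ t ∈ Set.Ioc (0 : ℝ) 1, |b k| ≤ t * S := by
      intro t ht
      have ht0 : 0 < t := ht.1
      have h1 : Summable fun i => b i * t ^ i := by
        refine Summable.of_norm_bounded (g := fun k => |b k|) hb fun i => ?_
        rw [norm_mul, Real.norm_eq_abs, Real.norm_eq_abs, abs_of_nonneg (pow_nonneg ht0.le _)]
        exact mul_le_of_le_one_right (abs_nonneg _) (pow_le_one₀ ht0.le ht.2)
      have h2 := h1.sum_add_tsum_nat_add (k + 1)
      rw [h t ht, Finset.sum_range_succ, Finset.sum_eq_zero, zero_add] at h2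
      · have h3 : |b k| * t ^ k = |∑' i, b (i + (k + 1)) * t ^ (i + (k + 1))| := by
          rw [show ∑' i, b (i + (k + 1)) * t ^ (i + (k + 1)) = -(b k * t ^ k) by linarith,
            abs_neg, abs_mul, abs_of_nonneg (pow_nonneg ht0.le k)]
        have h4 : |∑' i, b (i + (k + 1)) * t ^ (i + (k + 1))| ≤ S * t ^ (k + 1) := by
          rw [hS, ← tsum_mul_right, ← Real.norm_eq_abs]
          have h5 : Summable fun i => |b (i + (k + 1))| * t ^ (k + 1) := hs.mul_right _
          refine tsum_of_norm_bounded h5.hasSum fun i => ?_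
          rw [norm_mul, Real.norm_eq_abs, Real.norm_eq_abs, abs_of_nonneg (pow_nonneg ht0.le _)]
          exact mul_le_mul_of_nonneg_left (pow_le_pow_of_le_one ht0.le ht.2 (Nat.le_add_left _ _))
            (abs_nonneg _)
        rw [← h3, pow_succ] at h4
        have h6 : 0 < t ^ k := by positivity
        have h7 : |b k| * t ^ k ≤ (t * S) * t ^ k := by linarith
        exact le_of_mul_le_mul_right h7 h6
      · intro i hi
        rw [ih i (Finset.mem_range.1 hi), zero_mul]
    have hS0 : 0 ≤ S := tsum_nonneg fun i => abs_nonneg _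
    by_contra hne
    have hpos : 0 < |b k| := abs_pos.2 hne
    have h1 := key (min 1 (|b k| / (2 * (S + 1)))) ⟨by positivity, min_le_left _ _⟩
    have h2 : min 1 (|b k| / (2 * (S + 1))) * S ≤ |b k| / (2 * (S + 1)) * (S + 1) := by
      gcongr
      · exact min_le_right _ _
      · linarith
    have h3 : |b k| / (2 * (S + 1)) * (S + 1) = |b k| / 2 := by
      field_simp
    linarith

section

variable (d : ℕ)

/-- the constant function one -/
noncomputable def oneL : L2 d := Lp.constL 2 (cube d) ℝ 1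

variable {d} in
lemma inner_one (u : L2 d) : inner ℝ (oneL d) u = mean (u : (Fin d → ℝ) → ℝ) := by
  rw [L2.inner_def]
  unfold mean
  apply integral_congr_ae
  filter_upwards [constL_coe (d := d) 1] with x hx
  unfold oneL
  rw [hx]
  simp

lemma mean_one : mean (oneL d : (Fin d → ℝ) → ℝ) = 1 := by
  unfold mean
  have : (fun x => (oneL d : (Fin d → ℝ) → ℝ) x) =ᵐ[cube d] fun _ => (1 : ℝ) := constL_coe 1
  rw [integral_congr_ae this]
  simp

instance : Fact ((2 : ℝ≥0∞) ≠ ∞) := ⟨by norm_num⟩

instance sep_L2 : TopologicalSpace.SeparableSpace (L2 d) := by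
  have : SecondCountableTopology (L2 d) := inferInstance
  infer_instance

/-- the dense sequence without its mean -/
noncomputable def hseq (k : ℕ) : L2 d :=
  TopologicalSpace.denseSeq (L2 d) k -
    mean ((TopologicalSpace.denseSeq (L2 d) k : L2 d) : (Fin d → ℝ) → ℝ) • oneL d

/-- the directions -/
noncomputable def gseq : ℕ → L2 d
  | 0 => oneL d
  | k + 1 => ((1 / 2 : ℝ) ^ k / (1 + ‖hseq d k‖)) • hseq d k

lemma norm_gseq (k : ℕ) : ‖gseq d k‖ ≤ 2 * (1 / 2 : ℝ) ^ k := by
  cases k with
  | zero =>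
    show ‖(Lp.constL 2 (cube d) ℝ 1 : L2 d)‖ ≤ _
    rw [norm_constL]
    norm_num
  | succ k =>
    show ‖((1 / 2 : ℝ) ^ k / (1 + ‖hseq d k‖)) • hseq d k‖ ≤ _
    have h0 : 0 ≤ ‖hseq d k‖ := norm_nonneg _
    rw [norm_smul, Real.norm_eq_abs, abs_of_nonneg (by positivity), div_mul_eq_mul_div,
      div_le_iff₀ (by positivity)]
    have h1 : (0 : ℝ) < (1 / 2 : ℝ) ^ k := by positivity
    rw [pow_succ]
    nlinarith

lemma summable_norm_gseq : Summable fun k => 2 * (1 / 2 : ℝ) ^ k :=
  (summable_geometric_of_lt_one (by norm_num) (by norm_num)).mul_left 2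

/-- the infinite dimensional cube -/
def icube : Set (ℕ → ℝ) := Set.univ.pi fun _ => Set.Icc (0 : ℝ) 1

/-- the sum -/
noncomputable def gsum (x : ℕ → ℝ) : L2 d := ∑' k, x k • gseq d k

lemma bound_gseq {x : ℕ → ℝ} (hx : x ∈ icube) (k : ℕ) :
    ‖x k • gseq d k‖ ≤ 2 * (1 / 2 : ℝ) ^ k := by
  have h1 := hx k (Set.mem_univ k)
  rw [norm_smul, Real.norm_eq_abs, abs_of_nonneg h1.1]
  calc x k * ‖gseq d k‖ ≤ 1 * (2 * (1 / 2 : ℝ) ^ k) :=
        mul_le_mul h1.2 (norm_gseq d k) (norm_nonneg _) zero_le_one
    _ = _ := one_mul _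

lemma summable_gseq {x : ℕ → ℝ} (hx : x ∈ icube) : Summable fun k => x k • gseq d k :=
  Summable.of_norm_bounded (summable_norm_gseq) (bound_gseq d hx)

lemma continuousOn_gsum : ContinuousOn (gsum d) icube := by
  refine continuousOn_tsum (fun k => ?_) (summable_norm_gseq) fun k x hx => bound_gseq d hx k
  exact ((continuous_apply k).smul continuous_const).continuousOn

/-- the set -/
noncomputable def exK : Set (L2 d) := gsum d '' icube

lemma compact_exK : IsCompact (exK d) :=
  (isCompact_univ_pi fun _ => isCompact_Icc).image_of_continuousOn (continuousOn_gsum d)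

lemma convex_exK : Convex ℝ (exK d) := by
  rintro _ ⟨x, hx, rfl⟩ _ ⟨y, hy, rfl⟩ a b ha hb hab
  refine ⟨fun k => a * x k + b * y k, ?_, ?_⟩
  · intro k _
    have h1 := hx k (Set.mem_univ k)
    have h2 := hy k (Set.mem_univ k)
    exact (convex_Icc (0 : ℝ) 1) h1 h2 ha hb hab
  · unfold gsum
    rw [← ((summable_gseq d hx).tsum_const_smul a), ← ((summable_gseq d hy).tsum_const_smul b),
      ← ((summable_gseq d hx).const_smul a).tsum_add ((summable_gseq d hy).const_smul b)]
    refine tsum_congr fun k => ?_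
    rw [add_smul, mul_smul, mul_smul]

lemma gseq_mem_exK (k : ℕ) : gseq d k ∈ exK d := by
  classical
  refine ⟨fun i => if i = k then 1 else 0, ?_, ?_⟩
  · intro i _
    by_cases h : i = k <;> simp [h]
  · unfold gsum
    rw [tsum_eq_single k]
    · simp
    · intro i hi
      simp [hi]

/-- The slabs. -/
def slab (k : ℕ) [NeZero d] : Set (Fin d → ℝ) :=
  {x | 1 / ((k : ℝ) + 2) < x 0 ∧ x 0 < 1 / ((k : ℝ) + 1)}

lemma slab_open [NeZero d] (k : ℕ) : IsOpen (slab d k) :=
  (isOpen_lt continuous_const (continuous_apply 0)).inter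
    (isOpen_lt (continuous_apply 0) continuous_const)

lemma slab_disj [NeZero d] {j k : ℕ} (h : j < k) : slab d j ∩ slab d k = ∅ := by
  ext x
  simp only [slab, Set.mem_inter_iff, Set.mem_ofPred_eq, Set.mem_empty_iff_false, iff_false]
  rintro ⟨⟨h1, _⟩, _, h4⟩
  have h5 : (j : ℝ) + 1 ≤ k := by exact_mod_cast h
  have h6 : 1 / ((k : ℝ) + 1) ≤ 1 / ((j : ℝ) + 2) := by
    apply div_le_div_of_nonneg_left (by norm_num) (by positivity)
    linarith
  linarith

lemma slab_pos [NeZero d] (k : ℕ) : 0 < (cube d).real (slab d k) := by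
  have h1 : 0 < (cube d) (slab d k) := by
    unfold cube
    rw [Measure.restrict_apply (slab_open d k).measurableSet]
    refine ((slab_open d k).inter (isOpen_set_pi Set.finite_univ fun _ _ => isOpen_Ioo)).measure_pos
      volume ?_
    have e1 : 0 < 1 / ((k : ℝ) + 2) := by positivity
    have e2 : 1 / ((k : ℝ) + 2) < 1 / ((k : ℝ) + 1) := by
      apply div_lt_div_of_pos_left (by norm_num) (by positivity)
      linarith
    have e3 : 1 / ((k : ℝ) + 1) ≤ 1 := by
      rw [div_le_one (by positivity)]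
      have : (0 : ℝ) ≤ k := by positivity
      linarith
    refine ⟨fun _ => (1 / ((k : ℝ) + 2) + 1 / ((k : ℝ) + 1)) / 2, ⟨by linarith, by linarith⟩, ?_⟩
    intro i _
    constructor
    · linarith
    · linarith
  exact ENNReal.toReal_pos h1.ne' (measure_ne_top _ _)

lemma not_fd [NeZero d] : ¬ FiniteDimensional ℝ (L2 d) := by
  intro hfd
  let v : ℕ → L2 d := fun k => indicatorConstLp 2 (slab_open d k).measurableSet
    (measure_ne_top (cube d) _) (1 : ℝ)
  have hin : ∀ j k, inner ℝ (v j) (v k) = (cube d).real (slab d j ∩ slab d k) := by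
    intro j k
    exact L2.real_inner_indicatorConstLp_one_indicatorConstLp_one _ _
  have hli : LinearIndependent ℝ v := by
    apply linearIndependent_of_ne_zero_of_inner_eq_zero (𝕜 := ℝ)
    · intro k hk
      have h1 := hin k k
      rw [hk, inner_zero_left, Set.inter_self] at h1
      exact (slab_pos d k).ne h1
    · intro j k hjk
      show inner ℝ (v j) (v k) = 0
      rw [hin]
      rcases lt_or_gt_of_ne hjk with h | h
      · rw [slab_disj d h, measureReal_empty]
      · rw [Set.inter_comm, slab_disj d h, measureReal_empty]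
  have := hli.finite
  exact _root_.not_finite ℕ

end

end Pool.Agent.P8H32.FN
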