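import Pool.Agent.P8H32.FN.Ex

set_option autoImplicit false

/-!
# An example of a compact convex set and a measure
-/

namespace Pool.Agent.P8H32.FN

open MeasureTheory
open scoped ENNReal

variable (d : ℕ)

lemma mean_linear (u v : L2 d) (a b : ℝ) :
    mean ((a • u + b • v : L2 d) : (Fin d → ℝ) → ℝ) =
      a * mean (u : (Fin d → ℝ) → ℝ) + b * mean (v : (Fin d → ℝ) → ℝ) := by
  rw [← inner_one, ← inner_one, ← inner_one, inner_add_right, inner_smul_right, inner_smul_right]

lemma mean_hseq (k : ℕ) : mean (hseq d k : (Fin d → ℝ) → ℝ) = 0 := by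
  unfold hseq
  rw [← inner_one, inner_sub_right, inner_smul_right, inner_one, inner_one, mean_one, mul_one,
    sub_self]

lemma eq_zero_of_gseq {v : L2 d} (h : ∀ k, inner ℝ (gseq d k) v = 0) : v = 0 := by
  have h0 : inner ℝ (oneL d) v = 0 := h 0
  have h1 : ∀ k, inner ℝ (hseq d k) v = 0 := by
    intro k
    have h2 : inner ℝ (((1 / 2 : ℝ) ^ k / (1 + ‖hseq d k‖)) • hseq d k) v = 0 := h (k + 1)
    rw [real_inner_smul_left] at h2
    have h3 : (1 / 2 : ℝ) ^ k / (1 + ‖hseq d k‖) ≠ 0 := by
      have : 0 ≤ ‖hseq d k‖ := norm_nonneg _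
      positivity
    exact (mul_eq_zero.1 h2).resolve_left h3
  have h2 : ∀ k, inner ℝ (TopologicalSpace.denseSeq (L2 d) k) v = 0 := by
    intro k
    have h3 := h1 k
    unfold hseq at h3
    rwa [inner_sub_left, real_inner_smul_left, h0, mul_zero, sub_zero] at h3
  have h3 : ∀ w : L2 d, inner ℝ w v = 0 := by
    intro w
    have hcl : IsClosed {w : L2 d | inner ℝ w v = 0} :=
      isClosed_eq (continuous_id.inner continuous_const) continuous_const
    have hd := TopologicalSpace.denseRange_denseSeq (L2 d)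
    have : Set.univ ⊆ {w : L2 d | inner ℝ w v = 0} := by
      rw [← hd.closure_range]
      apply closure_minimal _ hcl
      rintro _ ⟨k, rfl⟩
      exact h2 k
    exact this (Set.mem_univ w)
  exact inner_self_eq_zero.1 (h3 v)

lemma infinite_exK [NeZero d] (S : Submodule ℝ (L2 d)) (hS : FiniteDimensional ℝ S) :
    ¬ exK d ⊆ S := by
  intro hsub
  have h1 : Sᗮ = ⊥ := by
    rw [Submodule.eq_bot_iff]
    intro v hv
    apply eq_zero_of_gseq
    intro k
    exact hv _ (hsub (gseq_mem_exK d k))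
  have h2 : S = ⊤ := by
    rwa [Submodule.orthogonal_eq_bot_iff] at h1
  apply not_fd d
  subst h2
  exact Module.Finite.equiv (Submodule.topEquiv (R := ℝ) (M := L2 d))

/-- the clamp -/
noncomputable def clamp (t : ℝ) : ℝ := max 0 (min t 1)

lemma clamp_mem (t : ℝ) : clamp t ∈ Set.Icc (0 : ℝ) 1 :=
  ⟨le_max_left _ _, max_le zero_le_one (min_le_right _ _)⟩

lemma clamp_eq {t : ℝ} (h : t ∈ Set.Icc (0 : ℝ) 1) : clamp t = t := by
  unfold clamp
  rw [min_eq_left h.2, max_eq_right h.1]

lemma continuous_clamp : Continuous clamp := by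
  unfold clamp
  fun_prop

lemma pow_mem_icube (t : ℝ) : (fun k => clamp t ^ (k + 1)) ∈ icube := by
  intro k _
  exact ⟨pow_nonneg (clamp_mem t).1 _, pow_le_one₀ (clamp_mem t).1 (clamp_mem t).2⟩

/-- the curve -/
noncomputable def curve (t : ℝ) : L2 d := gsum d fun k => clamp t ^ (k + 1)

lemma continuous_curve : Continuous (curve d) := by
  have h1 : Continuous fun t : ℝ => (fun k : ℕ => clamp t ^ (k + 1) : ℕ → ℝ) :=
    continuous_pi fun k => continuous_clamp.pow _
  exact (continuousOn_gsum d).comp_continuous h1 pow_mem_icube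

lemma curve_mem (t : ℝ) : curve d t ∈ exK d := ⟨_, pow_mem_icube t, rfl⟩

lemma inner_curve (t : ℝ) (v : L2 d) :
    inner ℝ (curve d t) v = ∑' k, clamp t ^ (k + 1) * inner ℝ (gseq d k) v := by
  have h1 := (summable_gseq d (pow_mem_icube t)).hasSum.mapL (innerSL ℝ v)
  have h2 : inner ℝ (curve d t) v = innerSL ℝ v (curve d t) := by
    rw [innerSL_apply_apply, real_inner_comm]
  rw [h2]
  have h3 := h1.tsum_eq
  rw [show curve d t = ∑' k, clamp t ^ (k + 1) • gseq d k from rfl, ← h3]
  refine tsum_congr fun k => ?_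
  rw [innerSL_apply_apply, real_inner_comm, real_inner_smul_left]

lemma mean_curve (t : ℝ) : mean (curve d t : (Fin d → ℝ) → ℝ) = clamp t := by
  rw [← inner_one, real_inner_comm, inner_curve, tsum_eq_single 0]
  · rw [real_inner_comm]
    show clamp t ^ (0 + 1) * inner ℝ (oneL d) (oneL d) = clamp t
    rw [inner_one, mean_one]
    ring
  · intro k hk
    obtain ⟨j, rfl⟩ := Nat.exists_eq_succ_of_ne_zero hk
    show clamp t ^ (j + 1 + 1) * inner ℝ (((1 / 2 : ℝ) ^ j / (1 + ‖hseq d j‖)) • hseq d j) (oneL d)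
      = 0
    rw [real_inner_smul_left, real_inner_comm, inner_one, mean_hseq, mul_zero, mul_zero]

/-- the measure -/
noncomputable def exρ : Measure (L2 d) :=
  Measure.map (curve d) (volume.restrict (Set.Icc (0 : ℝ) 1))

instance unit_prob : IsProbabilityMeasure (volume.restrict (Set.Icc (0 : ℝ) 1)) := by
  constructor
  rw [Measure.restrict_apply_univ, Real.volume_Icc]
  norm_num

instance prob_exρ : IsProbabilityMeasure (exρ d) :=
  Measure.isProbabilityMeasure_map (continuous_curve d).measurable.aemeasurable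

lemma supp_exρ : exρ d (exK d)ᶜ = 0 := by
  unfold exρ
  rw [Measure.map_apply (continuous_curve d).measurable
    (compact_exK d).isClosed.measurableSet.compl]
  have : curve d ⁻¹' (exK d)ᶜ = ∅ := by
    ext t
    simp [curve_mem]
  rw [this, measure_empty]

lemma cov_exρ (v : L2 d) (hv : v ≠ 0) :
    0 < ∫ u, (inner ℝ (u - ∫ w, w ∂(exρ d)) v) ^ 2 ∂(exρ d) := by
  set m : L2 d := ∫ w, w ∂(exρ d) with hm
  have hc : Continuous fun u : L2 d => (inner ℝ (u - m) v) ^ 2 :=
    ((continuous_id.sub continuous_const).inner continuous_const).pow 2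
  have h1 : ∫ u, (inner ℝ (u - m) v) ^ 2 ∂(exρ d) =
      ∫ t in (0 : ℝ)..1, (inner ℝ (curve d t - m) v) ^ 2 := by
    unfold exρ
    rw [integral_map (continuous_curve d).measurable.aemeasurable hc.aestronglyMeasurable,
      intervalIntegral.integral_of_le zero_le_one, integral_Icc_eq_integral_Ioc]
  rw [h1]
  have hcc : Continuous fun t : ℝ => (inner ℝ (curve d t - m) v) ^ 2 :=
    hc.comp (continuous_curve d)
  refine intervalIntegral.integral_pos zero_lt_one hcc.continuousOn (fun t _ => sq_nonneg _) ?_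
  by_contra hno
  push Not at hno
  apply hv
  have h2 : ∀ t ∈ Set.Icc (0 : ℝ) 1, inner ℝ (curve d t) v = inner ℝ m v := by
    intro t ht
    have h3 : (inner ℝ (curve d t - m) v) ^ 2 = 0 := le_antisymm (hno t ht) (sq_nonneg _)
    have h4 : inner ℝ (curve d t - m) v = 0 := pow_eq_zero_iff (two_ne_zero) |>.1 h3
    rw [inner_sub_left] at h4
    linarith
  have h3 : inner ℝ m v = 0 := by
    rw [← h2 0 ⟨le_rfl, zero_le_one⟩, inner_curve, clamp_eq ⟨le_rfl, zero_le_one⟩]
    simp
  have hsum : Summable fun k => |inner ℝ (gseq d k) v| := by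
    refine Summable.of_nonneg_of_le (fun _ => abs_nonneg _) (fun k => ?_)
      (summable_norm_gseq.mul_right ‖v‖)
    refine (abs_real_inner_le_norm _ _).trans ?_
    gcongr
    exact norm_gseq d k
  apply eq_zero_of_gseq
  apply coeff_zero hsum
  intro t ht
  have h4 := h2 t ⟨ht.1.le, ht.2⟩
  rw [h3, inner_curve, clamp_eq ⟨ht.1.le, ht.2⟩] at h4
  have h5 : ∑' k, t ^ (k + 1) * inner ℝ (gseq d k) v =
      t * ∑' k, inner ℝ (gseq d k) v * t ^ k := by
    rw [← tsum_mul_left]
    refine tsum_congr fun k => ?_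
    ring
  rw [h5] at h4
  exact (mul_eq_zero.1 h4).resolve_left ht.1.ne'

lemma setting_ex [NeZero d] : Setting (exK d) (exρ d) where
  compact := compact_exK d
  convex := convex_exK d
  infinite := infinite_exK d
  prob := prob_exρ d
  supp := supp_exρ d
  cov := cov_exρ d

lemma density_ex : MeanDensity (exρ d) := by
  refine ⟨0, 1, 1, one_pos, one_pos, fun s t hs hst ht => ?_⟩
  have h1 : MeasurableSet {u : L2 d | s ≤ ∫ x, u x ∂(cube d) ∧ ∫ x, u x ∂(cube d) ≤ t} :=
    measurable_mean_set s t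
  unfold exρ
  rw [Measure.map_apply (continuous_curve d).measurable h1]
  have h2 : Set.Icc s t ⊆
      curve d ⁻¹' {u : L2 d | s ≤ ∫ x, u x ∂(cube d) ∧ ∫ x, u x ∂(cube d) ≤ t} := by
    intro τ hτ
    have h3 : mean (curve d τ : (Fin d → ℝ) → ℝ) = τ := by
      rw [mean_curve, clamp_eq ⟨hs.trans hτ.1, hτ.2.trans ht⟩]
    have h4 : s ≤ mean (curve d τ : (Fin d → ℝ) → ℝ) ∧ mean (curve d τ : (Fin d → ℝ) → ℝ) ≤ t := by
      rw [h3]
      exact hτ
    exact h4
  refine le_trans ?_ (measure_mono h2)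
  rw [Measure.restrict_apply measurableSet_Icc, Set.inter_eq_left.2 (Set.Icc_subset_Icc hs ht),
    Real.volume_Icc, one_mul]

end Pool.Agent.P8H32.FN
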