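import Mathlib

set_option autoImplicit false

namespace Pool.Agent.P8H32.FN

/-- the hat function on `[0, 1]` -/
noncomputable def tent (y : ℝ) : ℝ := 2 * (max 0 y - 2 * max 0 (y - 1 / 2) + max 0 (y - 1))

/-- a trapezoidal function on `[0, 1/2]` -/
noncomputable def gate (y : ℝ) : ℝ :=
  8 * (max 0 y - max 0 (y - 1 / 8) - max 0 (y - 3 / 8) + max 0 (y - 1 / 2))

lemma tent_nonneg (y : ℝ) : 0 ≤ tent y := by
  simp only [tent, max_def]; split_ifs <;> linarith

lemma tent_le_one (y : ℝ) : tent y ≤ 1 := by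
  simp only [tent, max_def]; split_ifs <;> linarith

lemma tent_low {y : ℝ} (h : y ≤ 0) : tent y = 0 := by
  simp only [tent, max_def]; split_ifs <;> linarith

lemma tent_high {y : ℝ} (h : 1 ≤ y) : tent y = 0 := by
  simp only [tent, max_def]; split_ifs <;> linarith

lemma tent_rise {y : ℝ} (h0 : 0 ≤ y) (h1 : y ≤ 1 / 2) : tent y = 2 * y := by
  simp only [tent, max_def]; split_ifs <;> linarith

lemma tent_mid {y : ℝ} (h0 : 1 / 4 ≤ y) (h1 : y ≤ 3 / 4) : 1 / 2 ≤ tent y := by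
  simp only [tent, max_def]; split_ifs <;> linarith

lemma tent_ne {y : ℝ} (h : tent y ≠ 0) : 0 < y ∧ y < 1 := by
  constructor
  · by_contra h0; exact h (tent_low (not_lt.1 h0))
  · by_contra h0; exact h (tent_high (not_lt.1 h0))

lemma gate_nonneg (y : ℝ) : 0 ≤ gate y := by
  simp only [gate, max_def]; split_ifs <;> linarith

lemma gate_le_one (y : ℝ) : gate y ≤ 1 := by
  simp only [gate, max_def]; split_ifs <;> linarith

lemma gate_ne {y : ℝ} (h : gate y ≠ 0) : 0 < y ∧ y < 1 / 2 := by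
  constructor
  · by_contra h0
    apply h
    have h0 := not_lt.1 h0
    simp only [gate, max_def]; split_ifs <;> linarith
  · by_contra h0
    apply h
    have h0 := not_lt.1 h0
    simp only [gate, max_def]; split_ifs <;> linarith

lemma gate_mid {y : ℝ} (h0 : 1 / 8 ≤ y) (h1 : y ≤ 3 / 8) : gate y = 1 := by
  simp only [gate, max_def]; split_ifs <;> linarith

lemma sum_le_one_of_unique {ι : Type} [Fintype ι] {f : ι → ℝ} (h1 : ∀ i, f i ≤ 1)
    (hu : ∀ i j, f i ≠ 0 → f j ≠ 0 → i = j) : ∑ i, f i ≤ 1 := by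
  classical
  by_cases h : ∃ i, f i ≠ 0
  · obtain ⟨i, hi⟩ := h
    rw [Finset.sum_eq_single i]
    · exact h1 i
    · intro j _ hj
      by_contra hfj
      exact hj (hu j i hfj hi)
    · simp
  · push Not at h
    rw [Finset.sum_eq_zero fun i _ => h i]
    exact zero_le_one

/-- natural numbers with `0 < z - i < 1` are unique -/
lemma nat_unique {z : ℝ} {i j : ℕ} (hi : 0 < z - i ∧ z - i < 1) (hj : 0 < z - j ∧ z - j < 1) :
    i = j := by
  have h1 : (i : ℝ) < j + 1 := by linarith [hi.1, hj.2]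
  have h2 : (j : ℝ) < i + 1 := by linarith [hj.1, hi.2]
  have h1' : i < j + 1 := by exact_mod_cast h1
  have h2' : j < i + 1 := by exact_mod_cast h2
  omega

/-- the teeth -/
noncomputable def tau (A : ℕ) (z : ℝ) : ℝ := ∑ i : Fin A, tent (z - (i : ℕ))

lemma tau_nonneg (A : ℕ) (z : ℝ) : 0 ≤ tau A z := Finset.sum_nonneg fun _ _ => tent_nonneg _

lemma tau_eq {A : ℕ} {z : ℝ} {i : Fin A} (h : 0 < z - (i : ℕ) ∧ z - (i : ℕ) < 1 / 2) :
    tau A z = 2 * (z - (i : ℕ)) := by
  rw [tau, Finset.sum_eq_single i]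
  · exact tent_rise h.1.le h.2.le
  · intro j _ hj
    by_contra hne
    apply hj
    exact Fin.ext (nat_unique (tent_ne hne) ⟨h.1, by linarith [h.2]⟩)
  · simp

section phi

variable {A B T : ℕ}

/-- the number of the fine cell -/
def kk (B : ℕ) {T : ℕ} (t : Fin T) (j : Fin B) : ℕ := (t : ℕ) * B + j

lemma kk_inj {t t' : Fin T} {j j' : Fin B} (h : kk B t j = kk B t' j') : t = t' ∧ j = j' := by
  have h1 : finProdFinEquiv (t, j) = finProdFinEquiv (t', j') := by
    apply Fin.ext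
    simp only [finProdFinEquiv_apply_val]
    unfold kk at h
    rw [mul_comm B (t : ℕ), mul_comm B (t' : ℕ)]
    omega
  have := finProdFinEquiv.injective h1
  exact ⟨congrArg Prod.fst this, congrArg Prod.snd this⟩

lemma kk_lt (t : Fin T) (j : Fin B) : kk B t j < T * B := by
  unfold kk
  have h1 := t.2
  have h2 := j.2
  calc (t : ℕ) * B + j < (t : ℕ) * B + B := by omega
    _ = (t + 1) * B := by ring
    _ ≤ T * B := Nat.mul_le_mul_right _ h1

/-- the output of the network for the pattern `w`; `M = 2 T B` -/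
noncomputable def phi (w : Fin A → Fin T → Fin B → ℝ) (z : ℝ) : ℝ :=
  ∑ t : Fin T, ∑ j : Fin B, max 0 (tent (2 * T * B * tau A z - T * B / 2 - kk B t j) +
    ∑ i : Fin A, w i t j * gate (z - (i : ℕ)) - 1)

/-- the position in the cell -/
noncomputable def pos (A B T : ℕ) (c : Fin A × Fin T × Fin B) (z : ℝ) : ℝ :=
  4 * T * B * (z - (c.1 : ℕ)) - T * B / 2 - kk B c.2.1 c.2.2

/-- the open cell -/
def Cell (A B T : ℕ) (c : Fin A × Fin T × Fin B) (z : ℝ) : Prop :=
  0 < pos A B T c z ∧ pos A B T c z < 1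

lemma cell_range (hT : 0 < T) (hB : 0 < B) {c : Fin A × Fin T × Fin B} {z : ℝ}
    (h : 0 ≤ pos A B T c z ∧ pos A B T c z ≤ 1) :
    1 / 8 ≤ z - (c.1 : ℕ) ∧ z - (c.1 : ℕ) ≤ 3 / 8 := by
  have hTB : (0 : ℝ) < (T : ℝ) * B := by positivity
  have hk : (kk B c.2.1 c.2.2 : ℝ) + 1 ≤ (T : ℝ) * B := by
    have := kk_lt c.2.1 c.2.2
    exact_mod_cast this
  have hk0 : (0 : ℝ) ≤ kk B c.2.1 c.2.2 := by positivity
  unfold pos at h
  obtain ⟨h1, h2⟩ := h
  constructor
  · by_contra hlt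
    push Not at hlt
    have := mul_lt_mul_of_pos_left hlt hTB
    nlinarith
  · by_contra hlt
    push Not at hlt
    have := mul_lt_mul_of_pos_left hlt hTB
    nlinarith

lemma cell_unique (hT : 0 < T) (hB : 0 < B) {c c' : Fin A × Fin T × Fin B} {z : ℝ}
    (h : Cell A B T c z) (h' : Cell A B T c' z) : c = c' := by
  have r := cell_range hT hB ⟨h.1.le, h.2.le⟩
  have r' := cell_range hT hB ⟨h'.1.le, h'.2.le⟩
  have h1 : (c.1 : ℕ) = c'.1 := nat_unique (z := z) ⟨by linarith [r.1], by linarith [r.2]⟩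
    ⟨by linarith [r'.1], by linarith [r'.2]⟩
  have h2 : kk B c.2.1 c.2.2 = kk B c'.2.1 c'.2.2 := by
    apply nat_unique (z := 4 * T * B * (z - (c.1 : ℕ)) - T * B / 2)
    · exact h
    · rw [h1]; exact h'
  obtain ⟨h3, h4⟩ := kk_inj h2
  exact Prod.ext (Fin.ext h1) (Prod.ext h3 h4)

lemma phi_nonneg (w : Fin A → Fin T → Fin B → ℝ) (z : ℝ) : 0 ≤ phi w z :=
  Finset.sum_nonneg fun _ _ => Finset.sum_nonneg fun _ _ => le_max_left _ _

lemma gates_le_one (z : ℝ) {v : Fin A → ℝ} (hv0 : ∀ i, 0 ≤ v i) (hv : ∀ i, v i ≤ 1) :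
    ∑ i : Fin A, v i * gate (z - (i : ℕ)) ≤ 1 := by
  apply sum_le_one_of_unique
  · intro i
    exact mul_le_one₀ (hv i) (gate_nonneg _) (gate_le_one _)
  · intro i j hi hj
    have h1 := gate_ne (right_ne_zero_of_mul hi)
    have h2 := gate_ne (right_ne_zero_of_mul hj)
    exact Fin.ext (nat_unique ⟨h1.1, by linarith [h1.2]⟩ ⟨h2.1, by linarith [h2.2]⟩)

lemma phi_le_one {w : Fin A → Fin T → Fin B → ℝ} (hw0 : ∀ i t j, 0 ≤ w i t j)
    (hw : ∀ i t j, w i t j ≤ 1) (z : ℝ) : phi w z ≤ 1 := by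
  set y := 2 * T * B * tau A z - T * B / 2 with hy
  have h1 : phi w z ≤ ∑ t : Fin T, ∑ j : Fin B, tent (y - kk B t j) := by
    unfold phi
    refine Finset.sum_le_sum fun t _ => Finset.sum_le_sum fun j _ => ?_
    have h2 := gates_le_one (A := A) z (v := fun i => w i t j) (fun i => hw0 i t j)
      (fun i => hw i t j)
    apply max_le (tent_nonneg _)
    rw [← hy]
    linarith
  refine h1.trans ?_
  have h3 : ∑ t : Fin T, ∑ j : Fin B, tent (y - kk B t j) =
      ∑ q : Fin T × Fin B, tent (y - kk B q.1 q.2) := by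
    rw [Fintype.sum_prod_type]
  rw [h3]
  apply sum_le_one_of_unique
  · intro q
    exact tent_le_one _
  · intro q q' h h'
    obtain ⟨e1, e2⟩ := kk_inj (nat_unique (tent_ne h) (tent_ne h'))
    exact Prod.ext e1 e2

lemma phi_ne {w : Fin A → Fin T → Fin B → ℝ} (hw : ∀ i t j, w i t j = 0 ∨ w i t j = 1) {z : ℝ}
    (h : phi w z ≠ 0) : ∃ c : Fin A × Fin T × Fin B, w c.1 c.2.1 c.2.2 = 1 ∧ Cell A B T c z := by
  have hw0 : ∀ i t j, 0 ≤ w i t j := fun i t j => by rcases hw i t j with h | h <;> rw [h] <;> norm_num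
  have hw1 : ∀ i t j, w i t j ≤ 1 := fun i t j => by rcases hw i t j with h | h <;> rw [h] <;> norm_num
  obtain ⟨t, _, ht⟩ := Finset.exists_ne_zero_of_sum_ne_zero h
  obtain ⟨j, _, hj⟩ := Finset.exists_ne_zero_of_sum_ne_zero ht
  have h1 : 0 < tent (2 * T * B * tau A z - T * B / 2 - kk B t j) +
      ∑ i : Fin A, w i t j * gate (z - (i : ℕ)) - 1 := by
    by_contra hle
    exact hj (max_eq_left (not_lt.1 hle))
  have h2 := tent_le_one (2 * T * B * tau A z - T * B / 2 - kk B t j)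
  have h3 := gates_le_one (A := A) z (v := fun i => w i t j) (fun i => hw0 i t j)
      (fun i => hw1 i t j)
  have h4 : ∑ i : Fin A, w i t j * gate (z - (i : ℕ)) ≠ 0 := by
    intro h0
    rw [h0] at h1
    linarith
  obtain ⟨i, _, hi⟩ := Finset.exists_ne_zero_of_sum_ne_zero h4
  have h5 := gate_ne (right_ne_zero_of_mul hi)
  have h6 : w i t j = 1 := by
    rcases hw i t j with h | h
    · exact absurd h (left_ne_zero_of_mul hi)
    · exact h
  have h7 : tent (2 * T * B * tau A z - T * B / 2 - kk B t j) ≠ 0 := by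
    intro h0
    rw [h0] at h1
    linarith
  have h8 := tent_ne h7
  rw [tau_eq h5] at h8
  refine ⟨(i, t, j), h6, ?_, ?_⟩
  · unfold pos
    simp only
    linarith [h8.1]
  · unfold pos
    simp only
    linarith [h8.2]

lemma phi_mid (hT : 0 < T) (hB : 0 < B) {w : Fin A → Fin T → Fin B → ℝ}
    (hw0 : ∀ i t j, 0 ≤ w i t j) {c : Fin A × Fin T × Fin B} (hc : w c.1 c.2.1 c.2.2 = 1) {z : ℝ}
    (h0 : 1 / 4 ≤ pos A B T c z) (h1 : pos A B T c z ≤ 3 / 4) : 1 / 2 ≤ phi w z := by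
  obtain ⟨i, t, j⟩ := c
  have r := cell_range hT hB (c := (i, t, j)) (z := z) ⟨by linarith, by linarith⟩
  simp only at r hc
  have h2 : max 0 (tent (2 * T * B * tau A z - T * B / 2 - kk B t j) +
    ∑ i : Fin A, w i t j * gate (z - (i : ℕ)) - 1) ≤ phi w z := by
    unfold phi
    refine le_trans ?_ (Finset.single_le_sum (f := fun t : Fin T => ∑ j : Fin B,
      max 0 (tent (2 * T * B * tau A z - T * B / 2 - kk B t j) +
      ∑ i : Fin A, w i t j * gate (z - (i : ℕ)) - 1)) (fun t _ => Finset.sum_nonneg fun j _ =>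
      le_max_left _ _) (Finset.mem_univ t))
    exact Finset.single_le_sum (f := fun j : Fin B =>
      max 0 (tent (2 * T * B * tau A z - T * B / 2 - kk B t j) +
      ∑ i : Fin A, w i t j * gate (z - (i : ℕ)) - 1)) (fun j _ => le_max_left _ _)
      (Finset.mem_univ j)
  refine le_trans ?_ h2
  refine le_trans ?_ (le_max_right _ _)
  rw [tau_eq (i := i) ⟨by linarith [r.1], by linarith [r.2]⟩]
  have h3 : 1 ≤ ∑ i : Fin A, w i t j * gate (z - (i : ℕ)) := by
    refine le_trans ?_ (Finset.single_le_sum (f := fun i : Fin A => w i t j * gate (z - (i : ℕ)))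
      (fun i _ => mul_nonneg (hw0 i t j) (gate_nonneg _)) (Finset.mem_univ i))
    rw [hc, gate_mid r.1 r.2, one_mul]
  have h4 : pos A B T (i, t, j) z = 2 * T * B * (2 * (z - (i : ℕ))) - T * B / 2 - kk B t j := by
    unfold pos
    ring
  rw [h4] at h0 h1
  have := tent_mid h0 h1
  linarith

end phi

end Pool.Agent.P8H32.FN
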