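import Pool.Agent.P8H32.FN.SNet
import Pool.Agent.P8H32.FN.Geo

set_option autoImplicit false

namespace Pool.Agent.P8H32.FN

/-- the channels: input teeth, `tau`, gates, fine breakpoints, selected weights, products,
accumulator -/
abbrev Ch (A B : ℕ) : Type :=
  (Fin A × Fin 5) ⊕ Unit ⊕ Fin A ⊕ (Fin B × Fin 3) ⊕ Fin B ⊕ Fin B ⊕ Unit

lemma card_ch (A B : ℕ) : Fintype.card (Ch A B) = 6 * A + 5 * B + 2 := by
  simp only [Ch, Fintype.card_sum, Fintype.card_prod, Fintype.card_fin, Fintype.card_unit]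
  ring

section

variable {A B : ℕ}

abbrev cn (i : Fin A) (r : Fin 5) : Ch A B := Sum.inl (i, r)
abbrev ct : Ch A B := Sum.inr (Sum.inl ())
abbrev cG (i : Fin A) : Ch A B := Sum.inr (Sum.inr (Sum.inl i))
abbrev ca (j : Fin B) (r : Fin 3) : Ch A B := Sum.inr (Sum.inr (Sum.inr (Sum.inl (j, r))))
abbrev cg (j : Fin B) : Ch A B := Sum.inr (Sum.inr (Sum.inr (Sum.inr (Sum.inl j))))
abbrev cp (j : Fin B) : Ch A B := Sum.inr (Sum.inr (Sum.inr (Sum.inr (Sum.inr (Sum.inl j)))))
abbrev cA : Ch A B := Sum.inr (Sum.inr (Sum.inr (Sum.inr (Sum.inr (Sum.inr ())))))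

/-- a sum over all channels -/
lemma sum_ch (f : Ch A B → ℝ) : ∑ c, f c = (∑ i, ∑ r, f (cn i r)) + (f ct + ((∑ i, f (cG i)) +
    ((∑ j, ∑ r, f (ca j r)) + ((∑ j, f (cg j)) + ((∑ j, f (cp j)) + f cA))))) := by
  simp only [Fintype.sum_sum_type, Fintype.sum_prod_type, Finset.univ_unique, Finset.sum_singleton]

end

/-- breakpoints of the coarse functions -/
noncomputable def rho : Fin 5 → ℝ := ![0, 1 / 8, 3 / 8, 1 / 2, 1]
/-- coefficients of the hat -/
noncomputable def cTau : Fin 5 → ℝ := ![2, 0, 0, -4, 2]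
/-- coefficients of the gate -/
noncomputable def cGa : Fin 5 → ℝ := ![8, -8, -8, 8, 0]
/-- breakpoints of the fine hats -/
noncomputable def rho' : Fin 3 → ℝ := ![0, 1 / 2, 1]
/-- coefficients of the fine hats -/
noncomputable def cFine : Fin 3 → ℝ := ![2, -4, 2]

variable {A B : ℕ}

/-- The matrix of the network: row of the channel `i`. -/
noncomputable def hW (M : ℝ) (pat : Fin A → Fin B → ℝ) : Ch A B → Ch A B → ℝ
  | Sum.inl x, c => match c with
    | Sum.inl y => if x = y then 1 else 0
    | _ => 0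
  | Sum.inr (Sum.inl _), c => match c with
    | Sum.inl y => cTau y.2
    | _ => 0
  | Sum.inr (Sum.inr (Sum.inl i)), c => match c with
    | Sum.inl y => if i = y.1 then cGa y.2 else 0
    | _ => 0
  | Sum.inr (Sum.inr (Sum.inr (Sum.inl _))), c => match c with
    | Sum.inr (Sum.inl _) => M
    | _ => 0
  | Sum.inr (Sum.inr (Sum.inr (Sum.inr (Sum.inl j)))), c => match c with
    | Sum.inr (Sum.inr (Sum.inl i)) => pat i j
    | _ => 0
  | Sum.inr (Sum.inr (Sum.inr (Sum.inr (Sum.inr (Sum.inl j))))), c => match c with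
    | Sum.inr (Sum.inr (Sum.inr (Sum.inl y))) => if j = y.1 then cFine y.2 else 0
    | Sum.inr (Sum.inr (Sum.inr (Sum.inr (Sum.inl j')))) => if j = j' then 1 else 0
    | _ => 0
  | Sum.inr (Sum.inr (Sum.inr (Sum.inr (Sum.inr (Sum.inr _))))), c => match c with
    | Sum.inr (Sum.inr (Sum.inr (Sum.inr (Sum.inr (Sum.inl _))))) => 1
    | Sum.inr (Sum.inr (Sum.inr (Sum.inr (Sum.inr (Sum.inr _))))) => 1
    | _ => 0

/-- the bias -/
noncomputable def hb (M : ℝ) (off : ℕ) : Ch A B → ℝ
  | Sum.inr (Sum.inr (Sum.inr (Sum.inl y))) => -(M / 4) - (off + y.1 : ℕ) - rho' y.2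
  | Sum.inr (Sum.inr (Sum.inr (Sum.inr (Sum.inr (Sum.inl _))))) => -1
  | _ => 0

/-- The network with `T` fine steps; `z = h s - x`. -/
noncomputable def hnet (T : ℕ) (h x amp : ℝ) (w : Fin A → Fin T → Fin B → ℝ) : SNet (Ch A B) where
  a := fun c => match c with
    | Sum.inl _ => h
    | _ => 0
  b0 := fun c => match c with
    | Sum.inl y => -x - (y.1 : ℕ) - rho y.2
    | _ => 0
  W := fun t => hW (2 * T * B) (fun i j => if ht : 1 ≤ t ∧ t ≤ T then w i ⟨t - 1, by omega⟩ j else 0)
  b := fun t => hb (2 * T * B) ((t - 1) * B)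
  q := fun c => match c with
    | Sum.inr (Sum.inr (Sum.inr (Sum.inr (Sum.inr (Sum.inr _))))) => amp
    | _ => 0

section vals

variable {T : ℕ} {h x amp : ℝ} {w : Fin A → Fin T → Fin B → ℝ} (s : ℝ)

lemma val_succ (t : ℕ) (c : Ch A B) : (hnet T h x amp w).val s (t + 1) c =
    max 0 (∑ c', (hnet T h x amp w).W t c c' * (hnet T h x amp w).val s t c' +
      (hnet T h x amp w).b t c) := rfl

lemma val_n (t : ℕ) (i : Fin A) (r : Fin 5) : (hnet T h x amp w).val s t (cn i r) =
    max 0 (h * s - x - (i : ℕ) - rho r) := by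
  induction t with
  | zero =>
    show max 0 (h * s + (-x - (i : ℕ) - rho r)) = _
    congr 1
    ring
  | succ t ih =>
    rw [val_succ, Finset.sum_eq_single (cn i r)]
    · rw [ih]
      simp [hnet, hW, hb]
    · rintro (y | y) _ hy
      · have : (i, r) ≠ y := fun h => hy (by rw [← h])
        simp [hnet, hW, this]
      · simp [hnet, hW]
    · simp

lemma val_tau_zero : (hnet T h x amp w).val s 0 (ct : Ch A B) = 0 := by
  show max 0 ((0 : ℝ) * s + 0) = 0
  simp

lemma val_tau (t : ℕ) : (hnet T h x amp w).val s (t + 1) (ct : Ch A B) = tau A (h * s - x) := by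
  rw [val_succ, sum_ch]
  have h1 : ∀ (i : Fin A), ∑ r, (hnet T h x amp w).W t ct (cn i r) *
      (hnet T h x amp w).val s t (cn i r) = tent (h * s - x - (i : ℕ)) := by
    intro i
    rw [Fin.sum_univ_five]
    simp only [val_n]
    simp only [hnet, hW, cTau, rho, tent]
    simp
    ring
  simp only [h1]
  simp only [hnet, hW, hb, zero_mul, Finset.sum_const_zero, add_zero]
  exact max_eq_right (tau_nonneg _ _)

lemma val_G_zero (i : Fin A) : (hnet T h x amp w).val s 0 (cG i : Ch A B) = 0 := by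
  show max 0 ((0 : ℝ) * s + 0) = 0
  simp

lemma val_G (t : ℕ) (i : Fin A) : (hnet T h x amp w).val s (t + 1) (cG i : Ch A B) =
    gate (h * s - x - (i : ℕ)) := by
  rw [val_succ, sum_ch]
  have h1 : ∑ i' : Fin A, ∑ r, (hnet T h x amp w).W t (cG i) (cn i' r) *
      (hnet T h x amp w).val s t (cn i' r) = gate (h * s - x - (i : ℕ)) := by
    rw [Finset.sum_eq_single i]
    · rw [Fin.sum_univ_five]
      simp only [val_n]
      simp only [hnet, hW, cGa, rho, gate]
      simp
      ring
    · intro i' _ hi'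
      apply Finset.sum_eq_zero
      intro r _
      simp [hnet, hW, hi'.symm]
    · simp
  rw [h1]
  simp only [hnet, hW, hb, zero_mul, Finset.sum_const_zero, add_zero]
  exact max_eq_right (gate_nonneg _)

lemma val_a (t : ℕ) (j : Fin B) (r : Fin 3) : (hnet T h x amp w).val s (t + 1) (ca j r : Ch A B) =
    max 0 (2 * T * B * (hnet T h x amp w).val s t (ct : Ch A B) - T * B / 2 -
      ((t - 1) * B + j : ℕ) - rho' r) := by
  rw [val_succ, sum_ch]
  simp only [hnet, hW, hb, zero_mul, Finset.sum_const_zero, add_zero, zero_add]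
  congr 1
  ring

lemma val_fine_zero (j : Fin B) : ∑ r, cFine r * (hnet T h x amp w).val s 0 (ca j r : Ch A B) =
    0 := by
  apply Finset.sum_eq_zero
  intro r _
  have : (hnet T h x amp w).val s 0 (ca j r : Ch A B) = 0 := by
    show max 0 ((0 : ℝ) * s + 0) = 0
    simp
  rw [this, mul_zero]

lemma val_fine (t : ℕ) (j : Fin B) :
    ∑ r, cFine r * (hnet T h x amp w).val s (t + 1) (ca j r : Ch A B) =
    tent (2 * T * B * (hnet T h x amp w).val s t (ct : Ch A B) - T * B / 2 -
      ((t - 1) * B + j : ℕ)) := by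
  simp only [val_a]
  rw [Fin.sum_univ_three]
  simp only [cFine, rho', tent]
  simp
  ring

lemma val_g_zero (j : Fin B) : (hnet T h x amp w).val s 0 (cg j : Ch A B) = 0 := by
  show max 0 ((0 : ℝ) * s + 0) = 0
  simp

lemma val_g (t : ℕ) (j : Fin B) : (hnet T h x amp w).val s (t + 1) (cg j : Ch A B) =
    max 0 (∑ i, (if ht : 1 ≤ t ∧ t ≤ T then w i ⟨t - 1, by omega⟩ j else 0) *
      (hnet T h x amp w).val s t (cG i : Ch A B)) := by
  rw [val_succ, sum_ch]
  simp only [hnet, hW, hb, zero_mul, Finset.sum_const_zero, add_zero, zero_add]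

lemma val_p_zero (j : Fin B) : (hnet T h x amp w).val s 0 (cp j : Ch A B) = 0 := by
  show max 0 ((0 : ℝ) * s + 0) = 0
  simp

lemma val_p (t : ℕ) (j : Fin B) : (hnet T h x amp w).val s (t + 1) (cp j : Ch A B) =
    max 0 ((∑ r, cFine r * (hnet T h x amp w).val s t (ca j r : Ch A B)) +
      (hnet T h x amp w).val s t (cg j : Ch A B) - 1) := by
  rw [val_succ, sum_ch]
  have h1 : ∑ j' : Fin B, ∑ r, (hnet T h x amp w).W t (cp j) (ca j' r) *
      (hnet T h x amp w).val s t (ca j' r) =
      ∑ r, cFine r * (hnet T h x amp w).val s t (ca j r : Ch A B) := by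
    rw [Finset.sum_eq_single j]
    · apply Finset.sum_congr rfl
      intro r _
      congr 1
      simp [hnet, hW]
    · intro j' _ hj'
      apply Finset.sum_eq_zero
      intro r _
      simp [hnet, hW, hj'.symm]
    · simp
  have h2 : ∑ j' : Fin B, (hnet T h x amp w).W t (cp j) (cg j') *
      (hnet T h x amp w).val s t (cg j') = (hnet T h x amp w).val s t (cg j : Ch A B) := by
    rw [Finset.sum_eq_single j]
    · simp [hnet, hW]
    · intro j' _ hj'
      simp [hnet, hW, hj'.symm]
    · simp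
  rw [h1, h2]
  have h3 : ∑ j' : Fin B, (hnet T h x amp w).W t (cp j) (cp j') *
      (hnet T h x amp w).val s t (cp j') = 0 := by
    apply Finset.sum_eq_zero
    intro j' _
    simp [hnet, hW]
  have h4 : ∑ i : Fin A, ∑ r, (hnet T h x amp w).W t (cp j) (cn i r) *
      (hnet T h x amp w).val s t (cn i r) = 0 := by
    apply Finset.sum_eq_zero
    intro i _
    apply Finset.sum_eq_zero
    intro r _
    simp [hnet, hW]
  have h5 : ∑ i : Fin A, (hnet T h x amp w).W t (cp j) (cG i) *
      (hnet T h x amp w).val s t (cG i) = 0 := by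
    apply Finset.sum_eq_zero
    intro i _
    simp [hnet, hW]
  have h6 : (hnet T h x amp w).W t (cp j : Ch A B) ct = 0 := rfl
  have h7 : (hnet T h x amp w).W t (cp j : Ch A B) cA = 0 := rfl
  have h8 : (hnet T h x amp w).b t (cp j : Ch A B) = -1 := rfl
  rw [h3, h4, h5, h6, h7, h8]
  congr 1
  ring

lemma val_A_zero : (hnet T h x amp w).val s 0 (cA : Ch A B) = 0 := by
  show max 0 ((0 : ℝ) * s + 0) = 0
  simp

lemma val_nonneg (t : ℕ) (c : Ch A B) : 0 ≤ (hnet T h x amp w).val s t c := by
  cases t with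
  | zero => exact le_max_left _ _
  | succ t => exact le_max_left _ _

lemma val_A (t : ℕ) : (hnet T h x amp w).val s (t + 1) (cA : Ch A B) =
    (hnet T h x amp w).val s t (cA : Ch A B) + ∑ j, (hnet T h x amp w).val s t (cp j : Ch A B) := by
  rw [val_succ, sum_ch]
  have h3 : ∑ j' : Fin B, (hnet T h x amp w).W t cA (cp j') *
      (hnet T h x amp w).val s t (cp j') = ∑ j, (hnet T h x amp w).val s t (cp j : Ch A B) := by
    apply Finset.sum_congr rfl
    intro j' _
    simp [hnet, hW]
  have h4 : ∑ i : Fin A, ∑ r, (hnet T h x amp w).W t cA (cn i r) *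
      (hnet T h x amp w).val s t (cn i r) = 0 := by
    apply Finset.sum_eq_zero
    intro i _
    apply Finset.sum_eq_zero
    intro r _
    simp [hnet, hW]
  have h5 : ∑ i : Fin A, (hnet T h x amp w).W t cA (cG i) *
      (hnet T h x amp w).val s t (cG i) = 0 := by
    apply Finset.sum_eq_zero
    intro i _
    simp [hnet, hW]
  have h9 : ∑ j : Fin B, ∑ r, (hnet T h x amp w).W t cA (ca j r) *
      (hnet T h x amp w).val s t (ca j r) = 0 := by
    apply Finset.sum_eq_zero
    intro i _
    apply Finset.sum_eq_zero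
    intro r _
    simp [hnet, hW]
  have h10 : ∑ j : Fin B, (hnet T h x amp w).W t cA (cg j) *
      (hnet T h x amp w).val s t (cg j) = 0 := by
    apply Finset.sum_eq_zero
    intro i _
    simp [hnet, hW]
  have h6 : (hnet T h x amp w).W t (cA : Ch A B) ct = 0 := rfl
  have h7 : (hnet T h x amp w).W t (cA : Ch A B) cA = 1 := rfl
  have h8 : (hnet T h x amp w).b t (cA : Ch A B) = 0 := rfl
  rw [h3, h4, h5, h6, h7, h8, h9, h10]
  have : 0 ≤ (hnet T h x amp w).val s t (cA : Ch A B) +
    ∑ j, (hnet T h x amp w).val s t (cp j : Ch A B) :=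
    add_nonneg (val_nonneg s t _) (Finset.sum_nonneg fun j _ => val_nonneg s t _)
  rw [max_eq_right]
  · ring
  · linarith

/-- The products vanish in the first steps. -/
lemma val_p_low (t : ℕ) (ht : t ≤ 2) (j : Fin B) : (hnet T h x amp w).val s t (cp j : Ch A B) = 0 := by
  interval_cases t
  · exact val_p_zero s j
  · rw [val_p, val_fine_zero, val_g_zero]
    norm_num
  · rw [val_p, val_fine, val_g]
    simp only [val_G_zero, mul_zero, Finset.sum_const_zero, max_self]
    have := tent_le_one (2 * T * B * (hnet T h x amp w).val s 0 (ct : Ch A B) - T * B / 2 -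
      ((0 - 1) * B + j : ℕ))
    apply max_eq_left
    linarith

lemma val_p_high (hw : ∀ i t j, 0 ≤ w i t j) (t : Fin T) (j : Fin B) :
    (hnet T h x amp w).val s (t + 3) (cp j : Ch A B) =
    max 0 (tent (2 * T * B * tau A (h * s - x) - T * B / 2 - kk B t j) +
      ∑ i : Fin A, w i t j * gate (h * s - x - (i : ℕ)) - 1) := by
  rw [val_p, val_fine, val_g, val_tau]
  have h1 : (1 ≤ (t : ℕ) + 1 ∧ (t : ℕ) + 1 ≤ T) := ⟨by omega, t.2⟩
  simp only [dif_pos h1, val_G]
  have h2 : (⟨(t : ℕ) + 1 - 1, by omega⟩ : Fin T) = t := by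
    apply Fin.ext
    simp
  simp only [h2]
  rw [max_eq_right (Finset.sum_nonneg fun i _ => mul_nonneg (hw i t j) (gate_nonneg _))]
  rfl

/-- **The output of the network.** -/
theorem res_hnet (hw : ∀ i t j, 0 ≤ w i t j) :
    (hnet T h x amp w).res (T + 3) s = amp * phi w (h * s - x) := by
  have h1 : ∀ n : ℕ, (hnet T h x amp w).val s n (cA : Ch A B) =
      ∑ t ∈ Finset.range n, ∑ j, (hnet T h x amp w).val s t (cp j : Ch A B) := by
    intro n
    induction n with
    | zero => rw [val_A_zero]; simp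
    | succ n ih => rw [val_A, ih, Finset.sum_range_succ]
  have h2 : (hnet T h x amp w).val s (T + 3) (cA : Ch A B) = phi w (h * s - x) := by
    rw [h1, Finset.range_eq_Ico, ← Finset.sum_Ico_consecutive _ (Nat.zero_le 3)
      (by omega : 3 ≤ T + 3)]
    have h3 : ∑ t ∈ Finset.Ico 0 3, ∑ j, (hnet T h x amp w).val s t (cp j : Ch A B) = 0 := by
      apply Finset.sum_eq_zero
      intro t ht
      apply Finset.sum_eq_zero
      intro j _
      exact val_p_low s t (by have := (Finset.mem_Ico.1 ht).2; omega) j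
    rw [h3, zero_add, Finset.sum_Ico_eq_sum_range, Nat.add_sub_cancel, phi,
      ← Fin.sum_univ_eq_sum_range
        (fun t => ∑ j, (hnet T h x amp w).val s (3 + t) (cp j : Ch A B)) T]
    apply Finset.sum_congr rfl
    intro t _
    apply Finset.sum_congr rfl
    intro j _
    rw [add_comm 3 (t : ℕ), val_p_high s hw]
  unfold SNet.res
  rw [Finset.sum_eq_single cA]
  · rw [h2]
    rfl
  · rintro (y | y | y | y | y | y | y) _ hy
    · simp [hnet]
    · simp [hnet]
    · simp [hnet]
    · simp [hnet]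
    · simp [hnet]
    · simp [hnet]
    · exact absurd rfl hy
  · simp

end vals

end Pool.Agent.P8H32.FN
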