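import Pool.Agent.P8H32.FN.Upper
import Pool.Agent.P8H32.FN.HNet

set_option autoImplicit false

namespace Pool.Agent.P8H32.FN

open MeasureTheory
open scoped ENNReal

variable {d : ℕ} {K : Set (L2 d)} {ρ : Measure (L2 d)}

lemma continuous_mean : Continuous fun u : L2 d => mean (u : (Fin d → ℝ) → ℝ) := by
  have h : LipschitzWith 1 fun u : L2 d => mean (u : (Fin d → ℝ) → ℝ) := by
    apply LipschitzWith.of_dist_le_mul
    intro u v
    rw [Real.dist_eq, NNReal.coe_one, one_mul, dist_eq_norm, ← nrm_coe]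
    have h1 : (mean (u : (Fin d → ℝ) → ℝ) - mean (v : (Fin d → ℝ) → ℝ) : ℝ) =
        mean ((u - v : L2 d) : (Fin d → ℝ) → ℝ) := by
      unfold mean
      rw [← integral_sub ((Lp.memLp u).integrable (by norm_num))
        ((Lp.memLp v).integrable (by norm_num))]
      apply integral_congr_ae
      filter_upwards [Lp.coeFn_sub u v] with x hx
      rw [hx, Pi.sub_apply]
    rw [h1]
    have h2 := norm_fcoeff_le (Lp.memLp (u - v)) 0
    rwa [fcoeff_zero, Complex.norm_real] at h2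
  exact h.continuous

/-- the operator with the constant function `ψ (mean u)` as value -/
noncomputable def constf (K : Set (L2 d)) (ψ : C(ℝ, ℝ)) : C(K, L2 d) where
  toFun u := Lp.constL 2 (cube d) ℝ (ψ (mean ((u : L2 d) : (Fin d → ℝ) → ℝ)))
  continuous_toFun := (Lp.constL 2 (cube d) ℝ).continuous.comp
    (ψ.continuous.comp (continuous_mean.comp continuous_subtype_val))

lemma constL_coe (c : ℝ) : (Lp.constL 2 (cube d) ℝ c : L2 d) =ᵐ[cube d] fun _ => c :=
  Lp.coeFn_const 2 (cube d) c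

lemma norm_constL (c : ℝ) : ‖(Lp.constL 2 (cube d) ℝ c : L2 d)‖ = |c| := by
  have h1 : ‖(Lp.const 2 (cube d) c : L2 d)‖ = ‖c‖ * ((cube d).real Set.univ) ^ (1 / (2 : ℝ≥0∞).toReal) := by
    have : NeZero (cube d) := ⟨IsProbabilityMeasure.ne_zero _⟩
    exact Lp.norm_const 2 (cube d) c (by norm_num)
  have h2 : (Lp.constL 2 (cube d) ℝ c : L2 d) = Lp.const 2 (cube d) c := rfl
  rw [h2, h1, probReal_univ, Real.one_rpow, mul_one, Real.norm_eq_abs]

lemma nets_mono {m m' : ℕ} (h : m ≤ m') : Nets d m ⊆ Nets d m' := by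
  rintro Ψ ⟨κ, c, L, θ, hκ, hc, hL, h1, h2, h3, hB, hH, rfl⟩
  have he : Real.exp m ≤ Real.exp m' := Real.exp_le_exp.2 (by exact_mod_cast h)
  exact ⟨κ, c, L, θ, hκ, hc, hL, h1.trans h, h2.trans h, h3.trans h,
    ⟨fun i => (hB.RU i).trans he, fun i j => (hB.RX i j).trans he, fun i => (hB.R0 i).trans he,
      fun i => (hB.QV i).trans he, hB.Q0.trans he, fun l hl i j => (hB.W l hl i j).trans he,
      fun l hl i => (hB.b l hl i).trans he, fun l hl k hk i j => (hB.Pre l hl k hk i j).trans he,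
      fun l hl k hk i j => (hB.Pim l hl k hk i j).trans he⟩, hH, rfl⟩

lemma nets_neg {m : ℕ} {ψ : ℝ → ℝ}
    (h : (fun (u : L2 d) (_ : Fin d → ℝ) => ψ (mean u)) ∈ Nets d m) :
    (fun (u : L2 d) (_ : Fin d → ℝ) => -ψ (mean u)) ∈ Nets d m := by
  obtain ⟨κ, c, L, θ, hκ, hc, hL, h1, h2, h3, hB, hH, he⟩ := h
  refine ⟨κ, c, L, scaleQ (-1) θ, hκ, hc, hL, h1, h2, h3, ?_, hH, ?_⟩
  · refine ⟨hB.RU, hB.RX, hB.R0, ?_, ?_, hB.W, hB.b, hB.Pre, hB.Pim⟩
    · intro i
      simp only [scaleQ, neg_mul, one_mul, abs_neg]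
      exact hB.QV i
    · simp only [scaleQ, neg_mul, one_mul, abs_neg]
      exact hB.Q0
  · funext u x
    rw [out_scaleQ]
    have := congrFun (congrFun he u) x
    rw [← this]
    ring

lemma nets_zero {m : ℕ} (hm : 1 ≤ m) : (fun (_ : L2 d) (_ : Fin d → ℝ) => (0 : ℝ)) ∈ Nets d m := by
  let N : SNet Unit := ⟨0, 0, 0, 0, 0⟩
  have h1 := N.mem_nets (d := d) (m := m) (T := 0) (by simpa using hm) (by simp) (by omega)
    (by
      have he : (0 : ℝ) ≤ Real.exp m := (Real.exp_pos _).le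
      refine ⟨fun _ => ?_, fun _ => ?_, fun t ht => by omega, fun t ht => by omega, fun _ => ?_⟩ <;>
      simpa [N] using he)
  have h2 : (fun (u : L2 d) (_ : Fin d → ℝ) => N.res 0 (mean u)) =
      fun (_ : L2 d) (_ : Fin d → ℝ) => (0 : ℝ) := by
    funext u x
    simp [SNet.res, N]
  rwa [h2] at h1

/-- small multiples of networks are in the ball -/
lemma fool_mem {α : ℝ} (hα : 0 < α) {m : ℕ} (hm : 1 ≤ m) {ψ : C(ℝ, ℝ)}
    (hψ : (fun (u : L2 d) (_ : Fin d → ℝ) => ψ (mean u)) ∈ Nets d m)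
    (hb : ∀ s, |ψ s| ≤ (m : ℝ) ^ (-α)) : constf K ψ ∈ Ball K α := by
  have hm1 : (1 : ℝ) ≤ m := by exact_mod_cast hm
  have hm0 : (0 : ℝ) < m := by linarith
  have hle : (m : ℝ) ^ (-α) ≤ 1 := Real.rpow_le_one_of_one_le_of_nonpos hm1 (by linarith)
  have hnorm : ∀ u : K, ‖constf K ψ u‖ = |ψ (mean ((u : L2 d) : (Fin d → ℝ) → ℝ))| := fun u =>
    norm_constL _
  have key : Gam α (constf K ψ) ≤ 1 → constf K ψ ∈ Ball K α := by
    intro h
    show (⨅ (t : ℝ) (_ : 0 < t ∧ Gam α (t⁻¹ • constf K ψ) ≤ 1), ENNReal.ofReal t) ≤ 1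
    have h' : 0 < (1 : ℝ) ∧ Gam α ((1 : ℝ)⁻¹ • constf K ψ) ≤ 1 := by
      rw [inv_one, one_smul]
      exact ⟨one_pos, h⟩
    exact (iInf₂_le (1 : ℝ) h').trans (by simp)
  apply key
  refine max_le (iSup_le fun u => ?_) (iSup₂_le fun m' hm' => ?_)
  · rw [← ofReal_norm, hnorm, ENNReal.ofReal_le_one]
    exact (hb _).trans hle
  · by_cases hmm : m ≤ m'
    · have h1 : err (constf K ψ) m' = 0 := by
        refine le_antisymm (iInf₂_le_of_le _ (nets_mono hmm hψ) ?_) bot_le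
        refine iSup_le fun u => ?_
        have h2 : (fun x => constf K ψ u x - ψ (mean ((u : L2 d) : (Fin d → ℝ) → ℝ))) =ᵐ[cube d]
            (0 : (Fin d → ℝ) → ℝ) := by
          filter_upwards [constL_coe (d := d) (ψ (mean ((u : L2 d) : (Fin d → ℝ) → ℝ)))] with x hx
          show constf K ψ u x - _ = 0
          have h3 : constf K ψ u x = ψ (mean ((u : L2 d) : (Fin d → ℝ) → ℝ)) := hx
          rw [h3, sub_self]
        rw [eLpNorm_congr_ae h2, eLpNorm_zero]
      rw [h1, mul_zero]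
      exact zero_le_one
    · push Not at hmm
      have h1 : err (constf K ψ) m' ≤ ENNReal.ofReal ((m : ℝ) ^ (-α)) := by
        refine iInf₂_le_of_le _ (nets_zero hm') ?_
        refine iSup_le fun u => ?_
        simp only [sub_zero]
        have h2 : eLpNorm (fun x => constf K ψ u x) 2 (cube d) = ‖constf K ψ u‖ₑ :=
          (Lp.enorm_def _).symm
        rw [h2, ← ofReal_norm, hnorm]
        exact ENNReal.ofReal_le_ofReal (hb _)
      have hm'0 : (0 : ℝ) < m' := by exact_mod_cast hm'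
      calc (m' : ℝ≥0∞) ^ α * err (constf K ψ) m' ≤
          ENNReal.ofReal ((m' : ℝ) ^ α) * ENNReal.ofReal ((m : ℝ) ^ (-α)) := by
            rw [ofReal_natCast_rpow hm']
            gcongr
        _ = ENNReal.ofReal ((m' : ℝ) ^ α * (m : ℝ) ^ (-α)) := by
            rw [← ENNReal.ofReal_mul (by positivity)]
        _ ≤ 1 := by
            rw [ENNReal.ofReal_le_one, Real.rpow_neg hm0.le]
            rw [mul_inv_le_iff₀ (by positivity), one_mul]
            exact Real.rpow_le_rpow hm'0.le (by exact_mod_cast hmm.le) hα.le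

/-- Lower bound for the width by functions which vanish at the sample points. -/
lemma width_ge (hK : IsCompact K) (hρ : ρ Kᶜ = 0) {G : Set C(K, L2 d)} {n : ℕ} {η : ℝ≥0∞}
    (h : ∀ p : Fin n → K, ∃ f, f ∈ G ∧ -f ∈ G ∧ (∀ i, f (p i) = 0) ∧
      η ≤ eLpNorm (ext f) 2 ρ) : η ≤ width ρ G n := by
  refine le_iInf₂ fun p D => ?_
  obtain ⟨f, hf, hf', h0, hη⟩ := h p
  set g := D fun i => f (p i) with hg
  have hg' : (D fun i => (-f) (p i)) = g := by
    rw [hg]
    congr 1
    funext i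
    show -(f (p i)) = f (p i)
    rw [h0 i, neg_zero]
  set S := ⨆ f ∈ G, eLpNorm (fun u => ext f u - D (fun i => f (p i)) u) 2 ρ with hS
  have h1 : eLpNorm (fun u => ext f u - g u) 2 ρ ≤ S :=
    le_iSup₂ (f := fun (f : C(K, L2 d)) (_ : f ∈ G) =>
      eLpNorm (fun u => ext f u - D (fun i => f (p i)) u) 2 ρ) f hf
  have h2 : eLpNorm (fun u => ext (-f) u - g u) 2 ρ ≤ S := by
    have := le_iSup₂ (f := fun (f : C(K, L2 d)) (_ : f ∈ G) =>
      eLpNorm (fun u => ext f u - D (fun i => f (p i)) u) 2 ρ) (-f) hf'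
    rwa [hg'] at this
  have h3 : ∀ u, ext (-f) u = -ext f u := by
    classical
    intro u
    unfold ext
    split_ifs
    · rfl
    · rw [neg_zero]
  have hm : AEStronglyMeasurable (ext f) ρ := aesm_ext hK hρ f
  have hgm : AEStronglyMeasurable (fun u => g u) ρ := Lp.aestronglyMeasurable g
  have h4 : eLpNorm ((2 : ℝ) • ext f) 2 ρ ≤ S + S := by
    have e1 : (2 : ℝ) • ext f = (fun u => ext f u - g u) - (fun u => ext (-f) u - g u) := by
      funext u
      simp only [Pi.smul_apply, Pi.sub_apply, h3]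
      rw [two_smul]
      abel
    rw [e1]
    refine (eLpNorm_sub_le (hm.sub hgm) ((aesm_ext hK hρ (-f)).sub hgm) (by norm_num)).trans ?_
    exact add_le_add h1 h2
  rw [eLpNorm_const_smul] at h4
  have h5 : ‖(2 : ℝ)‖ₑ = 2 := by
    rw [Real.enorm_eq_ofReal (by norm_num)]
    simp
  rw [h5, ← two_mul] at h4
  have h6 := (ENNReal.mul_le_mul_iff_right (by norm_num) (by norm_num)).1 h4
  exact hη.trans h6

end Pool.Agent.P8H32.FN
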