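import Pool.Agent.P8H32.FN.Defs

set_option autoImplicit false

namespace Pool.Agent.P8H32.FN

open MeasureTheory
open scoped ENNReal

instance cube_prob (d : ℕ) : IsProbabilityMeasure (cube d) := by
  constructor
  rw [cube, Measure.restrict_apply_univ, Real.volume_pi_Ioo]
  simp

lemma cube_ae (d : ℕ) : ∀ᵐ x ∂(cube d), ∀ j, x j ∈ Set.Ioo (0 : ℝ) 1 := by
  rw [cube, ae_restrict_iff' (MeasurableSet.univ_pi fun _ => measurableSet_Ioo)]
  filter_upwards with x hx j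
  exact hx j (Set.mem_univ j)

/-- the real `L^2` norm -/
noncomputable def nrm {d : ℕ} (g : (Fin d → ℝ) → ℝ) : ℝ := (eLpNorm g 2 (cube d)).toReal

lemma nrm_nonneg {d : ℕ} (g : (Fin d → ℝ) → ℝ) : 0 ≤ nrm g := ENNReal.toReal_nonneg

lemma ofReal_nrm {d : ℕ} {g : (Fin d → ℝ) → ℝ} (hg : MemLp g 2 (cube d)) :
    ENNReal.ofReal (nrm g) = eLpNorm g 2 (cube d) := ENNReal.ofReal_toReal hg.2.ne

lemma eLpNorm_le_of {d : ℕ} {ι : Type} (s : Finset ι) (a : ι → ℝ) (h : ι → (Fin d → ℝ) → ℝ)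
    (C : ℝ) (ha : ∀ i, 0 ≤ a i) (hC : 0 ≤ C) (hh : ∀ i, MemLp (h i) 2 (cube d))
    (g : (Fin d → ℝ) → ℝ) (hg : ∀ᵐ x ∂(cube d), |g x| ≤ ∑ i ∈ s, a i * |h i x| + C) :
    eLpNorm g 2 (cube d) ≤ ENNReal.ofReal (∑ i ∈ s, a i * nrm (h i) + C) := by
  have h1 : eLpNorm g 2 (cube d) ≤
      eLpNorm ((∑ i ∈ s, fun x => a i * |h i x|) + fun _ => C) 2 (cube d) := by
    apply eLpNorm_mono_ae
    filter_upwards [hg] with x hx
    rw [Real.norm_eq_abs, Real.norm_eq_abs]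
    refine hx.trans ?_
    simp only [Pi.add_apply, Finset.sum_apply]
    exact le_abs_self _
  have hm : ∀ i, AEStronglyMeasurable (fun x => a i * |h i x|) (cube d) := fun i =>
    (((hh i).1.norm).const_mul (a i))
  have h2 : eLpNorm ((∑ i ∈ s, fun x => a i * |h i x|) + fun _ => C) 2 (cube d) ≤
      eLpNorm (∑ i ∈ s, fun x => a i * |h i x|) 2 (cube d) + eLpNorm (fun _ => C) 2 (cube d) := by
    apply eLpNorm_add_le _ aestronglyMeasurable_const (by norm_num)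
    exact Finset.aestronglyMeasurable_sum s fun i _ => hm i
  have h3 : eLpNorm (∑ i ∈ s, fun x => a i * |h i x|) 2 (cube d) ≤
      ∑ i ∈ s, eLpNorm (fun x => a i * |h i x|) 2 (cube d) :=
    eLpNorm_sum_le (fun i _ => hm i) (by norm_num)
  have h4 : ∀ i, eLpNorm (fun x => a i * |h i x|) 2 (cube d) = ENNReal.ofReal (a i * nrm (h i)) := by
    intro i
    have : (fun x => a i * |h i x|) = a i • (fun x => ‖h i x‖) := by
      funext x; simp [Real.norm_eq_abs]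
    rw [this, eLpNorm_const_smul, eLpNorm_norm, ENNReal.ofReal_mul (ha i), ofReal_nrm (hh i),
      Real.enorm_eq_ofReal (ha i)]
  have h5 : eLpNorm (fun _ : Fin d → ℝ => C) 2 (cube d) = ENNReal.ofReal C := by
    rw [eLpNorm_const _ (by norm_num) (IsProbabilityMeasure.ne_zero _)]
    simp [Real.enorm_eq_ofReal hC]
  calc eLpNorm g 2 (cube d) ≤ _ := h1
    _ ≤ _ := h2
    _ ≤ ∑ i ∈ s, ENNReal.ofReal (a i * nrm (h i)) + ENNReal.ofReal C := by
        rw [h5]; gcongr; exact h3.trans_eq (Finset.sum_congr rfl fun i _ => h4 i)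
    _ = ENNReal.ofReal (∑ i ∈ s, a i * nrm (h i) + C) := by
        rw [ENNReal.ofReal_add (Finset.sum_nonneg fun i _ => mul_nonneg (ha i) (nrm_nonneg _)) hC,
          ENNReal.ofReal_sum_of_nonneg fun i _ => mul_nonneg (ha i) (nrm_nonneg _)]

lemma nrm_le_of {d : ℕ} {ι : Type} (s : Finset ι) (a : ι → ℝ) (h : ι → (Fin d → ℝ) → ℝ)
    (C : ℝ) (ha : ∀ i, 0 ≤ a i) (hC : 0 ≤ C) (hh : ∀ i, MemLp (h i) 2 (cube d))
    (g : (Fin d → ℝ) → ℝ) (hg : ∀ᵐ x ∂(cube d), |g x| ≤ ∑ i ∈ s, a i * |h i x| + C) :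
    nrm g ≤ ∑ i ∈ s, a i * nrm (h i) + C := by
  have := eLpNorm_le_of s a h C ha hC hh g hg
  exact ENNReal.toReal_le_of_le_ofReal
    (add_nonneg (Finset.sum_nonneg fun i _ => mul_nonneg (ha i) (nrm_nonneg _)) hC) this

lemma norm_chr {d : ℕ} (k : Fin d → ℤ) (x : Fin d → ℝ) : ‖chr k x‖ = 1 := by
  have : chr k x = Complex.exp (((2 * Real.pi * ∑ j, (k j : ℝ) * x j : ℝ) : ℂ) * Complex.I) := by
    rw [chr]
    congr 1
    push_cast
    ring
  rw [this, Complex.norm_exp_ofReal_mul_I]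

lemma continuous_chr {d : ℕ} (k : Fin d → ℤ) : Continuous (chr k) := by
  unfold chr
  fun_prop

lemma integrable_fc {d : ℕ} {g : (Fin d → ℝ) → ℝ} (hg : MemLp g 2 (cube d)) (k : Fin d → ℤ) :
    Integrable (fun y => (g y : ℂ) * chr (-k) y) (cube d) := by
  have h1 : Integrable g (cube d) := hg.integrable (by norm_num)
  have h2 : Integrable (fun y => (g y : ℂ)) (cube d) := h1.ofReal
  exact h2.mul_bdd (c := 1) (continuous_chr _).aestronglyMeasurable
    (Filter.Eventually.of_forall fun x => (norm_chr _ _).le)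

lemma norm_fcoeff_le {d : ℕ} {g : (Fin d → ℝ) → ℝ} (hg : MemLp g 2 (cube d)) (k : Fin d → ℤ) :
    ‖fcoeff k g‖ ≤ nrm g := by
  have h1 : ENNReal.ofReal ‖fcoeff k g‖ ≤ eLpNorm g 2 (cube d) := by
    rw [ofReal_norm_eq_enorm]
    calc ‖fcoeff k g‖ₑ ≤ ∫⁻ y, ‖(g y : ℂ) * chr (-k) y‖ₑ ∂(cube d) := enorm_integral_le_lintegral_enorm _
      _ = eLpNorm g 1 (cube d) := by
        rw [eLpNorm_one_eq_lintegral_enorm]
        congr 1
        funext y
        rw [enorm_mul, ← ofReal_norm_eq_enorm (chr (-k) y), norm_chr, ENNReal.ofReal_one, mul_one,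
          ← ofReal_norm_eq_enorm, Complex.norm_real, ofReal_norm_eq_enorm]
      _ ≤ eLpNorm g 2 (cube d) := eLpNorm_le_eLpNorm_of_exponent_le (by norm_num) hg.1
  rw [← ENNReal.toReal_ofReal (norm_nonneg (fcoeff k g))]
  exact ENNReal.toReal_mono hg.2.ne h1

lemma fcoeff_sub {d : ℕ} {g h : (Fin d → ℝ) → ℝ} (hg : MemLp g 2 (cube d))
    (hh : MemLp h 2 (cube d)) (k : Fin d → ℤ) :
    fcoeff k g - fcoeff k h = fcoeff k (fun y => g y - h y) := by
  rw [fcoeff, fcoeff, fcoeff, ← integral_sub (integrable_fc hg k) (integrable_fc hh k)]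
  congr 1
  funext y
  push_cast
  ring

end Pool.Agent.P8H32.FN
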