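import Pool.Agent.P8H32.FN.Lip

set_option autoImplicit false

namespace Pool.Agent.P8H32.FN

open MeasureTheory
open scoped ENNReal

variable {d c : ℕ}

lemma norm_mult_le {κ : ℕ} {P : (Fin d → ℤ) → Fin c → Fin c → ℂ}
    {v : (Fin d → ℝ) → Fin c → ℝ} {b : ℝ} (hb : 0 ≤ b)
    (hv : ∀ j, MemLp (fun x => v x j) 2 (cube d))
    (i : Fin c) (hP : ∀ k ∈ box d κ, ∀ j, ‖P k i j‖ ≤ b) (x : Fin d → ℝ) :
    ‖mult κ P v x i‖ ≤ (box d κ).card * b * ∑ j, nrm (fun x => v x j) := by
  unfold mult
  refine (norm_sum_le _ _).trans ?_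
  have h1 : ∀ k ∈ box d κ, ‖(∑ j, P k i j * fcoeff k (fun y => v y j)) * chr k x‖ ≤
      b * ∑ j, nrm (fun x => v x j) := by
    intro k hk
    rw [norm_mul, norm_chr, mul_one, Finset.mul_sum]
    refine (norm_sum_le _ _).trans (Finset.sum_le_sum fun j _ => ?_)
    rw [norm_mul]
    exact mul_le_mul (hP k hk j) (norm_fcoeff_le (hv j) k) (norm_nonneg _) hb
  refine (Finset.sum_le_sum h1).trans ?_
  rw [Finset.sum_const, nsmul_eq_mul, mul_assoc]

lemma norm_mult_sub_le {κ : ℕ} {P P' : (Fin d → ℤ) → Fin c → Fin c → ℂ}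
    {v v' : (Fin d → ℝ) → Fin c → ℝ} {b δ : ℝ} (hb : 0 ≤ b) (hδ : 0 ≤ δ)
    (hv : ∀ j, MemLp (fun x => v x j) 2 (cube d)) (hv' : ∀ j, MemLp (fun x => v' x j) 2 (cube d))
    (i : Fin c) (hP : ∀ k ∈ box d κ, ∀ j, ‖P k i j‖ ≤ b)
    (hPP : ∀ k ∈ box d κ, ∀ j, ‖P k i j - P' k i j‖ ≤ δ) (x : Fin d → ℝ) :
    ‖mult κ P v x i - mult κ P' v' x i‖ ≤ (box d κ).card *
      (b * ∑ j, nrm (fun x => v x j - v' x j) + δ * ∑ j, nrm (fun x => v' x j)) := by
  unfold mult
  rw [← Finset.sum_sub_distrib]
  refine (norm_sum_le _ _).trans ?_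
  have h1 : ∀ k ∈ box d κ, ‖(∑ j, P k i j * fcoeff k (fun y => v y j)) * chr k x -
      (∑ j, P' k i j * fcoeff k (fun y => v' y j)) * chr k x‖ ≤
      b * ∑ j, nrm (fun x => v x j - v' x j) + δ * ∑ j, nrm (fun x => v' x j) := by
    intro k hk
    rw [← sub_mul, norm_mul, norm_chr, mul_one, Finset.mul_sum, Finset.mul_sum,
      ← Finset.sum_sub_distrib, ← Finset.sum_add_distrib]
    refine (norm_sum_le _ _).trans (Finset.sum_le_sum fun j _ => ?_)
    have h2 : P k i j * fcoeff k (fun y => v y j) - P' k i j * fcoeff k (fun y => v' y j) =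
        P k i j * fcoeff k (fun y => v y j - v' y j) +
          (P k i j - P' k i j) * fcoeff k (fun y => v' y j) := by
      rw [← fcoeff_sub (hv j) (hv' j) k]
      ring
    rw [h2]
    refine (norm_add_le _ _).trans ?_
    rw [norm_mul, norm_mul]
    exact add_le_add (mul_le_mul (hP k hk j) (norm_fcoeff_le ((hv j).sub (hv' j)) k)
        (norm_nonneg _) hb)
      (mul_le_mul (hPP k hk j) (norm_fcoeff_le (hv' j) k) (norm_nonneg _) hδ)
  refine (Finset.sum_le_sum h1).trans ?_
  rw [Finset.sum_const, nsmul_eq_mul]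

lemma memLp_coord (j : Fin d) : MemLp (fun x : Fin d → ℝ => x j) 2 (cube d) := by
  apply MemLp.of_bound (continuous_apply j).aestronglyMeasurable 1
  filter_upwards [cube_ae d] with x hx
  rw [Real.norm_eq_abs, abs_of_pos (hx j).1]
  exact (hx j).2.le

lemma continuous_mult (κ : ℕ) (P : (Fin d → ℤ) → Fin c → Fin c → ℂ)
    (v : (Fin d → ℝ) → Fin c → ℝ) (i : Fin c) : Continuous fun x => mult κ P v x i := by
  unfold mult
  exact continuous_finsetSum _ fun k _ => continuous_const.mul (continuous_chr k)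

lemma memLp_mult {κ : ℕ} {P : (Fin d → ℤ) → Fin c → Fin c → ℂ}
    {v : (Fin d → ℝ) → Fin c → ℝ} (i : Fin c) :
    MemLp (fun x => (mult κ P v x i).re) 2 (cube d) := by
  apply MemLp.of_bound (Complex.continuous_re.comp (continuous_mult κ P v i)).aestronglyMeasurable
    (∑ k ∈ box d κ, ‖∑ j, P k i j * fcoeff k (fun y => v y j)‖)
  refine Filter.Eventually.of_forall fun x => ?_
  rw [Real.norm_eq_abs]
  refine (Complex.abs_re_le_norm _).trans ?_
  unfold mult
  refine (norm_sum_le _ _).trans (Finset.sum_le_sum fun k _ => ?_)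
  rw [norm_mul, norm_chr, mul_one]

lemma memLp_state (κ : ℕ) (θ : Param d c) {u : (Fin d → ℝ) → ℝ} (hu : MemLp u 2 (cube d)) :
    ∀ (l : ℕ) (i : Fin c), MemLp (fun x => state κ θ u l x i) 2 (cube d)
  | 0, i => by
    have h1 : MemLp (fun x => θ.RU i * u x) 2 (cube d) := hu.const_mul _
    have h2 : MemLp (fun x : Fin d → ℝ => ∑ j, θ.RX i j * x j) 2 (cube d) := by
      refine memLp_finsetSum _ fun j _ => ?_
      exact (memLp_coord j).const_mul _
    exact (h1.add h2).add (memLp_const _)
  | l + 1, i => by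
    have ih := memLp_state κ θ hu l
    have h1 : MemLp (fun x => ∑ j, θ.W l i j * state κ θ u l x j) 2 (cube d) := by
      refine memLp_finsetSum _ fun j _ => ?_
      exact (ih j).const_mul _
    have h2 : MemLp (fun x => ∑ j, θ.W l i j * state κ θ u l x j + θ.b l i +
      (mult κ (θ.P l) (state κ θ u l) x i).re) 2 (cube d) :=
      (h1.add (memLp_const _)).add (memLp_mult i)
    have h3 := h2.pos_part
    simp only [state]
    convert h3 using 2
    exact max_comm _ _

/-- the sum of the norms of the components -/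
noncomputable def vn (v : (Fin d → ℝ) → Fin c → ℝ) : ℝ := ∑ i, nrm (fun x => v x i)

lemma vn_nonneg (v : (Fin d → ℝ) → Fin c → ℝ) : 0 ≤ vn v :=
  Finset.sum_nonneg fun _ _ => nrm_nonneg _

lemma norm_le_of_parts {z : ℂ} {B : ℝ} (h1 : |z.re| ≤ B) (h2 : |z.im| ≤ B) : ‖z‖ ≤ 2 * B :=
  (Complex.norm_le_abs_re_add_abs_im z).trans (by linarith)

/-- the growth factor -/
noncomputable def gT (d c κ : ℕ) (B : ℝ) : ℝ :=
  (c : ℝ) * B * (2 * ((box d κ).card : ℝ) + 1) * (d + 1)

lemma one_le_gT {κ : ℕ} {B : ℝ} (hc : 0 < c) (hB : 1 ≤ B) : 1 ≤ gT d c κ B := by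
  have h1 : (1 : ℝ) ≤ c := by exact_mod_cast hc
  have h2 : (1 : ℝ) ≤ 2 * ((box d κ).card : ℝ) + 1 := by
    have : (0 : ℝ) ≤ (box d κ).card := by positivity
    linarith
  have h3 : (1 : ℝ) ≤ (d : ℝ) + 1 := by
    have : (0 : ℝ) ≤ d := by positivity
    linarith
  unfold gT
  exact one_le_mul_of_one_le_of_one_le
    (one_le_mul_of_one_le_of_one_le (one_le_mul_of_one_le_of_one_le h1 hB) h2) h3

lemma ae_affine (RX : Fin d → ℝ) {B : ℝ} (hRX : ∀ j, |RX j| ≤ B) :
    ∀ᵐ x ∂(cube d), |∑ j, RX j * x j| ≤ B * d := by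
  filter_upwards [cube_ae d] with x hx
  refine (Finset.abs_sum_le_sum_abs _ _).trans ?_
  have : ∀ j ∈ Finset.univ, |RX j * x j| ≤ B := by
    intro j _
    rw [abs_mul]
    have h1 : |x j| ≤ 1 := by
      rw [abs_of_pos (hx j).1]; exact (hx j).2.le
    calc |RX j| * |x j| ≤ |RX j| * 1 := by gcongr
      _ ≤ B := by rw [mul_one]; exact hRX j
  refine (Finset.sum_le_sum this).trans ?_
  simp [mul_comm]

lemma vn_state_le {κ L : ℕ} {B : ℝ} (hc : 0 < c) (hB : 1 ≤ B) {θ : Param d c}
    (hθ : Bounded κ L B θ) {u : (Fin d → ℝ) → ℝ} (hu : MemLp u 2 (cube d)) :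
    ∀ l ≤ L, vn (state κ θ u l) + 1 ≤ (2 * gT d c κ B) ^ (l + 1) * (1 + nrm u) := by
  have hB0 : 0 ≤ B := by linarith
  have hT := one_le_gT (d := d) (κ := κ) hc hB
  set T := gT d c κ B with hTd
  have hc1 : (1 : ℝ) ≤ c := by exact_mod_cast hc
  have hn := nrm_nonneg u
  intro l
  induction l with
  | zero =>
    intro _
    have h1 : ∀ i, nrm (fun x => state κ θ u 0 x i) ≤ B * nrm u + (B * d + B) := by
      intro i
      have := nrm_le_of (Finset.univ : Finset Unit) (fun _ => B) (fun _ => u) (B * d + B)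
        (fun _ => hB0) (by positivity) (fun _ => hu) (fun x => state κ θ u 0 x i) (by
          filter_upwards [ae_affine (θ.RX i) (hθ.RX i)] with x hx
          simp only [state, Finset.univ_unique, Finset.sum_singleton]
          have e1 : |θ.RU i * u x| ≤ B * |u x| := by
            rw [abs_mul]; gcongr; exact hθ.RU i
          calc |θ.RU i * u x + ∑ j, θ.RX i j * x j + θ.R0 i| ≤
              |θ.RU i * u x| + |∑ j, θ.RX i j * x j| + |θ.R0 i| := abs_add_three _ _ _
            _ ≤ B * |u x| + B * d + B := by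
              have := hθ.R0 i
              linarith
            _ = B * |u x| + (B * d + B) := by ring)
      simpa using this
    have h2 : vn (state κ θ u 0) ≤ c * (B * nrm u + (B * d + B)) := by
      unfold vn
      refine (Finset.sum_le_sum fun i _ => h1 i).trans ?_
      rw [Finset.sum_const, Finset.card_univ, Fintype.card_fin, nsmul_eq_mul]
    have h3 : (c : ℝ) * (B * nrm u + (B * d + B)) ≤ T * (1 + nrm u) := by
      have e1 : B * nrm u + (B * d + B) ≤ B * (d + 1) * (1 + nrm u) := by
        have : 0 ≤ B * d * nrm u := by positivity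
        nlinarith
      have e2 : (c : ℝ) * (B * (d + 1) * (1 + nrm u)) ≤ T * (1 + nrm u) := by
        rw [hTd, gT]
        have e3 : (1 : ℝ) ≤ 2 * ((box d κ).card : ℝ) + 1 := by
          have : (0 : ℝ) ≤ (box d κ).card := by positivity
          linarith
        have e4 : 0 ≤ (c : ℝ) * (B * (d + 1) * (1 + nrm u)) := by positivity
        calc (c : ℝ) * (B * (d + 1) * (1 + nrm u)) = (c : ℝ) * (B * (d + 1) * (1 + nrm u)) * 1 := by
              ring
          _ ≤ (c : ℝ) * (B * (d + 1) * (1 + nrm u)) * (2 * ((box d κ).card : ℝ) + 1) :=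
              mul_le_mul_of_nonneg_left e3 e4
          _ = _ := by ring
      exact (mul_le_mul_of_nonneg_left e1 (by positivity)).trans e2
    have h4 : 1 ≤ T * (1 + nrm u) := by nlinarith
    rw [zero_add, pow_one]
    linarith
  | succ l ih =>
    intro hl
    have ih := ih (by omega)
    have hm := memLp_state κ θ hu l
    have h1 : ∀ i, nrm (fun x => state κ θ u (l + 1) x i) ≤
        B * vn (state κ θ u l) + (B + (box d κ).card * (2 * B) * vn (state κ θ u l)) := by
      intro i
      have := nrm_le_of (Finset.univ : Finset (Fin c)) (fun _ => B)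
        (fun j x => state κ θ u l x j) (B + (box d κ).card * (2 * B) * vn (state κ θ u l))
        (fun _ => hB0) (by have := vn_nonneg (state κ θ u l); positivity) hm
        (fun x => state κ θ u (l + 1) x i) (by
          refine Filter.Eventually.of_forall fun x => ?_
          simp only [state]
          have e0 : ∀ y : ℝ, |max 0 y| ≤ |y| := fun y => by
            rw [abs_of_nonneg (le_max_left 0 y)]
            exact max_le (abs_nonneg y) (le_abs_self y)
          refine (e0 _).trans ((abs_add_three _ _ _).trans ?_)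
          have e1 : |∑ j, θ.W l i j * state κ θ u l x j| ≤ ∑ j, B * |state κ θ u l x j| := by
            refine (Finset.abs_sum_le_sum_abs _ _).trans (Finset.sum_le_sum fun j _ => ?_)
            rw [abs_mul]
            gcongr
            exact hθ.W l (by omega) i j
          have e2 : |θ.b l i| ≤ B := hθ.b l (by omega) i
          have e3 : |(mult κ (θ.P l) (state κ θ u l) x i).re| ≤
              (box d κ).card * (2 * B) * vn (state κ θ u l) :=
            (Complex.abs_re_le_norm _).trans (norm_mult_le (by positivity) hm i (fun k hk j =>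
              norm_le_of_parts (hθ.Pre l (by omega) k hk i j) (hθ.Pim l (by omega) k hk i j)) x)
          linarith)
      refine this.trans ?_
      rw [← Finset.mul_sum]
      exact le_rfl
    have h2 : vn (state κ θ u (l + 1)) ≤
        c * (B * vn (state κ θ u l) + (B + (box d κ).card * (2 * B) * vn (state κ θ u l))) := by
      rw [vn]
      refine (Finset.sum_le_sum fun i _ => h1 i).trans ?_
      rw [Finset.sum_const, Finset.card_univ, Fintype.card_fin, nsmul_eq_mul]
    have hv := vn_nonneg (state κ θ u l)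
    set a := vn (state κ θ u l) with ha
    have h3 : (c : ℝ) * (B * a + (B + (box d κ).card * (2 * B) * a)) ≤ T * (a + 1) := by
      have e1 : B * a + (B + (box d κ).card * (2 * B) * a) ≤
          B * (2 * ((box d κ).card : ℝ) + 1) * (a + 1) := by
        have : 0 ≤ B * ((box d κ).card : ℝ) := by positivity
        nlinarith
      have e2 : (c : ℝ) * (B * (2 * ((box d κ).card : ℝ) + 1) * (a + 1)) ≤ T * (a + 1) := by
        rw [hTd, gT]
        have e3 : (1 : ℝ) ≤ (d : ℝ) + 1 := by
          have : (0 : ℝ) ≤ d := by positivity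
          linarith
        have e4 : 0 ≤ (c : ℝ) * (B * (2 * ((box d κ).card : ℝ) + 1) * (a + 1)) := by positivity
        calc (c : ℝ) * (B * (2 * ((box d κ).card : ℝ) + 1) * (a + 1)) =
            (c : ℝ) * (B * (2 * ((box d κ).card : ℝ) + 1) * (a + 1)) * 1 := by ring
          _ ≤ (c : ℝ) * (B * (2 * ((box d κ).card : ℝ) + 1) * (a + 1)) * ((d : ℝ) + 1) :=
              mul_le_mul_of_nonneg_left e3 e4
          _ = _ := by ring
      exact (mul_le_mul_of_nonneg_left e1 (by positivity)).trans e2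
    have h4 : 1 ≤ T * (a + 1) := by nlinarith
    calc vn (state κ θ u (l + 1)) + 1 ≤ 2 * T * (a + 1) := by linarith
      _ ≤ 2 * T * ((2 * T) ^ (l + 1) * (1 + nrm u)) :=
          mul_le_mul_of_nonneg_left ih (by positivity)
      _ = _ := by ring

end Pool.Agent.P8H32.FN
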