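import Pool.Agent.P8H32.FN.Lip2

set_option autoImplicit false

namespace Pool.Agent.P8H32.FN

open MeasureTheory
open scoped ENNReal

variable {d c : ℕ}

/-- The parameters of two networks differ by at most `δ`. -/
structure Close (κ L : ℕ) (δ : ℝ) (θ θ' : Param d c) : Prop where
  RU : ∀ i, |θ.RU i - θ'.RU i| ≤ δ
  RX : ∀ i j, |θ.RX i j - θ'.RX i j| ≤ δ
  R0 : ∀ i, |θ.R0 i - θ'.R0 i| ≤ δ
  QV : ∀ i, |θ.QV i - θ'.QV i| ≤ δ
  Q0 : |θ.Q0 - θ'.Q0| ≤ δ
  W : ∀ l < L, ∀ i j, |θ.W l i j - θ'.W l i j| ≤ δ
  b : ∀ l < L, ∀ i, |θ.b l i - θ'.b l i| ≤ δ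
  Pre : ∀ l < L, ∀ k ∈ box d κ, ∀ i j, |(θ.P l k i j).re - (θ'.P l k i j).re| ≤ δ
  Pim : ∀ l < L, ∀ k ∈ box d κ, ∀ i j, |(θ.P l k i j).im - (θ'.P l k i j).im| ≤ δ

lemma abs_max_sub_max_le (a b : ℝ) : |max 0 a - max 0 b| ≤ |a - b| := by
  have := abs_max_sub_max_le_abs a b 0
  rwa [max_comm a 0, max_comm b 0] at this

lemma vn_diff_le {κ L : ℕ} {B δ : ℝ} (hc : 0 < c) (hB : 1 ≤ B) (hδ : 0 ≤ δ) {θ θ' : Param d c}
    (hθ : Bounded κ L B θ) (hθ' : Bounded κ L B θ') (hcl : Close κ L δ θ θ')
    {u : (Fin d → ℝ) → ℝ} (hu : MemLp u 2 (cube d)) :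
    ∀ l ≤ L, vn (fun x i => state κ θ u l x i - state κ θ' u l x i) ≤
      δ * (4 * gT d c κ B) ^ (l + 1) * (1 + nrm u) := by
  have hB0 : 0 ≤ B := by linarith
  have hT := one_le_gT (d := d) (κ := κ) hc hB
  have hbd := vn_state_le hc hB hθ' hu
  have hTd : gT d c κ B = (c : ℝ) * B * (2 * ((box d κ).card : ℝ) + 1) * (d + 1) := rfl
  generalize gT d c κ B = T at *
  have hc1 : (1 : ℝ) ≤ c := by exact_mod_cast hc
  have hn := nrm_nonneg u
  have hN : (0 : ℝ) ≤ (box d κ).card := by positivity
  have hd : (0 : ℝ) ≤ d := by positivity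
  have hcT : (c : ℝ) * (2 * ((box d κ).card : ℝ) + 1) * B ≤ T := by
    rw [hTd]
    have e4 : 0 ≤ (c : ℝ) * (2 * ((box d κ).card : ℝ) + 1) * B := by positivity
    calc (c : ℝ) * (2 * ((box d κ).card : ℝ) + 1) * B =
        (c : ℝ) * (2 * ((box d κ).card : ℝ) + 1) * B * 1 := by ring
      _ ≤ (c : ℝ) * (2 * ((box d κ).card : ℝ) + 1) * B * ((d : ℝ) + 1) :=
        mul_le_mul_of_nonneg_left (by linarith) e4
      _ = _ := by ring
  have hcT' : (c : ℝ) * (2 * ((box d κ).card : ℝ) + 1) ≤ T := by
    refine le_trans ?_ hcT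
    have e4 : 0 ≤ (c : ℝ) * (2 * ((box d κ).card : ℝ) + 1) := by positivity
    nlinarith
  intro l
  induction l with
  | zero =>
    intro _
    have h1 : ∀ i, nrm (fun x => state κ θ u 0 x i - state κ θ' u 0 x i) ≤
        δ * nrm u + (δ * d + δ) := by
      intro i
      have := nrm_le_of (Finset.univ : Finset Unit) (fun _ => δ) (fun _ => u) (δ * d + δ)
        (fun _ => hδ) (by positivity) (fun _ => hu)
        (fun x => state κ θ u 0 x i - state κ θ' u 0 x i) (by
          filter_upwards [ae_affine (fun j => θ.RX i j - θ'.RX i j) (hcl.RX i)] with x hx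
          simp only [state, Finset.univ_unique, Finset.sum_singleton]
          have e1 : |(θ.RU i - θ'.RU i) * u x| ≤ δ * |u x| := by
            rw [abs_mul]; gcongr; exact hcl.RU i
          have e2 : θ.RU i * u x + ∑ j, θ.RX i j * x j + θ.R0 i -
              (θ'.RU i * u x + ∑ j, θ'.RX i j * x j + θ'.R0 i) =
              (θ.RU i - θ'.RU i) * u x + ∑ j, (θ.RX i j - θ'.RX i j) * x j +
              (θ.R0 i - θ'.R0 i) := by
            have : ∑ j, (θ.RX i j - θ'.RX i j) * x j = ∑ j, θ.RX i j * x j -
                ∑ j, θ'.RX i j * x j := by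
              rw [← Finset.sum_sub_distrib]
              exact Finset.sum_congr rfl fun j _ => by ring
            rw [this]; ring
          rw [e2]
          refine (abs_add_three _ _ _).trans ?_
          have := hcl.R0 i
          linarith)
      simpa using this
    have h2 : vn (fun x i => state κ θ u 0 x i - state κ θ' u 0 x i) ≤
        c * (δ * nrm u + (δ * d + δ)) := by
      unfold vn
      refine (Finset.sum_le_sum fun i _ => h1 i).trans ?_
      rw [Finset.sum_const, Finset.card_univ, Fintype.card_fin, nsmul_eq_mul]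
    have h3 : (c : ℝ) * (δ * nrm u + (δ * d + δ)) ≤ δ * T * (1 + nrm u) := by
      have e1 : δ * nrm u + (δ * d + δ) ≤ δ * (d + 1) * (1 + nrm u) := by
        have : 0 ≤ δ * d * nrm u := by positivity
        nlinarith
      have e2 : (c : ℝ) * (δ * (d + 1) * (1 + nrm u)) ≤ δ * T * (1 + nrm u) := by
        have e5 : (c : ℝ) * (d + 1) ≤ T := by
          rw [hTd]
          have e6 : 0 ≤ (c : ℝ) * (d + 1) := by positivity
          have e7 : 1 ≤ B * (2 * ((box d κ).card : ℝ) + 1) :=
            one_le_mul_of_one_le_of_one_le hB (by linarith)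
          calc (c : ℝ) * (d + 1) = (c : ℝ) * (d + 1) * 1 := by ring
            _ ≤ (c : ℝ) * (d + 1) * (B * (2 * ((box d κ).card : ℝ) + 1)) :=
              mul_le_mul_of_nonneg_left e7 e6
            _ = _ := by ring
        calc (c : ℝ) * (δ * (d + 1) * (1 + nrm u)) = δ * ((c : ℝ) * (d + 1)) * (1 + nrm u) := by
              ring
          _ ≤ δ * T * (1 + nrm u) := by gcongr
      exact (mul_le_mul_of_nonneg_left e1 (by positivity)).trans e2
    have h4 : δ * T * (1 + nrm u) ≤ δ * (4 * T) ^ (0 + 1) * (1 + nrm u) := by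
      rw [zero_add, pow_one]
      have : 0 ≤ δ * T * (1 + nrm u) := by positivity
      nlinarith
    linarith
  | succ l ih =>
    intro hl
    have ih := ih (by omega)
    have hbl := hbd l (by omega)
    have hm := memLp_state κ θ hu l
    have hm' := memLp_state κ θ' hu l
    set D := vn (fun x i => state κ θ u l x i - state κ θ' u l x i) with hD
    set A := vn (state κ θ' u l) with hA
    have hD0 : 0 ≤ D := vn_nonneg _
    have hA0 : 0 ≤ A := vn_nonneg _
    have h1 : ∀ i, nrm (fun x => state κ θ u (l + 1) x i - state κ θ' u (l + 1) x i) ≤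
        B * D + δ * A + (δ + (box d κ).card * (2 * B * D + 2 * δ * A)) := by
      intro i
      have := nrm_le_of (Finset.univ : Finset (Fin c ⊕ Fin c)) (Sum.elim (fun _ => B) (fun _ => δ))
        (Sum.elim (fun j x => state κ θ u l x j - state κ θ' u l x j)
          (fun j x => state κ θ' u l x j))
        (δ + (box d κ).card * (2 * B * D + 2 * δ * A))
        (by rintro (j | j); exacts [hB0, hδ]) (by positivity)
        (by rintro (j | j); exacts [(hm j).sub (hm' j), hm' j])
        (fun x => state κ θ u (l + 1) x i - state κ θ' u (l + 1) x i) (by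
          refine Filter.Eventually.of_forall fun x => ?_
          rw [Fintype.sum_sum_type]
          simp only [Sum.elim_inl, Sum.elim_inr, state]
          refine (abs_max_sub_max_le _ _).trans ?_
          have e2 : ∑ j, θ.W l i j * state κ θ u l x j + θ.b l i +
              (mult κ (θ.P l) (state κ θ u l) x i).re -
              (∑ j, θ'.W l i j * state κ θ' u l x j + θ'.b l i +
              (mult κ (θ'.P l) (state κ θ' u l) x i).re) =
              (∑ j, θ.W l i j * (state κ θ u l x j - state κ θ' u l x j)) +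
              (∑ j, (θ.W l i j - θ'.W l i j) * state κ θ' u l x j) +
              ((θ.b l i - θ'.b l i) + (mult κ (θ.P l) (state κ θ u l) x i -
                mult κ (θ'.P l) (state κ θ' u l) x i).re) := by
            have : ∑ j, θ.W l i j * state κ θ u l x j - ∑ j, θ'.W l i j * state κ θ' u l x j =
                (∑ j, θ.W l i j * (state κ θ u l x j - state κ θ' u l x j)) +
                (∑ j, (θ.W l i j - θ'.W l i j) * state κ θ' u l x j) := by
              rw [← Finset.sum_sub_distrib, ← Finset.sum_add_distrib]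
              exact Finset.sum_congr rfl fun j _ => by ring
            rw [Complex.sub_re]
            linarith
          rw [e2]
          refine (abs_add_three _ _ _).trans ?_
          have e3 : |∑ j, θ.W l i j * (state κ θ u l x j - state κ θ' u l x j)| ≤
              ∑ j, B * |state κ θ u l x j - state κ θ' u l x j| := by
            refine (Finset.abs_sum_le_sum_abs _ _).trans (Finset.sum_le_sum fun j _ => ?_)
            rw [abs_mul]
            gcongr
            exact hθ.W l (by omega) i j
          have e4 : |∑ j, (θ.W l i j - θ'.W l i j) * state κ θ' u l x j| ≤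
              ∑ j, δ * |state κ θ' u l x j| := by
            refine (Finset.abs_sum_le_sum_abs _ _).trans (Finset.sum_le_sum fun j _ => ?_)
            rw [abs_mul]
            gcongr
            exact hcl.W l (by omega) i j
          have e5 : |(θ.b l i - θ'.b l i) + (mult κ (θ.P l) (state κ θ u l) x i -
                mult κ (θ'.P l) (state κ θ' u l) x i).re| ≤
              δ + (box d κ).card * (2 * B * D + 2 * δ * A) := by
            refine (abs_add_le _ _).trans (add_le_add (hcl.b l (by omega) i) ?_)
            refine (Complex.abs_re_le_norm _).trans ?_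
            exact norm_mult_sub_le (by positivity) (by positivity) hm hm' i
              (fun k hk j => norm_le_of_parts (hθ.Pre l (by omega) k hk i j)
                (hθ.Pim l (by omega) k hk i j))
              (fun k hk j => norm_le_of_parts
                (by rw [Complex.sub_re]; exact hcl.Pre l (by omega) k hk i j)
                (by rw [Complex.sub_im]; exact hcl.Pim l (by omega) k hk i j)) x
          linarith)
      refine this.trans ?_
      rw [Fintype.sum_sum_type]
      simp only [Sum.elim_inl, Sum.elim_inr]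
      rw [← Finset.mul_sum, ← Finset.mul_sum]
      exact le_rfl
    have h2 : vn (fun x i => state κ θ u (l + 1) x i - state κ θ' u (l + 1) x i) ≤
        c * (B * D + δ * A + (δ + (box d κ).card * (2 * B * D + 2 * δ * A))) := by
      rw [vn]
      refine (Finset.sum_le_sum fun i _ => h1 i).trans ?_
      rw [Finset.sum_const, Finset.card_univ, Fintype.card_fin, nsmul_eq_mul]
    have h3 : (c : ℝ) * (B * D + δ * A + (δ + (box d κ).card * (2 * B * D + 2 * δ * A))) ≤
        T * D + T * (δ * (A + 1)) := by
      have e1 : (c : ℝ) * (B * D + δ * A + (δ + (box d κ).card * (2 * B * D + 2 * δ * A))) ≤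
          (c : ℝ) * (2 * ((box d κ).card : ℝ) + 1) * B * D +
          (c : ℝ) * (2 * ((box d κ).card : ℝ) + 1) * (δ * (A + 1)) := by
        have : 0 ≤ (c : ℝ) * ((box d κ).card : ℝ) * δ := by positivity
        nlinarith
      refine e1.trans (add_le_add ?_ ?_)
      · exact mul_le_mul_of_nonneg_right hcT hD0
      · exact mul_le_mul_of_nonneg_right hcT' (by positivity)
    have h5 : δ * (A + 1) ≤ δ * ((4 * T) ^ (l + 1) * (1 + nrm u)) := by
      apply mul_le_mul_of_nonneg_left _ hδ
      refine hbl.trans (mul_le_mul_of_nonneg_right ?_ (by linarith))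
      exact pow_le_pow_left₀ (by linarith) (by linarith) _
    calc vn (fun x i => state κ θ u (l + 1) x i - state κ θ' u (l + 1) x i)
        ≤ T * D + T * (δ * (A + 1)) := h2.trans h3
      _ ≤ T * (δ * (4 * T) ^ (l + 1) * (1 + nrm u)) + T * (δ * ((4 * T) ^ (l + 1) * (1 + nrm u))) :=
          add_le_add (mul_le_mul_of_nonneg_left ih (by linarith))
            (mul_le_mul_of_nonneg_left h5 (by linarith))
      _ = 2 * T * (δ * (4 * T) ^ (l + 1) * (1 + nrm u)) := by ring
      _ ≤ 4 * T * (δ * (4 * T) ^ (l + 1) * (1 + nrm u)) := by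
          apply mul_le_mul_of_nonneg_right (by linarith)
          have : 0 ≤ 4 * T := by linarith
          positivity
      _ = _ := by ring

/-- The outputs of networks with close parameters are close. -/
theorem out_close {κ L : ℕ} {B δ : ℝ} (hc : 0 < c) (hB : 1 ≤ B) (hδ : 0 ≤ δ) {θ θ' : Param d c}
    (hθ : Bounded κ L B θ) (hθ' : Bounded κ L B θ') (hcl : Close κ L δ θ θ')
    {u : (Fin d → ℝ) → ℝ} (hu : MemLp u 2 (cube d)) :
    eLpNorm (fun x => out κ L θ u x - out κ L θ' u x) 2 (cube d) ≤
      ENNReal.ofReal (δ * (4 * gT d c κ B) ^ (L + 2) * (1 + nrm u)) := by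
  have hB0 : 0 ≤ B := by linarith
  have hT := one_le_gT (d := d) (κ := κ) hc hB
  have hBT : B ≤ gT d c κ B := by
    have h1 : (1 : ℝ) ≤ c := by exact_mod_cast hc
    have h2 : (1 : ℝ) ≤ 2 * ((box d κ).card : ℝ) + 1 := by
      have : (0 : ℝ) ≤ (box d κ).card := by positivity
      linarith
    have h3 : (1 : ℝ) ≤ (d : ℝ) + 1 := by
      have : (0 : ℝ) ≤ d := by positivity
      linarith
    unfold gT
    calc B = B * 1 := by ring
      _ ≤ B * (c * (2 * ((box d κ).card : ℝ) + 1) * (d + 1)) := by
        apply mul_le_mul_of_nonneg_left _ hB0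
        exact one_le_mul_of_one_le_of_one_le (one_le_mul_of_one_le_of_one_le h1 h2) h3
      _ = _ := by ring
  have hD := vn_diff_le hc hB hδ hθ hθ' hcl hu L le_rfl
  have hA := vn_state_le hc hB hθ' hu L le_rfl
  generalize gT d c κ B = T at *
  have hn := nrm_nonneg u
  have hm := memLp_state κ θ hu L
  have hm' := memLp_state κ θ' hu L
  have key := eLpNorm_le_of (Finset.univ : Finset (Fin c ⊕ Fin c))
    (Sum.elim (fun _ => B) (fun _ => δ))
    (Sum.elim (fun j x => state κ θ u L x j - state κ θ' u L x j) (fun j x => state κ θ' u L x j))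
    δ (by rintro (j | j); exacts [hB0, hδ]) hδ
    (by rintro (j | j); exacts [(hm j).sub (hm' j), hm' j])
    (fun x => out κ L θ u x - out κ L θ' u x) (by
      refine Filter.Eventually.of_forall fun x => ?_
      rw [Fintype.sum_sum_type]
      simp only [Sum.elim_inl, Sum.elim_inr, out]
      have e2 : ∑ i, θ.QV i * state κ θ u L x i + θ.Q0 -
          (∑ i, θ'.QV i * state κ θ' u L x i + θ'.Q0) =
          (∑ j, θ.QV j * (state κ θ u L x j - state κ θ' u L x j)) +
          (∑ j, (θ.QV j - θ'.QV j) * state κ θ' u L x j) + (θ.Q0 - θ'.Q0) := by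
        have : ∑ j, θ.QV j * state κ θ u L x j - ∑ j, θ'.QV j * state κ θ' u L x j =
            (∑ j, θ.QV j * (state κ θ u L x j - state κ θ' u L x j)) +
            (∑ j, (θ.QV j - θ'.QV j) * state κ θ' u L x j) := by
          rw [← Finset.sum_sub_distrib, ← Finset.sum_add_distrib]
          exact Finset.sum_congr rfl fun j _ => by ring
        linarith
      rw [e2]
      refine (abs_add_three _ _ _).trans ?_
      have e3 : |∑ j, θ.QV j * (state κ θ u L x j - state κ θ' u L x j)| ≤
          ∑ j, B * |state κ θ u L x j - state κ θ' u L x j| := by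
        refine (Finset.abs_sum_le_sum_abs _ _).trans (Finset.sum_le_sum fun j _ => ?_)
        rw [abs_mul]
        gcongr
        exact hθ.QV j
      have e4 : |∑ j, (θ.QV j - θ'.QV j) * state κ θ' u L x j| ≤
          ∑ j, δ * |state κ θ' u L x j| := by
        refine (Finset.abs_sum_le_sum_abs _ _).trans (Finset.sum_le_sum fun j _ => ?_)
        rw [abs_mul]
        gcongr
        exact hcl.QV j
      have e5 := hcl.Q0
      linarith)
  refine key.trans (ENNReal.ofReal_le_ofReal ?_)
  rw [Fintype.sum_sum_type]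
  simp only [Sum.elim_inl, Sum.elim_inr]
  rw [← Finset.mul_sum, ← Finset.mul_sum]
  have f1 : ∑ i, nrm (fun x => state κ θ u L x i - state κ θ' u L x i) =
      vn (fun x i => state κ θ u L x i - state κ θ' u L x i) := rfl
  have f2 : ∑ i, nrm (fun x => state κ θ' u L x i) = vn (state κ θ' u L) := rfl
  rw [f1, f2]
  set D := vn (fun x i => state κ θ u L x i - state κ θ' u L x i)
  set A := vn (state κ θ' u L)
  have g1 : B * D ≤ T * (δ * (4 * T) ^ (L + 1) * (1 + nrm u)) :=
    mul_le_mul hBT hD (vn_nonneg _) (by linarith)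
  have g2 : δ * A + δ ≤ δ * (4 * T) ^ (L + 1) * (1 + nrm u) := by
    have : δ * (A + 1) ≤ δ * ((4 * T) ^ (L + 1) * (1 + nrm u)) := by
      apply mul_le_mul_of_nonneg_left _ hδ
      refine hA.trans (mul_le_mul_of_nonneg_right ?_ (by linarith))
      exact pow_le_pow_left₀ (by linarith) (by linarith) _
    linarith
  have g3 : 0 ≤ δ * (4 * T) ^ (L + 1) * (1 + nrm u) := by
    have : 0 ≤ 4 * T := by linarith
    positivity
  calc B * D + δ * A + δ ≤ T * (δ * (4 * T) ^ (L + 1) * (1 + nrm u)) +
        δ * (4 * T) ^ (L + 1) * (1 + nrm u) := by linarith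
    _ ≤ 4 * T * (δ * (4 * T) ^ (L + 1) * (1 + nrm u)) := by nlinarith
    _ = _ := by ring

end Pool.Agent.P8H32.FN
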