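import Pool.Agent.P8H32.FN.Fool

set_option autoImplicit false

namespace Pool.Agent.P8H32.FN

open MeasureTheory
open scoped ENNReal

variable {d : ℕ} {K : Set (L2 d)} {ρ : Measure (L2 d)}

lemma continuous_val {ι : Type} [Fintype ι] (N : SNet ι) : ∀ (t : ℕ) (i : ι),
    Continuous fun s => N.val s t i
  | 0, i => by
    simp only [SNet.val]
    fun_prop
  | t + 1, i => by
    have ih := continuous_val N t
    simp only [SNet.val]
    exact continuous_const.max ((continuous_finsetSum _ fun j _ =>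
      continuous_const.mul (ih j)).add continuous_const)

lemma continuous_res {ι : Type} [Fintype ι] (N : SNet ι) (T : ℕ) : Continuous (N.res T) := by
  unfold SNet.res
  exact continuous_finsetSum _ fun i _ => continuous_const.mul (continuous_val N T i)

/-- Lower bound for the norm of a fooling function. -/
lemma norm_lower (hK : IsCompact K) (hρ : ρ Kᶜ = 0) {ψ : C(ℝ, ℝ)} {ι : Type} (S : Finset ι)
    (E : ι → Set (L2 d)) (hE : ∀ i ∈ S, MeasurableSet (E i))
    (hd : Set.PairwiseDisjoint (S : Set ι) E) {η κ : ℝ} (hη : 0 ≤ η) (hκ : 0 ≤ κ)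
    (hψ : ∀ i ∈ S, ∀ u ∈ E i, η ≤ |ψ (mean u)|)
    (hm : ∀ i ∈ S, ENNReal.ofReal κ ≤ ρ (E i)) :
    ENNReal.ofReal (η * Real.sqrt (S.card * κ)) ≤ eLpNorm (ext (constf K ψ)) 2 ρ := by
  have h1 : ENNReal.ofReal (η ^ 2 * (S.card * κ)) ≤
      ∫⁻ u, ‖ext (constf K ψ) u‖ₑ ^ (2 : ℝ) ∂ρ := by
    calc ENNReal.ofReal (η ^ 2 * (S.card * κ)) = ∑ i ∈ S, ENNReal.ofReal (η ^ 2 * κ) := by
          rw [Finset.sum_const, nsmul_eq_mul, ← ENNReal.ofReal_natCast, ← ENNReal.ofReal_mul
            (by positivity)]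
          congr 1
          ring
      _ ≤ ∑ i ∈ S, ∫⁻ u in E i, ‖ext (constf K ψ) u‖ₑ ^ (2 : ℝ) ∂ρ := by
          refine Finset.sum_le_sum fun i hi => ?_
          calc ENNReal.ofReal (η ^ 2 * κ) = ENNReal.ofReal (η ^ 2) * ENNReal.ofReal κ :=
                ENNReal.ofReal_mul (by positivity)
            _ ≤ ENNReal.ofReal (η ^ 2) * ρ (E i) := by gcongr; exact hm i hi
            _ = ∫⁻ u in E i, ENNReal.ofReal (η ^ 2) ∂ρ := by rw [setLIntegral_const]
            _ ≤ _ := by
              apply lintegral_mono_ae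
              have hae : ∀ᵐ u ∂ρ, u ∈ K := hρ
              rw [ae_restrict_iff' (hE i hi)]
              filter_upwards [hae] with u hu hui
              have e1 : ext (constf K ψ) u = constf K ψ ⟨u, hu⟩ := ext_coe _ ⟨u, hu⟩
              have e2 : ‖constf K ψ ⟨u, hu⟩‖ = |ψ (mean (u : (Fin d → ℝ) → ℝ))| := norm_constL _
              rw [e1, ← ofReal_norm, e2, ENNReal.ofReal_rpow_of_nonneg (abs_nonneg _) (by norm_num)]
              apply ENNReal.ofReal_le_ofReal
              rw [Real.rpow_two]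
              exact pow_le_pow_left₀ hη (hψ i hi u hui) 2
      _ = ∫⁻ u in ⋃ i ∈ S, E i, ‖ext (constf K ψ) u‖ₑ ^ (2 : ℝ) ∂ρ := by
          rw [lintegral_biUnion_finset hd hE]
      _ ≤ _ := setLIntegral_le_lintegral _ _
  rw [eLpNorm_eq_lintegral_rpow_enorm_toReal (by norm_num) (by norm_num)]
  simp only [ENNReal.toReal_ofNat]
  have h2 : η * Real.sqrt (S.card * κ) = (η ^ 2 * (S.card * κ)) ^ (1 / 2 : ℝ) := by
    rw [← Real.sqrt_eq_rpow, Real.sqrt_mul (sq_nonneg η) (S.card * κ), Real.sqrt_sq hη]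
  rw [h2, ← ENNReal.ofReal_rpow_of_nonneg (by positivity) (by norm_num)]
  exact ENNReal.rpow_le_rpow h1 (by norm_num)

lemma measurable_mean_set (s t : ℝ) :
    MeasurableSet {u : L2 d | s ≤ mean (u : (Fin d → ℝ) → ℝ) ∧ mean (u : (Fin d → ℝ) → ℝ) ≤ t} :=
  ((isClosed_le continuous_const continuous_mean).inter
    (isClosed_le continuous_mean continuous_const)).measurableSet

lemma neg_constf (ψ : C(ℝ, ℝ)) : -constf K ψ = constf K (-ψ) := by
  ext1 u
  show -(Lp.constL 2 (cube d) ℝ (ψ (mean ((u : L2 d) : (Fin d → ℝ) → ℝ)))) =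
    Lp.constL 2 (cube d) ℝ (-ψ (mean ((u : L2 d) : (Fin d → ℝ) → ℝ)))
  rw [map_neg]

/-- the bounds for the weights of the network -/
lemma hnet_bd {A B T : ℕ} {h x amp V : ℝ} {w : Fin A → Fin T → Fin B → ℝ} (hV : 8 ≤ V)
    (hh : |h| ≤ V) (hx : |x| + A + 1 ≤ V) (hamp : |amp| ≤ V) (hw : ∀ i t j, |w i t j| ≤ 1)
    (hM : 2 * (T : ℝ) * B ≤ V) (hb : (T : ℝ) * B / 2 + (T + 2) * B + B + 1 ≤ V) :
    (hnet T h x amp w).Bd (T + 3) V := by
  have hV0 : 0 ≤ V := by linarith
  have z : |(0 : ℝ)| ≤ V := by rw [abs_zero]; exact hV0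
  have o : |(1 : ℝ)| ≤ V := by rw [abs_one]; linarith
  have o' : |(-1 : ℝ)| ≤ V := by rw [abs_neg, abs_one]; linarith
  have hrho : ∀ r, 0 ≤ rho r ∧ rho r ≤ 1 := by
    intro r
    fin_cases r <;> simp [rho] <;> norm_num
  have hrho' : ∀ r, 0 ≤ rho' r ∧ rho' r ≤ 1 := by
    intro r
    fin_cases r <;> simp [rho'] <;> norm_num
  refine ⟨?_, ?_, ?_, ?_, ?_⟩
  · rintro (y | y)
    · exact hh
    · exact z
  · rintro (y | y)
    · show |-x - (y.1 : ℕ) - rho y.2| ≤ V
      have h1 := hrho y.2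
      have h2 : ((y.1 : ℕ) : ℝ) ≤ A := by exact_mod_cast y.1.2.le
      have h3 : (0 : ℝ) ≤ ((y.1 : ℕ) : ℝ) := by positivity
      have h4 := abs_le.1 (le_refl |x|)
      rw [abs_le]
      constructor <;> linarith [h4.1, h4.2, h1.1, h1.2]
    · exact z
  · intro t ht i j
    have hpat : ∀ i' : Fin A, ∀ j' : Fin B, |(if ht : 1 ≤ t ∧ t ≤ T then
        w i' ⟨t - 1, by omega⟩ j' else 0 : ℝ)| ≤ V := by
      intro i' j'
      split_ifs
      · exact (hw _ _ _).trans (by linarith)
      · exact z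
    have hMV : |2 * (T : ℝ) * B| ≤ V := by rw [abs_of_nonneg (by positivity)]; exact hM
    rcases i with i | i | i | i | i | i | i <;> rcases j with j | j | j | j | j | j | j <;>
      simp only [hnet, hW] <;> first
      | exact z
      | exact o
      | exact hMV
      | exact hpat _ _
      | (split_ifs <;> first | exact o | exact z)
      | skip
    · have : ∀ r, |cTau r| ≤ V := by
        intro r
        fin_cases r <;> simp [cTau] <;> linarith
      exact this _
    · have : ∀ r, |cGa r| ≤ V := by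
        intro r
        fin_cases r <;> simp [cGa] <;> linarith
      split_ifs
      · exact this _
      · exact z
    · have : ∀ r, |cFine r| ≤ V := by
        intro r
        fin_cases r <;> simp [cFine] <;> linarith
      split_ifs
      · exact this _
      · exact z
  · intro t ht i
    rcases i with i | i | i | i | i | i | i
    · exact z
    · exact z
    · exact z
    · show |-(2 * (T : ℝ) * B / 4) - ((t - 1) * B + i.1 : ℕ) - rho' i.2| ≤ V
      have h1 := hrho' i.2
      have h2 : (((t - 1) * B + i.1 : ℕ) : ℝ) ≤ (T + 2) * B + B := by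
        have e1 : (t - 1) * B + i.1 ≤ (T + 2) * B + B :=
          add_le_add (Nat.mul_le_mul_right _ (by omega)) i.1.2.le
        exact_mod_cast e1
      have h3 : (0 : ℝ) ≤ (((t - 1) * B + i.1 : ℕ) : ℝ) := by positivity
      have h4 : (0 : ℝ) ≤ (T : ℝ) * B := by positivity
      rw [abs_le]
      constructor <;> linarith [h1.1, h1.2]
    · exact z
    · exact o'
    · exact z
  · intro i
    rcases i with i | i | i | i | i | i | i
    · exact z
    · exact z
    · exact z
    · exact z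
    · exact z
    · exact z
    · exact hamp

end Pool.Agent.P8H32.FN
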