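import Pool.Agent.P8H32.FN.Low

set_option autoImplicit false

namespace Pool.Agent.P8H32.FN

open MeasureTheory
open scoped ENNReal

variable {d : ℕ} {K : Set (L2 d)} {ρ : Measure (L2 d)}

lemma hnet_mem {A B T m : ℕ} {h x amp : ℝ} {w : Fin A → Fin T → Fin B → ℝ}
    (hc : 6 * A + 5 * B + 2 ≤ m) (hT : T + 4 ≤ m) (hw0 : ∀ i t j, 0 ≤ w i t j)
    (hBd : (hnet T h x amp w).Bd (T + 3) (Real.exp m)) :
    (fun (u : L2 d) (_ : Fin d → ℝ) => amp * phi w (h * mean u - x)) ∈ Nets d m := by
  have h1 := SNet.mem_nets (d := d) (N := hnet T h x amp w) (m := m) (T := T + 3)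
    (by rw [card_ch]; exact hc) (by rw [card_ch]; omega) (by omega) hBd
  have h2 : (fun (u : L2 d) (_ : Fin d → ℝ) => (hnet T h x amp w).res (T + 3) (mean u)) =
      fun (u : L2 d) (_ : Fin d → ℝ) => amp * phi w (h * mean u - x) := by
    funext u _
    exact res_hnet _ hw0
  rwa [h2] at h1

lemma continuous_phi {A B T : ℕ} {h x amp : ℝ} {w : Fin A → Fin T → Fin B → ℝ}
    (hw0 : ∀ i t j, 0 ≤ w i t j) : Continuous fun s => amp * phi w (h * s - x) := by
  have := continuous_res (hnet T h x amp w) (T + 3)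
  have h2 : (hnet T h x amp w).res (T + 3) = fun s => amp * phi w (h * s - x) := by
    funext s
    exact res_hnet _ hw0
  rwa [h2] at this

/-- the width at `n = q ^ 3` -/
lemma width_cube (hK : IsCompact K) (hρ : ρ Kᶜ = 0) {a b c : ℝ} (hab : a < b) (hc : 0 < c)
    (hden : ∀ s t : ℝ, a ≤ s → s ≤ t → t ≤ b →
      ENNReal.ofReal (c * (t - s)) ≤ ρ {u | s ≤ ∫ x, u x ∂(cube d) ∧ ∫ x, u x ∂(cube d) ≤ t})
    {α : ℝ} (hα : 0 < α) {q : ℕ} (hq : 1 ≤ q) (hq1 : 1 / (b - a) ≤ q) (hq2 : |a| / (b - a) ≤ q) :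
    ENNReal.ofReal (((17 * q + 4 : ℕ) : ℝ) ^ (-α) * (Real.sqrt (c * (b - a)) / 8)) ≤
      width ρ (Ball K α) (q ^ 3) := by
  classical
  have hba : 0 < b - a := by linarith
  have hq0 : (1 : ℝ) ≤ q := by exact_mod_cast hq
  set m := 17 * q + 4 with hm
  have hm1 : 1 ≤ m := by omega
  set amp : ℝ := (m : ℝ) ^ (-α) with hamp
  have hmr : (1 : ℝ) ≤ m := by exact_mod_cast hm1
  have hamp0 : 0 < amp := by
    rw [hamp]
    exact Real.rpow_pos_of_pos (by linarith) _
  have hamp1 : amp ≤ 1 := by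
    rw [hamp]
    exact Real.rpow_le_one_of_one_le_of_nonpos hmr (by linarith)
  set h : ℝ := 2 * q / (b - a) with hh
  have hh0 : 0 < h := by rw [hh]; positivity
  have hh1 : h ≤ 2 * q ^ 2 := by
    rw [hh]
    calc 2 * (q : ℝ) / (b - a) = 2 * q * (1 / (b - a)) := by ring
      _ ≤ 2 * q * q := by gcongr
      _ = 2 * q ^ 2 := by ring
  have hx1 : |h * a| ≤ 2 * q ^ 2 := by
    rw [abs_mul, abs_of_pos hh0, hh]
    calc 2 * (q : ℝ) / (b - a) * |a| = 2 * q * (|a| / (b - a)) := by ring
      _ ≤ 2 * q * q := by gcongr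
      _ = 2 * q ^ 2 := by ring
  have hV : (144 : ℝ) * q ^ 2 ≤ Real.exp m := by
    have h1 := Real.quadratic_le_exp_of_nonneg (x := (m : ℝ)) (by linarith)
    have h2 : (17 : ℝ) * q ≤ m := by rw [hm]; push_cast; linarith
    nlinarith
  have hq3 : (q : ℝ) ≤ q ^ 2 := by nlinarith
  refine width_ge hK hρ fun p => ?_
  -- the blocked cells
  let blocked : Fin (2 * q) × Fin q × Fin q → Prop := fun c =>
    ∃ i, Cell (2 * q) q q c (h * mean ((p i : L2 d) : (Fin d → ℝ) → ℝ) - h * a)
  let w : Fin (2 * q) → Fin q → Fin q → ℝ := fun i t j => if blocked (i, t, j) then 0 else 1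
  have hw01 : ∀ i t j, w i t j = 0 ∨ w i t j = 1 := by
    intro i t j
    simp only [w]
    split_ifs
    · exact Or.inl rfl
    · exact Or.inr rfl
  have hw0 : ∀ i t j, 0 ≤ w i t j := fun i t j => by rcases hw01 i t j with h | h <;> rw [h]; norm_num
  have hw1 : ∀ i t j, w i t j ≤ 1 := fun i t j => by
    rcases hw01 i t j with h | h <;> rw [h]; norm_num
  let free : Finset (Fin (2 * q) × Fin q × Fin q) := Finset.univ.filter fun c => ¬ blocked c
  have hfree : q ^ 3 ≤ free.card := by
    have h1 : (Finset.univ.filter fun c => blocked c).card ≤ q ^ 3 := by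
      let g : Fin (q ^ 3) → Fin (2 * q) × Fin q × Fin q := fun i =>
        if hi : ∃ c, Cell (2 * q) q q c (h * mean ((p i : L2 d) : (Fin d → ℝ) → ℝ) - h * a)
        then hi.choose else (⟨0, by omega⟩, ⟨0, by omega⟩, ⟨0, by omega⟩)
      have h2 : (Finset.univ.filter fun c => blocked c) ⊆ Finset.univ.image g := by
        intro c hc
        obtain ⟨i, hi⟩ := (Finset.mem_filter.1 hc).2
        refine Finset.mem_image.2 ⟨i, Finset.mem_univ _, ?_⟩
        have h3 : ∃ c, Cell (2 * q) q q c (h * mean ((p i : L2 d) : (Fin d → ℝ) → ℝ) - h * a) :=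
          ⟨c, hi⟩
        have h4 : g i = h3.choose := dif_pos h3
        rw [h4]
        exact cell_unique (by omega) (by omega) h3.choose_spec hi
      calc _ ≤ (Finset.univ.image g).card := Finset.card_le_card h2
        _ ≤ (Finset.univ : Finset (Fin (q ^ 3))).card := Finset.card_image_le
        _ = q ^ 3 := by simp
    have h2 := Finset.card_filter_add_card_filter_not (s := (Finset.univ :
      Finset (Fin (2 * q) × Fin q × Fin q))) (fun c => blocked c)
    have h3 : (Finset.univ : Finset (Fin (2 * q) × Fin q × Fin q)).card = 2 * q ^ 3 := by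
      simp only [Finset.card_univ, Fintype.card_prod, Fintype.card_fin]
      ring
    have h4 : free.card = (Finset.univ.filter fun c => ¬ blocked c).card := rfl
    omega
  let ψ : C(ℝ, ℝ) := ⟨fun s => amp * phi w (h * s - h * a), continuous_phi hw0⟩
  have hψb : ∀ s, |ψ s| ≤ amp := by
    intro s
    show |amp * phi w (h * s - h * a)| ≤ amp
    rw [abs_mul, abs_of_pos hamp0, abs_of_nonneg (phi_nonneg _ _)]
    calc amp * phi w (h * s - h * a) ≤ amp * 1 := by
          gcongr
          exact phi_le_one hw0 hw1 _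
      _ = amp := mul_one _
  have hmem : (fun (u : L2 d) (_ : Fin d → ℝ) => ψ (mean u)) ∈ Nets d m := by
    apply hnet_mem (by omega) (by omega) hw0
    apply hnet_bd
    · linarith [hV, hq3]
    · rw [abs_of_pos hh0]; nlinarith
    · push_cast
      nlinarith
    · rw [abs_of_pos hamp0]; nlinarith
    · intro i t j
      rw [abs_of_nonneg (hw0 i t j)]
      exact hw1 i t j
    · nlinarith
    · nlinarith
  refine ⟨constf K ψ, fool_mem hα hm1 hmem hψb, ?_, ?_, ?_⟩
  · rw [neg_constf]
    refine fool_mem hα hm1 (nets_neg hmem) fun s => ?_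
    show |-ψ s| ≤ _
    rw [abs_neg]
    exact hψb s
  · intro i
    have h1 : phi w (h * mean ((p i : L2 d) : (Fin d → ℝ) → ℝ) - h * a) = 0 := by
      by_contra hne
      obtain ⟨c, hc1, hc2⟩ := phi_ne hw01 hne
      have hb : blocked c := ⟨i, hc2⟩
      have : w c.1 c.2.1 c.2.2 = 0 := if_pos hb
      rw [this] at hc1
      norm_num at hc1
    show Lp.constL 2 (cube d) ℝ (amp * phi w (h * mean ((p i : L2 d) : (Fin d → ℝ) → ℝ) - h * a)) = 0
    rw [h1, mul_zero, map_zero]
  · -- the lower bound for the norm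
    let E : Fin (2 * q) × Fin q × Fin q → Set (L2 d) := fun c =>
      {u | a + ((c.1 : ℕ) + 1 / 8 + ((kk q c.2.1 c.2.2 : ℕ) + 1 / 4) / (4 * q * q)) / h ≤ mean u ∧
        mean u ≤ a + ((c.1 : ℕ) + 1 / 8 + ((kk q c.2.1 c.2.2 : ℕ) + 3 / 4) / (4 * q * q)) / h}
    have hq4 : (0 : ℝ) < 4 * q * q := by positivity
    have hpos : ∀ c, ∀ u ∈ E c, 1 / 4 ≤ pos (2 * q) q q c (h * mean u - h * a) ∧
        pos (2 * q) q q c (h * mean u - h * a) ≤ 3 / 4 := by
      rintro c u ⟨h1, h2⟩
      have e1 : ((c.1 : ℕ) + 1 / 8 + ((kk q c.2.1 c.2.2 : ℕ) + 1 / 4) / (4 * q * q)) ≤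
          h * mean u - h * a := by
        have : ((c.1 : ℕ) + 1 / 8 + ((kk q c.2.1 c.2.2 : ℕ) + 1 / 4) / (4 * q * q)) / h ≤
            mean u - a := by linarith
        rw [div_le_iff₀ hh0] at this
        linarith
      have e2 : h * mean u - h * a ≤
          ((c.1 : ℕ) + 1 / 8 + ((kk q c.2.1 c.2.2 : ℕ) + 3 / 4) / (4 * q * q)) := by
        have : mean u - a ≤
          ((c.1 : ℕ) + 1 / 8 + ((kk q c.2.1 c.2.2 : ℕ) + 3 / 4) / (4 * q * q)) / h := by linarith
        rw [le_div_iff₀ hh0] at this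
        linarith
      unfold pos
      constructor
      · have e3 := mul_le_mul_of_nonneg_left e1 hq4.le
        have e4 : (4 * (q : ℝ) * q) * (((kk q c.2.1 c.2.2 : ℕ) + 1 / 4) / (4 * q * q)) =
            (kk q c.2.1 c.2.2 : ℕ) + 1 / 4 := by field_simp
        nlinarith
      · have e3 := mul_le_mul_of_nonneg_left e2 hq4.le
        have e4 : (4 * (q : ℝ) * q) * (((kk q c.2.1 c.2.2 : ℕ) + 3 / 4) / (4 * q * q)) =
            (kk q c.2.1 c.2.2 : ℕ) + 3 / 4 := by field_simp
        nlinarith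
    have hlow := norm_lower (K := K) (ψ := ψ) hK hρ free E (fun c _ => measurable_mean_set _ _)
      (by
        intro c _ c' _ hne
        rw [Function.onFun, Set.disjoint_left]
        intro u hu hu'
        have h1 := hpos c u hu
        have h2 := hpos c' u hu'
        exact hne (cell_unique (by omega) (by omega) ⟨by linarith [h1.1], by linarith [h1.2]⟩
          ⟨by linarith [h2.1], by linarith [h2.2]⟩))
      (η := amp / 2) (κ := c * (b - a) / (16 * q ^ 3)) (by positivity) (by positivity)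
      (by
        intro c hc u hu
        have h1 := hpos c u hu
        have h2 : w c.1 c.2.1 c.2.2 = 1 := if_neg (Finset.mem_filter.1 hc).2
        have h3 := phi_mid (by omega) (by omega) hw0 h2 h1.1 h1.2
        show amp / 2 ≤ |amp * phi w (h * mean u - h * a)|
        rw [abs_of_nonneg (mul_nonneg hamp0.le (phi_nonneg _ _))]
        nlinarith)
      (by
        intro c' hc'
        have hk : (kk q c'.2.1 c'.2.2 : ℝ) + 1 ≤ (q : ℝ) * q := by
          have := kk_lt c'.2.1 c'.2.2
          exact_mod_cast this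
        have hk0 : (0 : ℝ) ≤ (kk q c'.2.1 c'.2.2 : ℕ) := by positivity
        have hi : ((c'.1 : ℕ) : ℝ) + 1 ≤ 2 * q := by
          have := c'.1.2
          exact_mod_cast this
        have h1 := hden
          (a + ((c'.1 : ℕ) + 1 / 8 + ((kk q c'.2.1 c'.2.2 : ℕ) + 1 / 4) / (4 * q * q)) / h)
          (a + ((c'.1 : ℕ) + 1 / 8 + ((kk q c'.2.1 c'.2.2 : ℕ) + 3 / 4) / (4 * q * q)) / h)
          (by
            have : 0 ≤ ((c'.1 : ℕ) + 1 / 8 + ((kk q c'.2.1 c'.2.2 : ℕ) + 1 / 4) / (4 * q * q)) / h := by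
              positivity
            linarith)
          (by gcongr; norm_num)
          (by
            have e1 : ((kk q c'.2.1 c'.2.2 : ℕ) + 3 / 4) / (4 * q * q) ≤ (1 : ℝ) / 4 := by
              rw [div_le_iff₀ hq4]
              nlinarith
            have e2 : ((c'.1 : ℕ) + 1 / 8 + ((kk q c'.2.1 c'.2.2 : ℕ) + 3 / 4) / (4 * q * q)) / h ≤
                (2 * q : ℝ) / h := by
              gcongr
              linarith
            have e3 : (2 * q : ℝ) / h = b - a := by
              rw [hh]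
              field_simp
            linarith)
        refine le_trans (ENNReal.ofReal_le_ofReal (le_of_eq ?_)) h1
        rw [hh]
        field_simp
        ring)
    refine le_trans (ENNReal.ofReal_le_ofReal ?_) hlow
    have h5 : c * (b - a) / 16 ≤ (free.card : ℝ) * (c * (b - a) / (16 * q ^ 3)) := by
      have h6 : ((q : ℝ) ^ 3) ≤ free.card := by exact_mod_cast hfree
      calc c * (b - a) / 16 = (q : ℝ) ^ 3 * (c * (b - a) / (16 * q ^ 3)) := by field_simp
        _ ≤ _ := by gcongr
    calc amp * (Real.sqrt (c * (b - a)) / 8) = amp / 2 * Real.sqrt (c * (b - a) / 16) := by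
          rw [Real.sqrt_div (by positivity)]
          have : Real.sqrt 16 = 4 := by
            rw [show (16 : ℝ) = 4 ^ 2 by norm_num, Real.sqrt_sq (by norm_num)]
          rw [this]
          ring
      _ ≤ _ := by
          gcongr

end Pool.Agent.P8H32.FN
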