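import Pool.Agent.P8H32.FN.Low2

set_option autoImplicit false

namespace Pool.Agent.P8H32.FN

open MeasureTheory
open scoped ENNReal

variable {d : ℕ} {K : Set (L2 d)} {ρ : Measure (L2 d)}

/-- **Upper bound for the optimal rate.** -/
theorem rate_le_third (hS : Setting K ρ) (hD : MeanDensity ρ) {α : ℝ} (hα : 0 < α) :
    rate ρ (Ball K α) ≤ ((α / 3 : ℝ) : EReal) := by
  obtain ⟨a, b, c, hab, hc, hden⟩ := hD
  have hba : 0 < b - a := by linarith
  refine iSup₂_le fun β hβ => ?_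
  obtain ⟨hβ0, C, hC⟩ := hβ
  rw [EReal.coe_le_coe_iff]
  by_contra hlt
  rw [not_le] at hlt
  have hε : 0 < 3 * β - α := by linarith
  set s0 : ℝ := Real.sqrt (c * (b - a)) / 8 with hs0
  have hs0p : 0 < s0 := by
    rw [hs0]
    have := Real.sqrt_pos.2 (mul_pos hc hba)
    positivity
  have h1 : Filter.Tendsto (fun q : ℕ => (q : ℝ) ^ (3 * β - α)) Filter.atTop Filter.atTop :=
    (tendsto_rpow_atTop hε).comp tendsto_natCast_atTop_atTop
  have h2 := (h1.eventually (Filter.eventually_gt_atTop (|C| * (21 : ℝ) ^ α / s0))).and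
    ((Filter.eventually_ge_atTop 1).and
    ((tendsto_natCast_atTop_atTop (R := ℝ)).eventually (Filter.eventually_ge_atTop
      (max (1 / (b - a)) (|a| / (b - a))))))
  obtain ⟨q, h3, hq1, hq2⟩ := h2.exists
  have hq0 : (1 : ℝ) ≤ q := by exact_mod_cast hq1
  have hqp : (0 : ℝ) < q := by linarith
  have h4 := width_cube (α := α) hS.compact hS.supp hab hc hden hα hq1
    ((le_max_left _ _).trans hq2) ((le_max_right _ _).trans hq2)
  have h5 := hC (q ^ 3)
  have hq3 : 1 ≤ q ^ 3 := Nat.one_le_pow _ _ hq1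
  have h6 : ENNReal.ofReal (((q ^ 3 : ℕ) : ℝ) ^ β) *
      ENNReal.ofReal (((17 * q + 4 : ℕ) : ℝ) ^ (-α) * s0) ≤ ENNReal.ofReal C := by
    rw [ofReal_natCast_rpow hq3] at h5
    exact le_trans (by gcongr) h5
  rw [← ENNReal.ofReal_mul (by positivity)] at h6
  have h7 : ((q ^ 3 : ℕ) : ℝ) ^ β * (((17 * q + 4 : ℕ) : ℝ) ^ (-α) * s0) ≤ |C| := by
    have h8 : ENNReal.ofReal C ≤ ENNReal.ofReal |C| := ENNReal.ofReal_le_ofReal (le_abs_self C)
    exact (ENNReal.ofReal_le_ofReal_iff (abs_nonneg C)).1 (h6.trans h8)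
  have h8 : (21 : ℝ) ^ (-α) * (q : ℝ) ^ (-α) ≤ ((17 * q + 4 : ℕ) : ℝ) ^ (-α) := by
    rw [← Real.mul_rpow (by norm_num) hqp.le]
    apply Real.rpow_le_rpow_of_nonpos (by positivity) _ (by linarith)
    push_cast
    linarith
  have h9 : ((q ^ 3 : ℕ) : ℝ) ^ β = (q : ℝ) ^ (3 * β) := by
    push_cast
    rw [← Real.rpow_natCast, ← Real.rpow_mul hqp.le]
    norm_num
  have h10 : (q : ℝ) ^ (3 * β - α) * ((21 : ℝ) ^ (-α) * s0) ≤ |C| := by
    refine le_trans ?_ h7
    rw [h9, sub_eq_add_neg, Real.rpow_add hqp]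
    have e1 : 0 < (q : ℝ) ^ (3 * β) := by positivity
    calc (q : ℝ) ^ (3 * β) * (q : ℝ) ^ (-α) * ((21 : ℝ) ^ (-α) * s0) =
        (q : ℝ) ^ (3 * β) * (((21 : ℝ) ^ (-α) * (q : ℝ) ^ (-α)) * s0) := by ring
      _ ≤ _ := by gcongr
  have h11 : (q : ℝ) ^ (3 * β - α) ≤ |C| * (21 : ℝ) ^ α / s0 := by
    rw [le_div_iff₀ hs0p]
    have e2 : (21 : ℝ) ^ (-α) * (21 : ℝ) ^ α = 1 := by
      rw [← Real.rpow_add (by norm_num)]
      simp
    have e3 : (0 : ℝ) < (21 : ℝ) ^ α := by positivity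
    calc (q : ℝ) ^ (3 * β - α) * s0 =
        (q : ℝ) ^ (3 * β - α) * ((21 : ℝ) ^ (-α) * s0) * (21 : ℝ) ^ α := by
          rw [show (q : ℝ) ^ (3 * β - α) * ((21 : ℝ) ^ (-α) * s0) * (21 : ℝ) ^ α =
            (q : ℝ) ^ (3 * β - α) * s0 * ((21 : ℝ) ^ (-α) * (21 : ℝ) ^ α) by ring, e2, mul_one]
      _ ≤ |C| * (21 : ℝ) ^ α := by gcongr
  exact absurd h3 (not_lt.2 h11)

/-! ### one cell -/

/-- the network with one hat -/
noncomputable def onet (h x amp : ℝ) : SNet (Fin 3) where
  a := fun _ => h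
  b0 := fun r => -x - rho' r
  W := fun _ _ _ => 0
  b := fun _ _ => 0
  q := fun r => amp * cFine r

lemma res_onet (h x amp s : ℝ) : (onet h x amp).res 0 s = amp * tent (h * s - x) := by
  simp only [SNet.res, SNet.val, onet, Fin.sum_univ_three, cFine, rho', tent]
  simp
  ring_nf

lemma width_one (hK : IsCompact K) (hρ : ρ Kᶜ = 0) {a b c : ℝ} (hab : a < b) (hc : 0 < c)
    (hden : ∀ s t : ℝ, a ≤ s → s ≤ t → t ≤ b →
      ENNReal.ofReal (c * (t - s)) ≤ ρ {u | s ≤ ∫ x, u x ∂(cube d) ∧ ∫ x, u x ∂(cube d) ≤ t})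
    {α : ℝ} (hα : 0 < α) {n m : ℕ} (hm : 4 ≤ m)
    (hme : ((n : ℝ) + 1) * (1 + |a|) / (b - a) + (n + 1) + 1 ≤ Real.exp m) :
    ENNReal.ofReal ((m : ℝ) ^ (-α) * (Real.sqrt (c * (b - a) / (n + 1)) / 4)) ≤
      width ρ (Ball K α) n := by
  classical
  have hba : 0 < b - a := by linarith
  have hn1 : (0 : ℝ) < (n : ℝ) + 1 := by positivity
  have hm1 : 1 ≤ m := by omega
  set amp : ℝ := (m : ℝ) ^ (-α) with hamp
  have hmr : (1 : ℝ) ≤ m := by exact_mod_cast hm1
  have hamp0 : 0 < amp := by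
    rw [hamp]
    exact Real.rpow_pos_of_pos (by linarith) _
  have hamp1 : amp ≤ 1 := by
    rw [hamp]
    exact Real.rpow_le_one_of_one_le_of_nonpos hmr (by linarith)
  set h : ℝ := ((n : ℝ) + 1) / (b - a) with hh
  have hh0 : 0 < h := by rw [hh]; positivity
  have hme' : h + h * |a| + (n + 1) + 1 ≤ Real.exp m := by
    refine le_trans (le_of_eq ?_) hme
    rw [hh]
    ring
  have hm5 : (5 : ℝ) ≤ Real.exp m := by
    have h1 := Real.add_one_le_exp (m : ℝ)
    have h2 : (4 : ℝ) ≤ m := by exact_mod_cast hm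
    linarith
  refine width_ge hK hρ fun p => ?_
  -- a free cell
  obtain ⟨k, hk⟩ : ∃ k : Fin (n + 1), ∀ i : Fin n,
      ¬ (0 < h * mean ((p i : L2 d) : (Fin d → ℝ) → ℝ) - h * a - (k : ℕ) ∧
        h * mean ((p i : L2 d) : (Fin d → ℝ) → ℝ) - h * a - (k : ℕ) < 1) := by
    by_contra hno
    push Not at hno
    choose g hg1 hg2 using hno
    obtain ⟨k, k', hne, hkk⟩ := Fintype.exists_ne_map_eq_of_card_lt g (by simp)
    apply hne
    apply Fin.ext
    refine nat_unique ⟨hg1 k, hg2 k⟩ ⟨?_, ?_⟩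
    · rw [hkk]; exact hg1 k'
    · rw [hkk]; exact hg2 k'
  have hkn : ((k : ℕ) : ℝ) + 1 ≤ n + 1 := by
    have := k.2
    exact_mod_cast this
  have hk0 : (0 : ℝ) ≤ ((k : ℕ) : ℝ) := by positivity
  let N := onet h (h * a + (k : ℕ)) amp
  have hres : ∀ s, N.res 0 s = amp * tent (h * s - h * a - (k : ℕ)) := by
    intro s
    rw [res_onet]
    congr 2
    ring
  let ψ : C(ℝ, ℝ) := ⟨fun s => N.res 0 s, continuous_res N 0⟩
  have hψe : ∀ s, ψ s = amp * tent (h * s - h * a - (k : ℕ)) := hres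
  have hψb : ∀ s, |ψ s| ≤ amp := by
    intro s
    rw [hψe, abs_mul, abs_of_pos hamp0, abs_of_nonneg (tent_nonneg _)]
    calc amp * tent _ ≤ amp * 1 := by
          gcongr
          exact tent_le_one _
      _ = amp := mul_one _
  have hrho' : ∀ r, 0 ≤ rho' r ∧ rho' r ≤ 1 := by
    intro r
    fin_cases r <;> simp [rho'] <;> norm_num
  have hcf : ∀ r, |cFine r| ≤ 4 := by
    intro r
    fin_cases r <;> simp [cFine] <;> norm_num
  have hmem : (fun (u : L2 d) (_ : Fin d → ℝ) => ψ (mean u)) ∈ Nets d m := by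
    apply SNet.mem_nets (N := N) (T := 0)
    · simp only [Fintype.card_fin]; omega
    · simp
    · omega
    · refine ⟨fun i => ?_, fun i => ?_, fun t ht => by omega, fun t ht => by omega, fun i => ?_⟩
      · show |h| ≤ _
        rw [abs_of_pos hh0]
        have : 0 ≤ h * |a| := by positivity
        linarith
      · show |-(h * a + (k : ℕ)) - rho' i| ≤ _
        have h1 := hrho' i
        have h2 : |h * a| = h * |a| := by rw [abs_mul, abs_of_pos hh0]
        have h3 := abs_le.1 h2.le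
        rw [abs_le]
        constructor <;> linarith [h3.1, h3.2, h1.1, h1.2]
      · show |amp * cFine i| ≤ _
        rw [abs_mul, abs_of_pos hamp0]
        calc amp * |cFine i| ≤ 1 * 4 := mul_le_mul hamp1 (hcf i) (abs_nonneg _) zero_le_one
          _ ≤ _ := by linarith
  refine ⟨constf K ψ, fool_mem hα hm1 hmem hψb, ?_, ?_, ?_⟩
  · rw [neg_constf]
    refine fool_mem hα hm1 (nets_neg hmem) fun s => ?_
    show |-ψ s| ≤ _
    rw [abs_neg]
    exact hψb s
  · intro i
    have h1 : ψ (mean ((p i : L2 d) : (Fin d → ℝ) → ℝ)) = 0 := by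
      rw [hψe]
      have : tent (h * mean ((p i : L2 d) : (Fin d → ℝ) → ℝ) - h * a - (k : ℕ)) = 0 := by
        by_contra hne
        exact hk i (tent_ne hne)
      rw [this, mul_zero]
    show Lp.constL 2 (cube d) ℝ (ψ (mean ((p i : L2 d) : (Fin d → ℝ) → ℝ))) = 0
    rw [h1, map_zero]
  · let E : Unit → Set (L2 d) := fun _ =>
      {u | a + ((k : ℕ) + 1 / 4) / h ≤ mean u ∧ mean u ≤ a + ((k : ℕ) + 3 / 4) / h}
    have hlow := norm_lower (K := K) (ψ := ψ) hK hρ (Finset.univ : Finset Unit) E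
      (fun c _ => measurable_mean_set _ _) (by
        intro c _ c' _ hne
        exact absurd (Subsingleton.elim c c') hne)
      (η := amp / 2) (κ := c * (b - a) / (2 * (n + 1))) (by positivity) (by positivity)
      (by
        rintro _ _ u ⟨h1, h2⟩
        have e1 : 1 / 4 ≤ h * mean u - h * a - (k : ℕ) := by
          have : (((k : ℕ) : ℝ) + 1 / 4) / h ≤ mean u - a := by linarith
          rw [div_le_iff₀ hh0] at this
          linarith
        have e2 : h * mean u - h * a - (k : ℕ) ≤ 3 / 4 := by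
          have : mean u - a ≤ (((k : ℕ) : ℝ) + 3 / 4) / h := by linarith
          rw [le_div_iff₀ hh0] at this
          linarith
        have h3 := tent_mid e1 e2
        rw [hψe, abs_of_nonneg (mul_nonneg hamp0.le (tent_nonneg _))]
        nlinarith)
      (by
        intro _ _
        have h1 := hden (a + ((k : ℕ) + 1 / 4) / h) (a + ((k : ℕ) + 3 / 4) / h)
          (by
            have : 0 ≤ (((k : ℕ) : ℝ) + 1 / 4) / h := by positivity
            linarith)
          (by gcongr; norm_num)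
          (by
            have e2 : (((k : ℕ) : ℝ) + 3 / 4) / h ≤ (n + 1) / h :=
              div_le_div_of_nonneg_right (by linarith) hh0.le
            have e3 : ((n : ℝ) + 1) / h = b - a := by
              rw [hh]
              field_simp
            linarith)
        refine le_trans (ENNReal.ofReal_le_ofReal (le_of_eq ?_)) h1
        rw [hh]
        field_simp
        ring)
    refine le_trans (ENNReal.ofReal_le_ofReal ?_) hlow
    simp only [Finset.card_univ, Fintype.card_unit, Nat.cast_one, one_mul]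
    have h5 : Real.sqrt (c * (b - a) / (n + 1)) / 2 ≤ Real.sqrt (c * (b - a) / (2 * (n + 1))) := by
      apply Real.le_sqrt_of_sq_le
      rw [div_pow, Real.sq_sqrt (by positivity)]
      have : c * (b - a) / (2 * ((n : ℝ) + 1)) = c * (b - a) / (n + 1) / 2 := by
        field_simp
      rw [this]
      have h6 : 0 ≤ c * (b - a) / ((n : ℝ) + 1) := by positivity
      linarith
    calc amp * (Real.sqrt (c * (b - a) / (n + 1)) / 4) =
        amp / 2 * (Real.sqrt (c * (b - a) / (n + 1)) / 2) := by ring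
      _ ≤ _ := by gcongr

end Pool.Agent.P8H32.FN
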