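import Pool.Agent.P8H32.FN.Low3

set_option autoImplicit false

namespace Pool.Agent.P8H32.FN

open MeasureTheory
open scoped ENNReal

variable {d : ℕ} {K : Set (L2 d)} {ρ : Measure (L2 d)}

/-- **The optimal rate is at most one half.** -/
theorem rate_le_half (hS : Setting K ρ) (hD : MeanDensity ρ) {α : ℝ} (hα : 0 < α) :
    rate ρ (Ball K α) ≤ ((1 / 2 : ℝ) : EReal) := by
  obtain ⟨a, b, c, hab, hc, hden⟩ := hD
  have hba : 0 < b - a := by linarith
  refine iSup₂_le fun β hβ => ?_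
  obtain ⟨hβ0, C, hC⟩ := hβ
  rw [EReal.coe_le_coe_iff]
  by_contra hlt
  rw [not_le] at hlt
  have hε : 0 < β - 1 / 2 := by linarith
  set A : ℝ := 2 * ((1 + |a|) / (b - a)) + 3 with hA
  have hA0 : 0 < A := by positivity
  set k0 : ℕ := 4 + ⌈A⌉₊ with hk0
  have hAk : A ≤ Real.exp k0 := by
    have h1 := Real.add_one_le_exp (k0 : ℝ)
    have h2 := Nat.le_ceil A
    have h3 : (k0 : ℝ) = 4 + (⌈A⌉₊ : ℝ) := by rw [hk0]; push_cast; ring
    linarith
  set s1 : ℝ := Real.sqrt (c * (b - a) / 2) / 4 with hs1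
  have hs1p : 0 < s1 := by
    rw [hs1]
    have : 0 < c * (b - a) / 2 := by positivity
    have := Real.sqrt_pos.2 this
    positivity
  set κ : ℝ := (β - 1 / 2) * Real.log 2 with hκ
  have hκ0 : 0 < κ := mul_pos hε (Real.log_pos (by norm_num))
  have h1 : Filter.Tendsto (fun j : ℕ => ((j + k0 : ℕ) : ℝ) ^ α * Real.exp (-κ * ((j + k0 : ℕ) : ℝ)))
      Filter.atTop (nhds 0) :=
    (tendsto_rpow_mul_exp_neg_mul_atTop_nhds_zero α κ hκ0).comp
      (tendsto_natCast_atTop_atTop.comp (Filter.tendsto_add_atTop_nat k0))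
  have hδ : 0 < s1 / ((|C| + 1) * Real.exp (κ * k0)) := by positivity
  obtain ⟨j, hj⟩ := (h1.eventually (gt_mem_nhds hδ)).exists
  set n : ℕ := 2 ^ j with hn
  have hn1 : 1 ≤ n := Nat.one_le_two_pow
  have hn1r : (1 : ℝ) ≤ n := by exact_mod_cast hn1
  have hnp : (0 : ℝ) < n := by linarith
  have hm4 : 4 ≤ j + k0 := by omega
  have hm0 : (0 : ℝ) < ((j + k0 : ℕ) : ℝ) := by
    have : 0 < j + k0 := by omega
    exact_mod_cast this
  have hnr : (n : ℝ) = 2 ^ j := by rw [hn]; push_cast; ring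
  have hne : (n : ℝ) ≤ Real.exp j := by
    rw [hnr, ← Real.exp_one_rpow, Real.rpow_natCast]
    have := Real.add_one_le_exp (1 : ℝ)
    exact pow_le_pow_left₀ (by norm_num) (by linarith) _
  have hme : ((n : ℝ) + 1) * (1 + |a|) / (b - a) + (n + 1) + 1 ≤ Real.exp ((j + k0 : ℕ) : ℝ) := by
    have e1 : ((n : ℝ) + 1) * (1 + |a|) / (b - a) + (n + 1) + 1 ≤ n * A := by
      have e2 : (0 : ℝ) ≤ (1 + |a|) / (b - a) := by positivity
      have e3 : ((n : ℝ) + 1) * (1 + |a|) / (b - a) = (n + 1) * ((1 + |a|) / (b - a)) := by ring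
      rw [e3, hA]
      nlinarith
    refine e1.trans ?_
    push_cast
    rw [Real.exp_add]
    exact mul_le_mul hne hAk hA0.le (Real.exp_pos _).le
  have h4 := width_one (α := α) hS.compact hS.supp hab hc hden hα hm4 hme
  have h5 := hC n
  rw [ofReal_natCast_rpow hn1] at h5
  have h6 : ENNReal.ofReal ((n : ℝ) ^ β) *
      ENNReal.ofReal (((j + k0 : ℕ) : ℝ) ^ (-α) * (Real.sqrt (c * (b - a) / (n + 1)) / 4)) ≤
      ENNReal.ofReal C := le_trans (by gcongr) h5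
  rw [← ENNReal.ofReal_mul (by positivity)] at h6
  have h7 : (n : ℝ) ^ β * (((j + k0 : ℕ) : ℝ) ^ (-α) * (Real.sqrt (c * (b - a) / (n + 1)) / 4)) ≤
      |C| := by
    have h8 : ENNReal.ofReal C ≤ ENNReal.ofReal |C| := ENNReal.ofReal_le_ofReal (le_abs_self C)
    exact (ENNReal.ofReal_le_ofReal_iff (abs_nonneg C)).1 (h6.trans h8)
  have h9 : Real.sqrt (c * (b - a) / 2) * (n : ℝ) ^ (-(1 / 2 : ℝ)) ≤
      Real.sqrt (c * (b - a) / (n + 1)) := by
    rw [Real.rpow_neg hnp.le, ← Real.sqrt_eq_rpow, ← Real.sqrt_inv,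
      ← Real.sqrt_mul (by positivity)]
    apply Real.sqrt_le_sqrt
    rw [← div_eq_mul_inv, div_div]
    apply div_le_div_of_nonneg_left (by positivity) (by positivity)
    linarith
  have h10 : (n : ℝ) ^ (β - 1 / 2) * (((j + k0 : ℕ) : ℝ) ^ (-α) * s1) ≤ |C| := by
    refine le_trans ?_ h7
    rw [sub_eq_add_neg, Real.rpow_add hnp]
    have e1 : 0 < (n : ℝ) ^ β := by positivity
    have e2 : 0 < ((j + k0 : ℕ) : ℝ) ^ (-α) := by positivity
    calc (n : ℝ) ^ β * (n : ℝ) ^ (-(1 / 2 : ℝ)) * (((j + k0 : ℕ) : ℝ) ^ (-α) * s1) =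
        (n : ℝ) ^ β * (((j + k0 : ℕ) : ℝ) ^ (-α) *
          ((Real.sqrt (c * (b - a) / 2) * (n : ℝ) ^ (-(1 / 2 : ℝ))) / 4)) := by
          rw [hs1]; ring
      _ ≤ _ := by gcongr
  have h11 : (n : ℝ) ^ (β - 1 / 2) = Real.exp (κ * j) := by
    rw [hnr, Real.rpow_def_of_pos (by positivity), Real.log_pow, hκ]
    congr 1
    ring
  have h12 : s1 ≤ |C| * (((j + k0 : ℕ) : ℝ) ^ α * Real.exp (-κ * ((j + k0 : ℕ) : ℝ))) *
      Real.exp (κ * k0) := by
    have e2 : ((j + k0 : ℕ) : ℝ) ^ (-α) * ((j + k0 : ℕ) : ℝ) ^ α = 1 := by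
      rw [← Real.rpow_add hm0]
      simp
    have e3 : Real.exp (κ * j) * Real.exp (-κ * ((j + k0 : ℕ) : ℝ)) * Real.exp (κ * k0) = 1 := by
      rw [← Real.exp_add, ← Real.exp_add, ← Real.exp_zero]
      congr 1
      push_cast
      ring
    have e4 : 0 ≤ ((j + k0 : ℕ) : ℝ) ^ α * Real.exp (-κ * ((j + k0 : ℕ) : ℝ)) *
        Real.exp (κ * k0) := by positivity
    have e5 := mul_le_mul_of_nonneg_right h10 e4
    rw [h11] at e5
    calc s1 = (Real.exp (κ * j) * Real.exp (-κ * ((j + k0 : ℕ) : ℝ)) * Real.exp (κ * k0)) *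
          (((j + k0 : ℕ) : ℝ) ^ (-α) * ((j + k0 : ℕ) : ℝ) ^ α) * s1 := by rw [e2, e3]; ring
      _ = Real.exp (κ * j) * (((j + k0 : ℕ) : ℝ) ^ (-α) * s1) *
          (((j + k0 : ℕ) : ℝ) ^ α * Real.exp (-κ * ((j + k0 : ℕ) : ℝ)) * Real.exp (κ * k0)) := by
            ring
      _ ≤ _ := e5
      _ = _ := by ring
  have h13 : (((j + k0 : ℕ) : ℝ) ^ α * Real.exp (-κ * ((j + k0 : ℕ) : ℝ))) *
      ((|C| + 1) * Real.exp (κ * k0)) < s1 := by
    rwa [← lt_div_iff₀ (by positivity)]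
  have h14 : 0 ≤ ((j + k0 : ℕ) : ℝ) ^ α * Real.exp (-κ * ((j + k0 : ℕ) : ℝ)) *
      Real.exp (κ * k0) := by positivity
  nlinarith

end Pool.Agent.P8H32.FN
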