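import Pool.Agent.P8H32.FN.Cover3

set_option autoImplicit false

namespace Pool.Agent.P8H32.FN

open MeasureTheory
open scoped ENNReal

variable {d : ℕ} {K : Set (L2 d)} {ρ : Measure (L2 d)}

lemma ext_coe (f : C(K, L2 d)) (u : K) : ext f u = f u := by
  classical
  exact dif_pos u.2

lemma continuousOn_ext (f : C(K, L2 d)) : ContinuousOn (ext f) K := by
  rw [continuousOn_iff_continuous_domRestrict]
  have : K.domRestrict (ext f) = f := by
    funext u
    exact ext_coe f u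
  rw [this]
  exact f.continuous

lemma restrict_eq_self (hK : IsCompact K) (hρ : ρ Kᶜ = 0) : ρ.restrict K = ρ := by
  apply Measure.restrict_eq_self_of_ae_mem
  exact hρ

lemma aesm_ext (hK : IsCompact K) (hρ : ρ Kᶜ = 0) (f : C(K, L2 d)) :
    AEStronglyMeasurable (ext f) ρ := by
  have := (continuousOn_ext f).aestronglyMeasurable_of_isCompact (μ := ρ) hK hK.measurableSet
  rwa [restrict_eq_self hK hρ] at this

lemma norm_ext_le {f : C(K, L2 d)} {b : ℝ} (hb : 0 ≤ b) (hf : ∀ u : K, ‖f u‖ ≤ b) (u : L2 d) :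
    ‖ext f u‖ ≤ b := by
  classical
  by_cases h : u ∈ K
  · have : ext f u = f ⟨u, h⟩ := dif_pos h
    rw [this]
    exact hf _
  · have : ext f u = 0 := dif_neg h
    rw [this, norm_zero]
    exact hb

lemma memLp_ext [IsProbabilityMeasure ρ] (hK : IsCompact K) (hρ : ρ Kᶜ = 0) {f : C(K, L2 d)}
    {b : ℝ} (hb : 0 ≤ b) (hf : ∀ u : K, ‖f u‖ ≤ b) : MemLp (ext f) 2 ρ :=
  MemLp.of_bound (aesm_ext hK hρ f) b (Filter.Eventually.of_forall (norm_ext_le hb hf))

/-- the measure on `K` -/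
noncomputable def mK (K : Set (L2 d)) (ρ : Measure (L2 d)) : Measure K := ρ.comap Subtype.val

lemma mK_prob [IsProbabilityMeasure ρ] (hK : IsCompact K) (hρ : ρ Kᶜ = 0) :
    IsProbabilityMeasure (mK K ρ) := by
  constructor
  rw [mK, comap_subtype_coe_apply hK.measurableSet, Set.image_univ, Subtype.range_coe]
  have := prob_compl_eq_zero_iff (μ := ρ) hK.measurableSet
  exact this.1 hρ

lemma lintegral_mK (hK : IsCompact K) (hρ : ρ Kᶜ = 0) (g : L2 d → ℝ≥0∞) :
    ∫⁻ u, g u ∂ρ = ∫⁻ u : K, g u ∂(mK K ρ) := by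
  rw [mK, lintegral_subtype_comap hK.measurableSet, restrict_eq_self hK hρ]

/-- Points which hit all the sets. -/
lemma exists_points {X : Type} [MeasurableSpace X] (μ : Measure X) [IsProbabilityMeasure μ]
    (n : ℕ) {ι : Type} (s : Finset ι) (A : ι → Set X)
    (hs : ∑ i ∈ s, (μ (A i)ᶜ) ^ n < 1) : ∃ p : Fin n → X, ∀ i ∈ s, ∃ j, p j ∈ A i := by
  by_contra hno
  push Not at hno
  have h1 : (Set.univ : Set (Fin n → X)) ⊆ ⋃ i ∈ s, Set.univ.pi fun _ : Fin n => (A i)ᶜ := by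
    intro p _
    obtain ⟨i, hi, h⟩ := hno p
    simp only [Set.mem_iUnion]
    exact ⟨i, hi, fun j _ => h j⟩
  have h2 : Measure.pi (fun _ : Fin n => μ) Set.univ ≤ ∑ i ∈ s, (μ (A i)ᶜ) ^ n := by
    refine (measure_mono h1).trans ((measure_biUnion_finset_le _ _).trans ?_)
    refine Finset.sum_le_sum fun i _ => ?_
    rw [Measure.pi_pi]
    simp
  rw [measure_univ] at h2
  exact absurd hs (not_lt.2 h2)

/-- Splitting by level sets. -/
lemma level_split {t : ℕ → ℝ} (ht : ∀ j, 0 ≤ t j) {h : ℝ} (h0 : 0 ≤ h) (h1 : h ≤ t 0) (J : ℕ) :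
    h ^ 2 ≤ (t J) ^ 2 + ∑ j ∈ Finset.range J, if t (j + 1) < h then (t j) ^ 2 else 0 := by
  induction J with
  | zero =>
    simp only [Finset.range_zero, Finset.sum_empty, add_zero]
    exact pow_le_pow_left₀ h0 h1 2
  | succ J ih =>
    rw [Finset.sum_range_succ]
    by_cases hh : t (J + 1) < h
    · rw [if_pos hh]
      have := sq_nonneg (t (J + 1))
      linarith
    · rw [if_neg hh, add_zero]
      have e1 : h ^ 2 ≤ (t (J + 1)) ^ 2 := pow_le_pow_left₀ h0 (not_lt.1 hh) 2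
      have e2 : 0 ≤ ∑ j ∈ Finset.range J, if t (j + 1) < h then (t j) ^ 2 else (0 : ℝ) :=
        Finset.sum_nonneg fun j _ => by split_ifs <;> positivity
      linarith

lemma ball_bound {α : ℝ} {f : C(K, L2 d)} (hf : f ∈ Ball K α) (u : K) : ‖f u‖ ≤ 2 := by
  have h1 : (⨅ (t : ℝ) (_ : 0 < t ∧ Gam α (t⁻¹ • f) ≤ 1), ENNReal.ofReal t) <
      ENNReal.ofReal 2 := lt_of_le_of_lt hf (by norm_num)
  obtain ⟨t, ht⟩ := iInf_lt_iff.1 h1
  obtain ⟨⟨ht0, hG⟩, ht2⟩ := iInf_lt_iff.1 ht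
  have ht2 : t < 2 := (ENNReal.ofReal_lt_ofReal_iff (by norm_num)).1 ht2
  have h2 : ‖(t⁻¹ • f) u‖ₑ ≤ 1 :=
    (le_iSup (fun u : K => ‖(t⁻¹ • f) u‖ₑ) u).trans ((le_max_left _ _).trans hG)
  have h3 : ‖(t⁻¹ • f) u‖ ≤ 1 := by
    rw [← ofReal_norm, ENNReal.ofReal_le_one] at h2
    exact h2
  have h4 : (t⁻¹ • f) u = t⁻¹ • f u := rfl
  rw [h4, norm_smul, norm_inv, Real.norm_eq_abs, abs_of_pos ht0] at h3
  have h5 : ‖f u‖ ≤ t := by
    have := mul_le_mul_of_nonneg_left h3 ht0.le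
    rwa [← mul_assoc, mul_inv_cancel₀ ht0.ne', one_mul, mul_one] at this
  linarith

/-- The main estimate for the difference of two functions. -/
lemma diff_bound [IsProbabilityMeasure ρ] (hK : IsCompact K) (hρ : ρ Kᶜ = 0)
    {f g : C(K, L2 d)} {t δ : ℕ → ℝ} (ht : ∀ j, 0 ≤ t j) (hδ : ∀ j, 0 ≤ δ j)
    (h0 : ∀ u : K, ‖f u - g u‖ ≤ t 0)
    (J : ℕ) (hlev : ∀ j < J, mK K ρ {u : K | t (j + 1) < ‖f u - g u‖} ≤ ENNReal.ofReal (δ j)) :
    eLpNorm (fun u => ext f u - ext g u) 2 ρ ≤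
      ENNReal.ofReal (Real.sqrt ((t J) ^ 2 + ∑ j ∈ Finset.range J, (t j) ^ 2 * δ j)) := by
  have hp := mK_prob hK hρ
  have h1 : ∫⁻ u, ‖ext f u - ext g u‖ₑ ^ (2 : ℝ) ∂ρ ≤
      ENNReal.ofReal ((t J) ^ 2 + ∑ j ∈ Finset.range J, (t j) ^ 2 * δ j) := by
    rw [lintegral_mK hK hρ]
    have h2 : ∀ u : K, ‖ext f (u : L2 d) - ext g (u : L2 d)‖ₑ ^ (2 : ℝ) ≤
        ENNReal.ofReal ((t J) ^ 2) + ∑ j ∈ Finset.range J,
          ({u : K | t (j + 1) < ‖f u - g u‖}.indicator
            (fun _ => ENNReal.ofReal ((t j) ^ 2))) u := by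
      intro u
      rw [ext_coe, ext_coe, ← ofReal_norm, ENNReal.ofReal_rpow_of_nonneg (norm_nonneg _)
        (by norm_num)]
      have h3 := level_split ht (norm_nonneg (f u - g u)) (h0 u) J
      have h4 : ‖f u - g u‖ ^ (2 : ℝ) = ‖f u - g u‖ ^ 2 := by
        rw [← Real.rpow_natCast]; norm_num
      rw [h4]
      refine (ENNReal.ofReal_le_ofReal h3).trans ?_
      rw [ENNReal.ofReal_add (by positivity) (Finset.sum_nonneg fun j _ => by
        split_ifs <;> positivity), ENNReal.ofReal_sum_of_nonneg (fun j _ => by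
        split_ifs <;> positivity)]
      gcongr with j _
      simp only [Set.indicator, Set.mem_ofPred_eq]
      split_ifs <;> simp
    have hmeas : ∀ j, MeasurableSet {u : K | t (j + 1) < ‖f u - g u‖} := fun j =>
      (isOpen_lt continuous_const ((f.continuous.sub g.continuous).norm)).measurableSet
    refine (lintegral_mono h2).trans ?_
    rw [lintegral_add_left measurable_const, lintegral_const, measure_univ, mul_one,
      lintegral_finsetSum _ fun j _ => (measurable_const.indicator (hmeas j)),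
      ENNReal.ofReal_add (by positivity) (Finset.sum_nonneg fun j _ => by
        have := hδ j; positivity), ENNReal.ofReal_sum_of_nonneg (fun j _ => by
        have := hδ j; positivity)]
    gcongr with j hj
    rw [lintegral_indicator_const (hmeas j), ENNReal.ofReal_mul (by positivity)]
    gcongr
    exact hlev j (Finset.mem_range.1 hj)
  rw [eLpNorm_eq_lintegral_rpow_enorm_toReal (by norm_num) (by norm_num)]
  simp only [ENNReal.toReal_ofNat]
  rw [Real.sqrt_eq_rpow, ← ENNReal.ofReal_rpow_of_nonneg (add_nonneg (by positivity)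
    (Finset.sum_nonneg fun j _ => by have := hδ j; positivity)) (by norm_num)]
  exact ENNReal.rpow_le_rpow h1 (by norm_num)

end Pool.Agent.P8H32.FN
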