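import Pool.Agent.P8H32.FN.Net

set_option autoImplicit false

namespace Pool.Agent.P8H32.FN

open MeasureTheory
open scoped ENNReal

variable {d : ℕ} {K : Set (L2 d)} {ρ : Measure (L2 d)}

lemma compl_pow_le {X : Type} [MeasurableSpace X] (μ : Measure X) [IsProbabilityMeasure μ]
    {A : Set X} (hA : MeasurableSet A) {δ : ℝ} (hδ : 0 ≤ δ) (h : ENNReal.ofReal δ ≤ μ A) (n : ℕ) :
    (μ Aᶜ) ^ n ≤ ENNReal.ofReal (Real.exp (-(n * δ))) := by
  have h1 : μ Aᶜ ≤ ENNReal.ofReal (Real.exp (-δ)) := by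
    rw [prob_compl_eq_one_sub hA]
    have h2 : 1 - δ ≤ Real.exp (-δ) := by
      have := Real.add_one_le_exp (-δ)
      linarith
    calc 1 - μ A ≤ 1 - ENNReal.ofReal δ := tsub_le_tsub_left h 1
      _ = ENNReal.ofReal (1 - δ) := by
        rw [ENNReal.ofReal_sub 1 hδ, ENNReal.ofReal_one]
      _ ≤ _ := ENNReal.ofReal_le_ofReal h2
  calc (μ Aᶜ) ^ n ≤ (ENNReal.ofReal (Real.exp (-δ))) ^ n := pow_le_pow_left' h1 n
    _ = _ := by
      rw [← ENNReal.ofReal_pow (Real.exp_pos _).le, ← Real.exp_nat_mul]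
      congr 2
      ring

lemma geom_quarter (N : ℕ) : ∑ j ∈ Finset.range N, ((1 : ℝ) / 4) ^ (j + 1) ≤ 1 / 3 := by
  have : ∑ j ∈ Finset.range N, ((1 : ℝ) / 4) ^ (j + 1) = 1 / 3 - 1 / 3 * (1 / 4) ^ N := by
    induction N with
    | zero => simp
    | succ N ih => rw [Finset.sum_range_succ, ih]; ring
  rw [this]
  have : (0 : ℝ) ≤ 1 / 3 * (1 / 4) ^ N := by positivity
  linarith

/-- Sample points such that functions with equal values are close outside of small sets. -/
lemma good_points [IsProbabilityMeasure ρ] (hK : IsCompact K) (hρ : ρ Kᶜ = 0)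
    {G : Set C(K, L2 d)} {C : ℝ} (hC : 0 < C) {ε : ℕ → ℝ} (Fm : ℕ → Finset C(K, L2 d))
    (hcard : ∀ j, ((Fm j).card : ℝ) ≤ Real.exp (C * 64 ^ j))
    (hcov : ∀ j, ∀ f ∈ G, ∃ g ∈ Fm j, ∀ u : K, ‖f u - g u‖ ≤ 10 * ε j)
    {n : ℕ} (hn : 0 < n) (J : ℕ) :
    ∃ p : Fin n → K, ∀ f ∈ G, ∀ g ∈ G, (∀ i, f (p i) = g (p i)) → ∀ j < J,
      mK K ρ {u : K | 40 * ε j < ‖f u - g u‖} ≤
        ENNReal.ofReal ((2 * C + 2) * 64 ^ j / n) := by
  classical
  have hp := mK_prob hK hρ
  have hn0 : (0 : ℝ) < n := by exact_mod_cast hn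
  let A : (ℕ × C(K, L2 d) × C(K, L2 d)) → Set K := fun q =>
    {u : K | 20 * ε q.1 < ‖q.2.1 u - q.2.2 u‖}
  have hA : ∀ q, MeasurableSet (A q) := fun q =>
    (isOpen_lt continuous_const ((q.2.1.continuous.sub q.2.2.continuous).norm)).measurableSet
  let s : Finset (ℕ × C(K, L2 d) × C(K, L2 d)) :=
    ((Finset.range J).biUnion fun j => (Fm j ×ˢ Fm j).image fun r => (j, r.1, r.2)).filter
      fun q => ENNReal.ofReal ((2 * C + 2) * 64 ^ q.1 / n) ≤ mK K ρ (A q)
  have hsum : ∑ q ∈ s, (mK K ρ (A q)ᶜ) ^ n < 1 := by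
    have h1 : ∀ q ∈ s, (mK K ρ (A q)ᶜ) ^ n ≤
        ENNReal.ofReal (Real.exp (-((2 * C + 2) * 64 ^ q.1))) := by
      intro q hq
      have hq2 := (Finset.mem_filter.1 hq).2
      refine (compl_pow_le (mK K ρ) (hA q) (by positivity) hq2 n).trans ?_
      apply ENNReal.ofReal_le_ofReal
      apply le_of_eq
      congr 2
      field_simp
    have h2 : ∑ q ∈ s, (mK K ρ (A q)ᶜ) ^ n ≤ ∑ j ∈ Finset.range J,
        ∑ q ∈ (Fm j ×ˢ Fm j).image (fun r : C(K, L2 d) × C(K, L2 d) => (j, r.1, r.2)),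
          ENNReal.ofReal (Real.exp (-((2 * C + 2) * 64 ^ q.1))) := by
      refine (Finset.sum_le_sum h1).trans ?_
      refine (Finset.sum_le_sum_of_subset (Finset.filter_subset _ _)).trans ?_
      apply le_of_eq
      apply Finset.sum_biUnion
      intro i _ j _ hij
      rw [Function.onFun, Finset.disjoint_left]
      intro q hq hq'
      obtain ⟨r, _, rfl⟩ := Finset.mem_image.1 hq
      obtain ⟨r', _, h⟩ := Finset.mem_image.1 hq'
      exact hij (congrArg Prod.fst h).symm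
    have h3 : ∀ j ∈ Finset.range J,
        ∑ q ∈ (Fm j ×ˢ Fm j).image (fun r : C(K, L2 d) × C(K, L2 d) => (j, r.1, r.2)),
          ENNReal.ofReal (Real.exp (-((2 * C + 2) * 64 ^ q.1))) ≤
        ENNReal.ofReal ((1 / 4) ^ (j + 1)) := by
      intro j _
      have h4 : ∑ q ∈ (Fm j ×ˢ Fm j).image (fun r : C(K, L2 d) × C(K, L2 d) => (j, r.1, r.2)),
          ENNReal.ofReal (Real.exp (-((2 * C + 2) * 64 ^ q.1))) =
          ∑ q ∈ (Fm j ×ˢ Fm j).image (fun r : C(K, L2 d) × C(K, L2 d) => (j, r.1, r.2)),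
          ENNReal.ofReal (Real.exp (-((2 * C + 2) * 64 ^ j))) := by
        apply Finset.sum_congr rfl
        intro q hq
        obtain ⟨r, _, rfl⟩ := Finset.mem_image.1 hq
        rfl
      rw [h4, Finset.sum_const, nsmul_eq_mul]
      have h5 : (((Fm j ×ˢ Fm j).image
          (fun r : C(K, L2 d) × C(K, L2 d) => (j, r.1, r.2))).card : ℝ) ≤
          Real.exp (2 * C * 64 ^ j) := by
        have e1 : ((Fm j ×ˢ Fm j).image
          (fun r : C(K, L2 d) × C(K, L2 d) => (j, r.1, r.2))).card ≤ (Fm j).card * (Fm j).card :=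
          Finset.card_image_le.trans_eq (Finset.card_product _ _)
        calc (((Fm j ×ˢ Fm j).image
          (fun r : C(K, L2 d) × C(K, L2 d) => (j, r.1, r.2))).card : ℝ) ≤
            ((Fm j).card : ℝ) * (Fm j).card := by exact_mod_cast e1
          _ ≤ Real.exp (C * 64 ^ j) * Real.exp (C * 64 ^ j) :=
            mul_le_mul (hcard j) (hcard j) (by positivity) (by positivity)
          _ = Real.exp (2 * C * 64 ^ j) := by rw [← Real.exp_add]; congr 1; ring
      calc ((((Fm j ×ˢ Fm j).image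
          (fun r : C(K, L2 d) × C(K, L2 d) => (j, r.1, r.2))).card : ℕ) : ℝ≥0∞) *
          ENNReal.ofReal (Real.exp (-((2 * C + 2) * 64 ^ j))) ≤
          ENNReal.ofReal (Real.exp (2 * C * 64 ^ j)) *
          ENNReal.ofReal (Real.exp (-((2 * C + 2) * 64 ^ j))) := by
            gcongr
            rw [← ENNReal.ofReal_natCast]
            exact ENNReal.ofReal_le_ofReal h5
        _ = ENNReal.ofReal (Real.exp (-(2 * 64 ^ j))) := by
            rw [← ENNReal.ofReal_mul (Real.exp_pos _).le, ← Real.exp_add]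
            congr 2
            ring
        _ ≤ ENNReal.ofReal ((1 / 4) ^ (j + 1)) := by
            apply ENNReal.ofReal_le_ofReal
            have e1 : Real.exp (-2) ≤ 1 / 4 := by
              have e2 : (4 : ℝ) ≤ Real.exp 2 := by
                have := Real.add_one_le_exp (1 : ℝ)
                calc (4 : ℝ) ≤ Real.exp 1 * Real.exp 1 := by nlinarith
                  _ = Real.exp 2 := by rw [← Real.exp_add]; norm_num
              rw [Real.exp_neg, inv_eq_one_div]
              exact one_div_le_one_div_of_le (by norm_num) e2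
            have e3 : ((j : ℝ) + 1) ≤ 64 ^ j := by
              have : j + 1 ≤ 64 ^ j := by
                have := Nat.lt_pow_self (n := j) (show 1 < 64 by norm_num)
                omega
              exact_mod_cast this
            calc Real.exp (-(2 * 64 ^ j)) ≤ Real.exp (((j + 1 : ℕ) : ℝ) * (-2)) := by
                  apply Real.exp_le_exp.2
                  push_cast
                  linarith
              _ = (Real.exp (-2)) ^ (j + 1) := by rw [Real.exp_nat_mul]
              _ ≤ (1 / 4) ^ (j + 1) := pow_le_pow_left₀ (Real.exp_pos _).le e1 _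
    calc ∑ q ∈ s, (mK K ρ (A q)ᶜ) ^ n ≤ _ := h2
      _ ≤ ∑ j ∈ Finset.range J, ENNReal.ofReal ((1 / 4) ^ (j + 1)) := Finset.sum_le_sum h3
      _ = ENNReal.ofReal (∑ j ∈ Finset.range J, (1 / 4) ^ (j + 1)) := by
          rw [ENNReal.ofReal_sum_of_nonneg fun j _ => by positivity]
      _ ≤ ENNReal.ofReal (1 / 3) := ENNReal.ofReal_le_ofReal (geom_quarter J)
      _ < 1 := by
          rw [ENNReal.ofReal_lt_one]
          norm_num
  obtain ⟨p, hp2⟩ := exists_points (mK K ρ) n s A hsum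
  refine ⟨p, fun f hf g hg hfg j hj => ?_⟩
  obtain ⟨f', hf', hff⟩ := hcov j f hf
  obtain ⟨g', hg', hgg⟩ := hcov j g hg
  have h1 : {u : K | 40 * ε j < ‖f u - g u‖} ⊆ A (j, f', g') := by
    intro u hu
    simp only [A, Set.mem_ofPred_eq] at hu ⊢
    have e1 := hff u
    have e2 := hgg u
    have e3 : ‖f u - g u‖ ≤ ‖f u - f' u‖ + ‖f' u - g' u‖ + ‖g u - g' u‖ := by
      have : f u - g u = (f u - f' u) + (f' u - g' u) - (g u - g' u) := by abel
      rw [this]
      exact (norm_sub_le _ _).trans (by gcongr; exact norm_add_le _ _)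
    linarith
  refine (measure_mono h1).trans ?_
  by_contra hlt
  rw [not_le] at hlt
  have hmem : (j, f', g') ∈ s := by
    simp only [s, Finset.mem_filter, Finset.mem_biUnion, Finset.mem_range, Finset.mem_image,
      Finset.mem_product]
    exact ⟨⟨j, hj, (f', g'), ⟨hf', hg'⟩, rfl⟩, hlt.le⟩
  obtain ⟨i, hi⟩ := hp2 _ hmem
  simp only [A, Set.mem_ofPred_eq] at hi
  have e1 := hff (p i)
  have e2 := hgg (p i)
  have e3 : ‖f' (p i) - g' (p i)‖ ≤ ‖f (p i) - f' (p i)‖ + ‖g (p i) - g' (p i)‖ := by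
    have : f' (p i) - g' (p i) = -(f (p i) - f' (p i)) + (g (p i) - g' (p i)) := by
      rw [hfg i]; abel
    rw [this]
    refine (norm_add_le _ _).trans ?_
    rw [norm_neg]
  linarith

/-- The width is bounded by the differences of functions with equal values. -/
lemma width_le_of_points [IsProbabilityMeasure ρ] (hK : IsCompact K) (hρ : ρ Kᶜ = 0)
    {G : Set C(K, L2 d)} (hG : ∀ f ∈ G, ∀ u : K, ‖f u‖ ≤ 2) {n : ℕ} (p : Fin n → K) {η : ℝ≥0∞}
    (h : ∀ f ∈ G, ∀ g ∈ G, (∀ i, f (p i) = g (p i)) →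
      eLpNorm (fun u => ext f u - ext g u) 2 ρ ≤ η) : width ρ G n ≤ η := by
  classical
  let D : (Fin n → L2 d) → Lp (L2 d) 2 ρ := fun y =>
    if hy : ∃ g ∈ G, ∀ i, g (p i) = y i then
      (memLp_ext hK hρ (by norm_num) (hG _ hy.choose_spec.1)).toLp (ext hy.choose)
    else 0
  refine (iInf₂_le p D).trans (iSup₂_le fun f hf => ?_)
  have hy : ∃ g ∈ G, ∀ i, g (p i) = f (p i) := ⟨f, hf, fun _ => rfl⟩
  have h1 : D (fun i => f (p i)) =
      (memLp_ext hK hρ (by norm_num) (hG _ hy.choose_spec.1)).toLp (ext hy.choose) := dif_pos hy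
  rw [h1]
  have h2 : eLpNorm (fun u => ext f u - ((memLp_ext hK hρ (by norm_num)
      (hG _ hy.choose_spec.1)).toLp (ext hy.choose) : Lp (L2 d) 2 ρ) u) 2 ρ =
      eLpNorm (fun u => ext f u - ext hy.choose u) 2 ρ := by
    apply eLpNorm_congr_ae
    filter_upwards [MemLp.coeFn_toLp (memLp_ext hK hρ (by norm_num)
      (hG _ hy.choose_spec.1))] with u hu
    rw [hu]
  refine le_of_eq_of_le h2 ?_
  exact h f hf _ hy.choose_spec.1 fun i => (hy.choose_spec.2 i).symm

end Pool.Agent.P8H32.FN
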