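import Pool.Agent.P8H32.FN.Lip2

set_option autoImplicit false

namespace Pool.Agent.P8H32.FN

open MeasureTheory
open scoped ENNReal

/-- A network with one real input. -/
structure SNet (ι : Type) where
  a : ι → ℝ
  b0 : ι → ℝ
  W : ℕ → ι → ι → ℝ
  b : ℕ → ι → ℝ
  q : ι → ℝ

/-- the values of the channels -/
noncomputable def SNet.val {ι : Type} [Fintype ι] (N : SNet ι) (s : ℝ) : ℕ → ι → ℝ
  | 0 => fun i => max 0 (N.a i * s + N.b0 i)
  | t + 1 => fun i => max 0 (∑ j, N.W t i j * N.val s t j + N.b t i)

/-- the output -/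
noncomputable def SNet.res {ι : Type} [Fintype ι] (N : SNet ι) (T : ℕ) (s : ℝ) : ℝ :=
  ∑ i, N.q i * N.val s T i

/-- all weights are at most `B` -/
structure SNet.Bd {ι : Type} (N : SNet ι) (T : ℕ) (B : ℝ) : Prop where
  a : ∀ i, |N.a i| ≤ B
  b0 : ∀ i, |N.b0 i| ≤ B
  W : ∀ t < T, ∀ i j, |N.W t i j| ≤ B
  b : ∀ t < T, ∀ i, |N.b t i| ≤ B
  q : ∀ i, |N.q i| ≤ B

/-- the mean value -/
noncomputable def mean {d : ℕ} (u : (Fin d → ℝ) → ℝ) : ℝ := ∫ x, u x ∂(cube d)

lemma box_one (d : ℕ) : box d 1 = {0} := by
  ext k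
  simp only [box, Fintype.mem_piFinset, Finset.mem_Ioo, Finset.mem_singleton]
  constructor
  · intro h
    funext i
    have := h i
    simp only [Nat.cast_one] at this
    simp only [Pi.zero_apply]
    omega
  · rintro rfl i
    simp

lemma chr_zero {d : ℕ} (x : Fin d → ℝ) : chr (0 : Fin d → ℤ) x = 1 := by
  simp [chr]

lemma fcoeff_zero {d : ℕ} (g : (Fin d → ℝ) → ℝ) : fcoeff 0 g = (mean g : ℂ) := by
  unfold fcoeff mean
  simp only [neg_zero, chr_zero, mul_one]
  exact integral_ofReal

lemma mult_one {d c : ℕ} (P : (Fin d → ℤ) → Fin c → Fin c → ℂ) (v : (Fin d → ℝ) → Fin c → ℝ)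
    (x : Fin d → ℝ) (i : Fin c) :
    mult 1 P v x i = ∑ j, P 0 i j * (mean fun y => v y j : ℝ) := by
  simp only [mult, box_one, Finset.sum_singleton, chr_zero, mul_one, fcoeff_zero]

section embed

variable {ι : Type} [Fintype ι] (N : SNet ι) (d : ℕ) (j0 : Fin (Fintype.card ι))

open scoped Classical in
/-- the Fourier neural operator of a network with one input, applied to the mean value -/
noncomputable def SNet.toParam : Param d (Fintype.card ι) where
  RU i := if i = j0 then 1 else 0
  RX _ _ := 0
  R0 _ := 0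
  QV i := N.q ((Fintype.equivFin ι).symm i)
  Q0 := 0
  W l i j := match l with
    | 0 => 0
    | l + 1 => N.W l ((Fintype.equivFin ι).symm i) ((Fintype.equivFin ι).symm j)
  b l i := match l with
    | 0 => N.b0 ((Fintype.equivFin ι).symm i)
    | l + 1 => N.b l ((Fintype.equivFin ι).symm i)
  P l k i j := if l = 0 ∧ k = 0 ∧ j = j0 then (N.a ((Fintype.equivFin ι).symm i) : ℂ) else 0

lemma SNet.state_toParam (u : (Fin d → ℝ) → ℝ) : ∀ (t : ℕ) (x : Fin d → ℝ)
    (i : Fin (Fintype.card ι)), state 1 (N.toParam d j0) u (t + 1) x i =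
      N.val (mean u) t ((Fintype.equivFin ι).symm i)
  | 0, x, i => by
    have h1 : ∀ y, state 1 (N.toParam d j0) u 0 y j0 = u y := by
      intro y
      simp [state, SNet.toParam]
    have h2 : mult 1 ((N.toParam d j0).P 0) (state 1 (N.toParam d j0) u 0) x i =
        (N.a ((Fintype.equivFin ι).symm i) * mean u : ℝ) := by
      rw [mult_one, Finset.sum_eq_single j0]
      · simp only [h1]
        simp [SNet.toParam]
      · intro j _ hj
        simp [SNet.toParam, hj]
      · simp
    have h3 : ∑ j, (N.toParam d j0).W 0 i j * state 1 (N.toParam d j0) u 0 x j = 0 := by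
      apply Finset.sum_eq_zero
      intro j _
      simp [SNet.toParam]
    show max 0 (∑ j, (N.toParam d j0).W 0 i j * state 1 (N.toParam d j0) u 0 x j +
      (N.toParam d j0).b 0 i + (mult 1 ((N.toParam d j0).P 0)
        (state 1 (N.toParam d j0) u 0) x i).re) = _
    rw [h2, h3, Complex.ofReal_re, SNet.val]
    simp only [SNet.toParam]
    congr 1
    ring
  | t + 1, x, i => by
    have ih := SNet.state_toParam u t
    have h2 : mult 1 ((N.toParam d j0).P (t + 1)) (state 1 (N.toParam d j0) u (t + 1)) x i = 0 := by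
      rw [mult_one]
      apply Finset.sum_eq_zero
      intro j _
      simp [SNet.toParam]
    show max 0 (∑ j, (N.toParam d j0).W (t + 1) i j * state 1 (N.toParam d j0) u (t + 1) x j +
      (N.toParam d j0).b (t + 1) i + (mult 1 ((N.toParam d j0).P (t + 1))
        (state 1 (N.toParam d j0) u (t + 1)) x i).re) = _
    rw [h2, Complex.zero_re, add_zero, SNet.val]
    simp only [ih]
    simp only [SNet.toParam]
    congr 2
    exact Equiv.sum_comp (Fintype.equivFin ι).symm (fun j => N.W t ((Fintype.equivFin ι).symm i) j *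
      N.val (mean u) t j)

lemma SNet.out_toParam (u : (Fin d → ℝ) → ℝ) (T : ℕ) (x : Fin d → ℝ) :
    out 1 (T + 1) (N.toParam d j0) u x = N.res T (mean u) := by
  unfold out
  simp only [SNet.state_toParam]
  simp only [SNet.toParam, add_zero, SNet.res]
  exact Equiv.sum_comp (Fintype.equivFin ι).symm (fun j => N.q j * N.val (mean u) T j)

variable {N} {d}

theorem SNet.mem_nets {m T : ℕ} (hc : Fintype.card ι ≤ m) (hne : 0 < Fintype.card ι)
    (hT : T + 1 ≤ m) (hB : N.Bd T (Real.exp m)) :
    (fun (u : L2 d) (_ : Fin d → ℝ) => N.res T (mean u)) ∈ Nets d m := by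
  let j0 : Fin (Fintype.card ι) := ⟨0, hne⟩
  have he1 : (1 : ℝ) ≤ Real.exp m := Real.one_le_exp (by positivity)
  have he0 : (0 : ℝ) ≤ Real.exp m := (Real.exp_pos _).le
  refine ⟨1, Fintype.card ι, T + 1, N.toParam d j0, one_pos, hne, Nat.succ_pos _, ?_, hc, hT,
    ?_, ?_, ?_⟩
  · rw [one_pow]; omega
  · refine ⟨?_, ?_, ?_, ?_, ?_, ?_, ?_, ?_, ?_⟩
    · intro i
      simp only [SNet.toParam]
      split_ifs
      · rw [abs_one]; exact he1
      · rw [abs_zero]; exact he0
    · intro i j
      simp only [SNet.toParam, abs_zero]; exact he0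
    · intro i
      simp only [SNet.toParam, abs_zero]; exact he0
    · intro i
      exact hB.q _
    · simp only [SNet.toParam, abs_zero]; exact he0
    · intro l hl i j
      cases l with
      | zero => simp only [SNet.toParam, abs_zero]; exact he0
      | succ l => exact hB.W l (by omega) _ _
    · intro l hl i
      cases l with
      | zero => exact hB.b0 _
      | succ l => exact hB.b l (by omega) _
    · intro l hl k hk i j
      simp only [SNet.toParam]
      split_ifs
      · rw [Complex.ofReal_re]; exact hB.a _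
      · rw [Complex.zero_re, abs_zero]; exact he0
    · intro l hl k hk i j
      simp only [SNet.toParam]
      split_ifs
      · rw [Complex.ofReal_im, abs_zero]; exact he0
      · rw [Complex.zero_im, abs_zero]; exact he0
  · intro l hl k i j
    simp only [SNet.toParam, neg_eq_zero]
    split_ifs
    · rw [Complex.conj_ofReal]
    · rw [map_zero]
  · funext u x
    exact (SNet.out_toParam N d j0 u T x).symm

end embed

end Pool.Agent.P8H32.FN
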