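import Pool.Agent.P8H32.FN.Net2

set_option autoImplicit false

namespace Pool.Agent.P8H32.FN

open MeasureTheory
open scoped ENNReal

variable {d : ℕ} {K : Set (L2 d)} {ρ : Measure (L2 d)}

lemma rpow_two_pow (j : ℕ) (a : ℝ) : ((2 : ℝ) ^ j) ^ a = ((2 : ℝ) ^ a) ^ j := by
  rw [← Real.rpow_natCast, ← Real.rpow_mul (by norm_num), ← Real.rpow_natCast,
    ← Real.rpow_mul (by norm_num), mul_comm]

/-- the numerical estimate -/
lemma numeric {α β C : ℝ} (hα : 0 < α) (hC : 0 < C) (hβ : 0 ≤ β) (h2 : β < 1 / 2)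
    (h6 : β < α / 6) : ∃ A : ℝ, 0 ≤ A ∧ ∀ n : ℕ, 0 < n →
    (40 * ((2 : ℝ) ^ (Nat.log 64 n)) ^ (-α)) ^ 2 + ∑ j ∈ Finset.range (Nat.log 64 n),
      (40 * ((2 : ℝ) ^ j) ^ (-α)) ^ 2 * ((2 * C + 2) * 64 ^ (j + 1) / n) ≤
      A * (n : ℝ) ^ (-(2 * β)) := by
  set r : ℝ := (2 : ℝ) ^ (-(2 * α)) * (64 : ℝ) ^ (2 * β) with hr
  have h64 : (64 : ℝ) ^ (2 * β) = (2 : ℝ) ^ (12 * β) := by
    rw [show (64 : ℝ) = 2 ^ (6 : ℝ) by norm_num, ← Real.rpow_mul (by norm_num)]
    congr 1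
    ring
  have hr0 : 0 < r := by positivity
  have hr1 : r < 1 := by
    rw [hr, h64, ← Real.rpow_add (by norm_num)]
    apply Real.rpow_lt_one_of_one_lt_of_neg (by norm_num)
    linarith
  -- the square of the radius
  have hsq : ∀ j : ℕ, (40 * ((2 : ℝ) ^ j) ^ (-α)) ^ 2 = 1600 * (r ^ j * ((64 : ℝ) ^ j) ^ (-(2 * β))) := by
    intro j
    have e1 : (((2 : ℝ) ^ j) ^ (-α)) ^ 2 = ((2 : ℝ) ^ (-(2 * α))) ^ j := by
      rw [rpow_two_pow, ← pow_mul, mul_comm j 2, pow_mul]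
      congr 1
      rw [← Real.rpow_natCast, ← Real.rpow_mul (by norm_num)]
      congr 1
      push_cast
      ring
    have e2 : ((64 : ℝ) ^ j) ^ (-(2 * β)) = ((64 : ℝ) ^ (-(2 * β))) ^ j := by
      rw [← Real.rpow_natCast, ← Real.rpow_mul (by norm_num), ← Real.rpow_natCast,
        ← Real.rpow_mul (by norm_num), mul_comm]
    rw [mul_pow, e1, e2, ← mul_pow, hr, mul_assoc ((2 : ℝ) ^ (-(2 * α))),
      ← Real.rpow_add (by norm_num)]
    norm_num
  refine ⟨1600 * 64 ^ (2 * β) + 1600 * 64 * (2 * C + 2) / (1 - r), ?_, ?_⟩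
  · have : 0 < 1 - r := by linarith
    positivity
  intro n hn
  set J := Nat.log 64 n with hJ
  have hn0 : (0 : ℝ) < n := by exact_mod_cast hn
  have hJ1 : (64 : ℝ) ^ J ≤ n := by exact_mod_cast Nat.pow_log_le_self 64 hn.ne'
  have hJ2 : (n : ℝ) < 64 ^ (J + 1) := by
    exact_mod_cast Nat.lt_pow_succ_log_self (by norm_num) n
  have hn1 : (0 : ℝ) < (n : ℝ) ^ (-(2 * β)) := Real.rpow_pos_of_pos hn0 _
  have t1 : (40 * ((2 : ℝ) ^ J) ^ (-α)) ^ 2 ≤ 1600 * 64 ^ (2 * β) * (n : ℝ) ^ (-(2 * β)) := by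
    rw [hsq]
    have e1 : r ^ J ≤ 1 := pow_le_one₀ hr0.le hr1.le
    have e2 : ((64 : ℝ) ^ J) ^ (-(2 * β)) ≤ 64 ^ (2 * β) * (n : ℝ) ^ (-(2 * β)) := by
      have e3 : (n : ℝ) / 64 ≤ 64 ^ J := by
        rw [div_le_iff₀ (by norm_num), ← pow_succ]
        exact hJ2.le
      calc ((64 : ℝ) ^ J) ^ (-(2 * β)) ≤ ((n : ℝ) / 64) ^ (-(2 * β)) :=
            Real.rpow_le_rpow_of_nonpos (by positivity) e3 (by linarith)
        _ = _ := by
          rw [Real.div_rpow hn0.le (by norm_num), Real.rpow_neg (by norm_num : (0:ℝ) ≤ 64)]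
          field_simp
    have e4 : 0 < ((64 : ℝ) ^ J) ^ (-(2 * β)) := by positivity
    calc 1600 * (r ^ J * ((64 : ℝ) ^ J) ^ (-(2 * β))) ≤
        1600 * (1 * ((64 : ℝ) ^ J) ^ (-(2 * β))) := by gcongr
      _ ≤ 1600 * (64 ^ (2 * β) * (n : ℝ) ^ (-(2 * β))) := by rw [one_mul]; gcongr
      _ = _ := by ring
  have t2 : ∀ j ∈ Finset.range J,
      (40 * ((2 : ℝ) ^ j) ^ (-α)) ^ 2 * ((2 * C + 2) * 64 ^ (j + 1) / n) ≤
      1600 * 64 * (2 * C + 2) * (n : ℝ) ^ (-(2 * β)) * r ^ j := by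
    intro j hj
    have hj := Finset.mem_range.1 hj
    rw [hsq]
    have e1 : ((64 : ℝ) ^ j) ^ (-(2 * β)) * 64 ^ j ≤ (n : ℝ) ^ (-(2 * β)) * n := by
      have e2 : ∀ x : ℝ, 0 < x → x ^ (-(2 * β)) * x = x ^ (1 - 2 * β) := by
        intro x hx
        rw [show 1 - 2 * β = -(2 * β) + 1 by ring, Real.rpow_add hx, Real.rpow_one]
      rw [e2 _ (by positivity), e2 _ hn0]
      apply Real.rpow_le_rpow (by positivity) _ (by linarith)
      exact (pow_le_pow_right₀ (by norm_num) hj.le).trans hJ1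
    calc 1600 * (r ^ j * ((64 : ℝ) ^ j) ^ (-(2 * β))) * ((2 * C + 2) * 64 ^ (j + 1) / n) =
        1600 * 64 * (2 * C + 2) * r ^ j / n * (((64 : ℝ) ^ j) ^ (-(2 * β)) * 64 ^ j) := by
          rw [pow_succ]; ring
      _ ≤ 1600 * 64 * (2 * C + 2) * r ^ j / n * ((n : ℝ) ^ (-(2 * β)) * n) := by gcongr
      _ = _ := by field_simp
  have t3 : ∑ j ∈ Finset.range J,
      (40 * ((2 : ℝ) ^ j) ^ (-α)) ^ 2 * ((2 * C + 2) * 64 ^ (j + 1) / n) ≤
      1600 * 64 * (2 * C + 2) / (1 - r) * (n : ℝ) ^ (-(2 * β)) := by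
    refine (Finset.sum_le_sum t2).trans ?_
    rw [← Finset.mul_sum]
    have e1 : ∑ j ∈ Finset.range J, r ^ j ≤ 1 / (1 - r) := by
      rw [geom_sum_eq hr1.ne, ← neg_div_neg_eq, neg_sub, neg_sub]
      have : 0 < 1 - r := by linarith
      have e5 : 0 < r ^ J := by positivity
      gcongr
      linarith
    have e2 : 0 ≤ 1600 * 64 * (2 * C + 2) * (n : ℝ) ^ (-(2 * β)) := by positivity
    calc 1600 * 64 * (2 * C + 2) * (n : ℝ) ^ (-(2 * β)) * ∑ j ∈ Finset.range J, r ^ j ≤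
        1600 * 64 * (2 * C + 2) * (n : ℝ) ^ (-(2 * β)) * (1 / (1 - r)) := by gcongr
      _ = _ := by ring
  calc _ ≤ 1600 * 64 ^ (2 * β) * (n : ℝ) ^ (-(2 * β)) +
        1600 * 64 * (2 * C + 2) / (1 - r) * (n : ℝ) ^ (-(2 * β)) := add_le_add t1 t3
    _ = _ := by ring

/-- **Lower bound for the optimal rate, for all `K` and `ρ`.** -/
theorem rate_ge (hd : 0 < d) (hS : Setting K ρ) {α : ℝ} (hα : 0 < α) :
    ((min (1 / 2) (α / 6) : ℝ) : EReal) ≤ rate ρ (Ball K α) := by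
  have hK := hS.compact
  have hρ := hS.supp
  have := hS.prob
  obtain ⟨R0, hR0⟩ := hK.isBounded.exists_norm_le
  have hR : ∀ u ∈ K, ‖u‖ ≤ max R0 0 := fun u hu => (hR0 u hu).trans (le_max_left _ _)
  obtain ⟨C, hC, hcov⟩ := cover hd (le_max_right R0 0) hR hα
  have key : ∀ β : ℝ, 0 ≤ β → β < min (1 / 2) (α / 6) → (β : EReal) ≤ rate ρ (Ball K α) := by
    intro β hβ hβ2
    obtain ⟨hβh, hβ6⟩ := lt_min_iff.1 hβ2
    obtain ⟨A, hA0, hA⟩ := numeric hα hC hβ hβh hβ6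
    refine le_iSup₂_of_le (f := fun (β : ℝ) (_ : β ∈ {β : ℝ | 0 ≤ β ∧ ∃ C : ℝ, ∀ n : ℕ,
      (n : ℝ≥0∞) ^ β * width ρ (Ball K α) n ≤ ENNReal.ofReal C}) => (β : EReal)) β ?_ le_rfl
    refine ⟨hβ, max 4 (Real.sqrt A), fun n => ?_⟩
    have hbd : ∀ f ∈ Ball K α, ∀ u : K, ‖f u‖ ≤ 2 := fun f hf u => ball_bound hf u
    rcases Nat.eq_zero_or_pos n with rfl | hn
    · have h1 : width ρ (Ball K α) 0 ≤ ENNReal.ofReal 4 := by
        refine width_le_of_points hK hρ hbd Fin.elim0 fun f hf g hg _ => ?_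
        have h3 : eLpNorm (fun u => ext f u - ext g u) 2 ρ ≤ eLpNorm (fun _ => (4 : ℝ)) 2 ρ := by
          apply eLpNorm_mono
          intro u
          refine (norm_sub_le _ _).trans ?_
          have e1 := norm_ext_le (by norm_num) (hbd f hf) u
          have e2 := norm_ext_le (by norm_num) (hbd g hg) u
          rw [Real.norm_eq_abs, abs_of_pos (by norm_num : (0 : ℝ) < 4)]
          linarith
        refine h3.trans ?_
        rw [eLpNorm_const _ (by norm_num) (IsProbabilityMeasure.ne_zero _)]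
        simp [Real.enorm_eq_ofReal]
      have h2 : ((0 : ℕ) : ℝ≥0∞) ^ β ≤ 1 := by
        rw [Nat.cast_zero]
        rcases hβ.eq_or_lt with h | h
        · rw [← h, ENNReal.rpow_zero]
        · rw [ENNReal.zero_rpow_of_pos h]; exact zero_le_one
      calc ((0 : ℕ) : ℝ≥0∞) ^ β * width ρ (Ball K α) 0 ≤ 1 * ENNReal.ofReal 4 := by gcongr
        _ ≤ _ := by
          rw [one_mul]
          exact ENNReal.ofReal_le_ofReal (le_max_left _ _)
    · have hn0 : (0 : ℝ) < n := by exact_mod_cast hn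
      choose Fm hF1 hF2 using fun j : ℕ => hcov (2 ^ j) Nat.one_le_two_pow
      have hcard : ∀ j, ((Fm j).card : ℝ) ≤ Real.exp (C * 64 ^ j) := by
        intro j
        refine (hF1 j).trans_eq ?_
        congr 2
        push_cast
        rw [← pow_mul, mul_comm j 6, pow_mul]
        norm_num
      have hcov' : ∀ j, ∀ f ∈ Ball K α, ∃ g ∈ Fm j, ∀ u : K,
          ‖f u - g u‖ ≤ 10 * ((2 : ℝ) ^ j) ^ (-α) := by
        intro j f hf
        obtain ⟨g, hg, h⟩ := hF2 j f hf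
        refine ⟨g, hg, fun u => ?_⟩
        have := h u
        push_cast at this
        exact this
      obtain ⟨p, hp⟩ := good_points hK hρ hC Fm hcard hcov' hn (Nat.log 64 n + 1)
      have hw : width ρ (Ball K α) n ≤ ENNReal.ofReal (Real.sqrt (A * (n : ℝ) ^ (-(2 * β)))) := by
        refine width_le_of_points hK hρ hbd p fun f hf g hg hfg => ?_
        have h5 := diff_bound (f := f) (g := g) hK hρ
          (t := fun j => 40 * ((2 : ℝ) ^ j) ^ (-α))
          (δ := fun j => (2 * C + 2) * 64 ^ (j + 1) / n) (fun j => by positivity)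
          (fun j => by positivity) (fun u => by
            have e1 := hbd f hf u
            have e2 := hbd g hg u
            refine (norm_sub_le _ _).trans ?_
            simp only [pow_zero, Real.one_rpow]
            linarith) (Nat.log 64 n) (fun j hj => hp f hf g hg hfg (j + 1) (by omega))
        refine h5.trans (ENNReal.ofReal_le_ofReal (Real.sqrt_le_sqrt (hA n hn)))
      have h6 : Real.sqrt (A * (n : ℝ) ^ (-(2 * β))) = Real.sqrt A * (n : ℝ) ^ (-β) := by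
        rw [Real.sqrt_mul hA0]
        congr 1
        rw [Real.sqrt_eq_rpow, ← Real.rpow_mul hn0.le]
        congr 1
        ring
      calc (n : ℝ≥0∞) ^ β * width ρ (Ball K α) n ≤
          ENNReal.ofReal ((n : ℝ) ^ β) * ENNReal.ofReal (Real.sqrt A * (n : ℝ) ^ (-β)) := by
            rw [ofReal_natCast_rpow hn, ← h6]
            gcongr
        _ = ENNReal.ofReal (Real.sqrt A) := by
            rw [← ENNReal.ofReal_mul (by positivity)]
            congr 1
            rw [Real.rpow_neg hn0.le]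
            have : (0 : ℝ) < (n : ℝ) ^ β := by positivity
            field_simp
        _ ≤ _ := ENNReal.ofReal_le_ofReal (le_max_right _ _)
  apply EReal.ge_of_forall_gt_iff_ge.1
  intro z hz
  rcases lt_or_ge z 0 with h0 | h0
  · have h1 := key 0 le_rfl (lt_min (by norm_num) (by positivity))
    refine le_trans ?_ h1
    exact_mod_cast h0.le
  · exact key z h0 (by exact_mod_cast hz)

end Pool.Agent.P8H32.FN
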